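import Mathlib

/-!
Evaluation of real power series with radius of convergence at least one, and iterated Rolle.
-/

set_option autoImplicit false

namespace Pool.Agent.Helper68_Zeros

open Set

/-- radius of convergence at least one -/
def Good (p : PowerSeries ℝ) : Prop :=
  ∀ r : ℝ, 0 ≤ r → r < 1 → Summable (fun n => |PowerSeries.coeff n p| * r ^ n)

/-- evaluation of a power series at a real number -/
noncomputable def ev (p : PowerSeries ℝ) (w : ℝ) : ℝ := ∑' n, PowerSeries.coeff n p * w ^ n

theorem Good.summable_norm {p : PowerSeries ℝ} (hp : Good p) {w : ℝ} (hw : |w| < 1) :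
    Summable (fun n => ‖PowerSeries.coeff n p * w ^ n‖) := by
  have := hp |w| (abs_nonneg _) hw
  refine this.congr (fun n => ?_)
  rw [norm_mul, Real.norm_eq_abs, norm_pow, Real.norm_eq_abs]

theorem Good.summable {p : PowerSeries ℝ} (hp : Good p) {w : ℝ} (hw : |w| < 1) :
    Summable (fun n => PowerSeries.coeff n p * w ^ n) := (hp.summable_norm hw).of_norm

theorem good_of_bdd {p : PowerSeries ℝ} (C : ℝ) (h : ∀ n, |PowerSeries.coeff n p| ≤ C) :
    Good p := by
  intro r hr hr1
  refine Summable.of_nonneg_of_le (fun n => by positivity)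
    (fun n => mul_le_mul_of_nonneg_right (h n) (by positivity)) ?_
  exact (summable_geometric_of_lt_one hr hr1).mul_left C

theorem Good.add {p q : PowerSeries ℝ} (hp : Good p) (hq : Good q) : Good (p + q) := by
  intro r hr hr1
  refine Summable.of_nonneg_of_le (fun n => by positivity) (fun n => ?_)
    ((hp r hr hr1).add (hq r hr hr1))
  rw [map_add, ← add_mul]
  exact mul_le_mul_of_nonneg_right (abs_add_le _ _) (by positivity)

theorem Good.mul {p q : PowerSeries ℝ} (hp : Good p) (hq : Good q) : Good (p * q) := by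
  intro r hr hr1
  have h1 := summable_norm_sum_mul_antidiagonal_of_summable_norm
    (f := fun n => |PowerSeries.coeff n p| * r ^ n) (g := fun n => |PowerSeries.coeff n q| * r ^ n)
    ((hp r hr hr1).norm) ((hq r hr hr1).norm)
  refine Summable.of_nonneg_of_le (fun n => by positivity) (fun n => ?_) h1
  rw [PowerSeries.coeff_mul]
  have h2 : |∑ kl ∈ Finset.HasAntidiagonal.antidiagonal n, PowerSeries.coeff kl.1 p * PowerSeries.coeff kl.2 q| *
      r ^ n ≤ ∑ kl ∈ Finset.HasAntidiagonal.antidiagonal n, |PowerSeries.coeff kl.1 p| * r ^ kl.1 *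
        (|PowerSeries.coeff kl.2 q| * r ^ kl.2) := by
    calc _ ≤ (∑ kl ∈ Finset.HasAntidiagonal.antidiagonal n,
          |PowerSeries.coeff kl.1 p * PowerSeries.coeff kl.2 q|) * r ^ n :=
          mul_le_mul_of_nonneg_right (Finset.abs_sum_le_sum_abs _ _) (by positivity)
      _ = _ := by
          rw [Finset.sum_mul]
          apply Finset.sum_congr rfl
          intro kl hkl
          rw [Finset.HasAntidiagonal.mem_antidiagonal] at hkl
          rw [abs_mul, ← hkl, pow_add]
          ring
  exact h2.trans (le_abs_self _)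

theorem ev_mul {p q : PowerSeries ℝ} (hp : Good p) (hq : Good q) {w : ℝ} (hw : |w| < 1) :
    ev (p * q) w = ev p w * ev q w := by
  rw [ev, ev, ev, tsum_mul_tsum_eq_tsum_sum_antidiagonal_of_summable_norm (hp.summable_norm hw)
    (hq.summable_norm hw)]
  congr 1
  ext n
  rw [PowerSeries.coeff_mul, Finset.sum_mul]
  apply Finset.sum_congr rfl
  intro kl hkl
  rw [Finset.HasAntidiagonal.mem_antidiagonal] at hkl
  rw [← hkl, pow_add]
  ring

theorem ev_add {p q : PowerSeries ℝ} (hp : Good p) (hq : Good q) {w : ℝ} (hw : |w| < 1) :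
    ev (p + q) w = ev p w + ev q w := by
  rw [ev, ev, ev, ← (hp.summable hw).tsum_add (hq.summable hw)]
  congr 1
  ext n
  rw [map_add, add_mul]

theorem good_coe (p : Polynomial ℝ) : Good (p : PowerSeries ℝ) := by
  intro r _ _
  refine summable_of_ne_finset_zero (s := Finset.range (p.natDegree + 1)) (fun n hn => ?_)
  rw [Finset.mem_range, not_lt] at hn
  rw [Polynomial.coeff_coe, Polynomial.coeff_eq_zero_of_natDegree_lt (by omega)]
  simp

theorem ev_coe (p : Polynomial ℝ) (w : ℝ) : ev (p : PowerSeries ℝ) w = p.eval w := by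
  rw [ev, tsum_eq_sum (s := Finset.range (p.natDegree + 1)) (fun n hn => ?_)]
  · rw [Polynomial.eval_eq_sum_range]
    simp
  · rw [Finset.mem_range, not_lt] at hn
    rw [Polynomial.coeff_coe, Polynomial.coeff_eq_zero_of_natDegree_lt (by omega)]
    simp

theorem good_X : Good (PowerSeries.X : PowerSeries ℝ) := by
  have := good_coe Polynomial.X
  simpa using this

theorem ev_X (w : ℝ) : ev PowerSeries.X w = w := by
  have := ev_coe Polynomial.X w
  simpa using this

theorem good_C (a : ℝ) : Good (PowerSeries.C a : PowerSeries ℝ) := by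
  have := good_coe (Polynomial.C a)
  simpa using this

theorem ev_C (a w : ℝ) : ev (PowerSeries.C a) w = a := by
  have := ev_coe (Polynomial.C a) w
  simpa using this

/-- formal derivative -/
noncomputable def dps (p : PowerSeries ℝ) : PowerSeries ℝ :=
  PowerSeries.mk (fun n => (n + 1) * PowerSeries.coeff (n + 1) p)

theorem coeff_dps (p : PowerSeries ℝ) (n : ℕ) :
    PowerSeries.coeff n (dps p) = (n + 1) * PowerSeries.coeff (n + 1) p := by
  simp [dps]

theorem Good.dps {p : PowerSeries ℝ} (hp : Good p) : Good (dps p) := by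
  intro r hr hr1
  set r' := (r + 1) / 2 with hr'
  have h1 : r < r' := by rw [hr']; linarith
  have h2 : r' < 1 := by rw [hr']; linarith
  have h3 : 0 < r' := by linarith
  have h4 : Filter.Tendsto (fun n : ℕ => ((n : ℝ) * (r / r') ^ n)) Filter.atTop (nhds 0) :=
    tendsto_self_mul_const_pow_of_lt_one (by positivity) (by rw [div_lt_one h3]; exact h1)
  obtain ⟨C, hC⟩ := h4.bddAbove_range
  have h5 : ∀ n : ℕ, (n : ℝ) * (r / r') ^ n ≤ C := fun n => hC ⟨n, rfl⟩
  have hbd : ∀ n : ℕ, ((n : ℝ) + 1) * r ^ n ≤ (C + 1) * r' ^ n := by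
    intro n
    have h6 := h5 n
    have h7 : (r / r') ^ n ≤ 1 := pow_le_one₀ (by positivity) (by
      rw [div_le_one h3]; exact h1.le)
    have h8 : (r / r') ^ n * r' ^ n = r ^ n := by
      rw [← mul_pow, div_mul_cancel₀ _ h3.ne']
    calc ((n : ℝ) + 1) * r ^ n = ((n : ℝ) * (r / r') ^ n + (r / r') ^ n) * r' ^ n := by
          rw [← h8]; ring
      _ ≤ (C + 1) * r' ^ n := by
          apply mul_le_mul_of_nonneg_right _ (by positivity)
          linarith
  have h9 := hp r' h3.le h2
  have h10 : Summable (fun n => |PowerSeries.coeff (n + 1) p| * r' ^ (n + 1)) :=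
    (summable_nat_add_iff 1).mpr h9
  refine Summable.of_nonneg_of_le (fun n => by positivity) (fun n => ?_)
    (h10.mul_left ((C + 1) / r'))
  rw [coeff_dps, abs_mul, abs_of_nonneg (by positivity : (0 : ℝ) ≤ (n : ℝ) + 1)]
  calc ((n : ℝ) + 1) * |PowerSeries.coeff (n + 1) p| * r ^ n
      = |PowerSeries.coeff (n + 1) p| * (((n : ℝ) + 1) * r ^ n) := by ring
    _ ≤ |PowerSeries.coeff (n + 1) p| * ((C + 1) * r' ^ n) :=
        mul_le_mul_of_nonneg_left (hbd n) (abs_nonneg _)
    _ = (C + 1) / r' * (|PowerSeries.coeff (n + 1) p| * r' ^ (n + 1)) := by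
        rw [pow_succ]; field_simp

theorem hasDerivAt_ev {p : PowerSeries ℝ} (hp : Good p) {w : ℝ} (hw : |w| < 1) :
    HasDerivAt (ev p) (ev (dps p) w) w := by
  set r := (|w| + 1) / 2 with hr
  have h1 : |w| < r := by rw [hr]; linarith
  have h2 : r < 1 := by rw [hr]; linarith
  have h3 : 0 < r := lt_of_le_of_lt (abs_nonneg _) h1
  have hd := hp.dps r h3.le h2
  have hu : Summable (fun n : ℕ => |PowerSeries.coeff n p| * n * r ^ (n - 1)) := by
    rw [← summable_nat_add_iff 1]
    refine hd.congr (fun n => ?_)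
    rw [coeff_dps, abs_mul, abs_of_nonneg (by positivity : (0 : ℝ) ≤ (n : ℝ) + 1)]
    push_cast
    ring
  have h4 := hasDerivAt_tsum_of_isPreconnected (𝕜 := ℝ) (F := ℝ) hu
    (g := fun n z => PowerSeries.coeff n p * z ^ n)
    (g' := fun n z => PowerSeries.coeff n p * (n * z ^ (n - 1)))
    (t := Metric.ball (0 : ℝ) r) (y₀ := 0) (y := w) Metric.isOpen_ball
    (convex_ball 0 r).isPreconnected
    (fun n y _ => by
      have := (hasDerivAt_pow n y).const_mul (PowerSeries.coeff n p)
      simpa using this)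
    (fun n y hy => by
      rw [Metric.mem_ball, dist_zero_right, Real.norm_eq_abs] at hy
      rw [norm_mul, norm_mul, norm_pow, Real.norm_eq_abs, Real.norm_eq_abs, Real.norm_eq_abs,
        abs_of_nonneg (by positivity : (0 : ℝ) ≤ (n : ℝ)), mul_assoc]
      exact mul_le_mul_of_nonneg_left (mul_le_mul_of_nonneg_left
        (pow_le_pow_left₀ (abs_nonneg _) hy.le _) (by positivity)) (abs_nonneg _))
    (by simpa using h3)
    (by simpa using hp.summable (w := 0) (by simp))
    (by rw [Metric.mem_ball, dist_zero_right, Real.norm_eq_abs]; exact h1)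
  have h5 : (∑' n, PowerSeries.coeff n p * ((n : ℝ) * w ^ (n - 1))) = ev (dps p) w := by
    have hsum : Summable (fun n : ℕ => PowerSeries.coeff n p * ((n : ℝ) * w ^ (n - 1))) := by
      refine Summable.of_norm_bounded hu (fun n => ?_)
      rw [norm_mul, norm_mul, norm_pow, Real.norm_eq_abs, Real.norm_eq_abs, Real.norm_eq_abs,
        abs_of_nonneg (by positivity : (0 : ℝ) ≤ (n : ℝ)), mul_assoc]
      exact mul_le_mul_of_nonneg_left (mul_le_mul_of_nonneg_left
        (pow_le_pow_left₀ (abs_nonneg _) h1.le _) (by positivity)) (abs_nonneg _)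
    rw [hsum.tsum_eq_zero_add, ev]
    simp only [Nat.cast_zero, zero_mul, mul_zero, zero_add]
    congr 1
    ext n
    rw [coeff_dps]
    push_cast
    ring
  rw [← h5]
  exact h4

/-- iterated derivative of a power series -/
noncomputable def dpsN : ℕ → PowerSeries ℝ → PowerSeries ℝ
  | 0, p => p
  | (m + 1), p => dpsN m (dps p)

theorem Good.dpsN {p : PowerSeries ℝ} (hp : Good p) (m : ℕ) : Good (dpsN m p) := by
  induction m generalizing p with
  | zero => exact hp
  | succ m ih => exact ih hp.dps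

theorem dpsN_succ (m : ℕ) (p : PowerSeries ℝ) : dpsN (m + 1) p = dps (dpsN m p) := by
  induction m generalizing p with
  | zero => rfl
  | succ m ih => rw [dpsN, ih, dpsN]

/-- coefficients nonnegative from index `M`, positive at `M`. -/
theorem ev_dpsN_pos {p : PowerSeries ℝ} (hp : Good p) (M : ℕ)
    (h1 : ∀ N ≥ M, 0 ≤ PowerSeries.coeff N p) (h2 : 0 < PowerSeries.coeff M p) {w : ℝ}
    (hw0 : 0 ≤ w) (hw1 : w < 1) : 0 < ev (dpsN M p) w := by
  induction M generalizing p with
  | zero =>
    rw [dpsN, ev]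
    have hs : Summable (fun n => PowerSeries.coeff n p * w ^ n) :=
      hp.summable (by rw [abs_of_nonneg hw0]; exact hw1)
    rw [hs.tsum_eq_zero_add]
    have h3 : 0 ≤ ∑' n, PowerSeries.coeff (n + 1) p * w ^ (n + 1) :=
      tsum_nonneg (fun n => mul_nonneg (h1 _ (by omega)) (by positivity))
    simp only [pow_zero, mul_one]
    linarith
  | succ M ih =>
    rw [dpsN]
    refine ih hp.dps (fun N hN => ?_) ?_
    · rw [coeff_dps]
      exact mul_nonneg (by positivity) (h1 _ (by omega))
    · rw [coeff_dps]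
      exact mul_pos (by positivity) h2

theorem zeros_deriv {g g' : ℝ → ℝ} (hg : ∀ w ∈ Ico (0 : ℝ) 1, HasDerivAt g (g' w) w)
    (T : Finset ℝ) : (∀ w ∈ T, w ∈ Ico (0 : ℝ) 1 ∧ g w = 0) →
    ∃ T' : Finset ℝ, (∀ w ∈ T', w ∈ Ico (0 : ℝ) 1 ∧ g' w = 0) ∧ T.card ≤ T'.card + 1 ∧
      Disjoint T' T ∧ ∀ x ∈ T', ∃ s ∈ T, x < s := by
  induction T using Finset.induction_on_max with
  | empty =>
    intro _
    exact ⟨∅, by simp, by simp, by simp, by simp⟩
  | insert a S hS ih =>
    intro hT
    obtain ⟨S', hS1, hS2, hS3, hS4⟩ := ih (fun w hw => hT w (Finset.mem_insert_of_mem hw))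
    rcases S.eq_empty_or_nonempty with hE | hNE
    · subst hE
      exact ⟨∅, by simp, by simp, by simp, by simp⟩
    · set b := S.max' hNE with hb
      have hbS : b ∈ S := S.max'_mem hNE
      have hba : b < a := hS b hbS
      have hb0 := hT b (Finset.mem_insert_of_mem hbS)
      have ha0 := hT a (Finset.mem_insert_self _ _)
      obtain ⟨ξ, hξ, hξ'⟩ := exists_hasDerivAt_eq_zero (f := g) (f' := g') hba
        (fun x hx => (hg x ⟨hb0.1.1.trans hx.1, lt_of_le_of_lt hx.2 ha0.1.2⟩).continuousAt.continuousWithinAt)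
        (by rw [hb0.2, ha0.2])
        (fun x hx => hg x ⟨hb0.1.1.trans hx.1.le, hx.2.trans ha0.1.2⟩)
      have hξS' : ξ ∉ S' := by
        intro h
        obtain ⟨s, hs, hlt⟩ := hS4 ξ h
        have := S.le_max' s hs
        have h5 := hξ.1
        linarith
      refine ⟨insert ξ S', ?_, ?_, ?_, ?_⟩
      · intro w hw
        rw [Finset.mem_insert] at hw
        rcases hw with hw | hw
        · rw [hw]
          exact ⟨⟨hb0.1.1.trans hξ.1.le, hξ.2.trans ha0.1.2⟩, hξ'⟩
        · exact hS1 w hw
      · rw [Finset.card_insert_of_notMem hξS']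
        have := Finset.card_insert_le a S
        omega
      · rw [Finset.disjoint_left]
        intro w hw hw'
        rw [Finset.mem_insert] at hw hw'
        rcases hw with hw | hw
        · rcases hw' with hw' | hw'
          · rw [hw] at hw'
            rw [hw'] at hξ
            exact lt_irrefl _ hξ.2
          · rw [hw] at hw'
            have := S.le_max' ξ hw'
            have h5 := hξ.1
            linarith
        · rcases hw' with hw' | hw'
          · obtain ⟨s, hs, hlt⟩ := hS4 w hw
            have := hS s hs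
            rw [hw'] at hlt
            linarith
          · exact Finset.disjoint_left.mp hS3 hw hw'
      · intro x hx
        rw [Finset.mem_insert] at hx
        rcases hx with hx | hx
        · exact ⟨a, Finset.mem_insert_self _ _, by rw [hx]; exact hξ.2⟩
        · obtain ⟨s, hs, hlt⟩ := hS4 x hx
          exact ⟨s, Finset.mem_insert_of_mem hs, hlt⟩

theorem rolle_count {f : ℕ → ℝ → ℝ}
    (hf : ∀ i, ∀ w ∈ Ico (0 : ℝ) 1, HasDerivAt (f i) (f (i + 1) w) w) (m : ℕ) :
    ∀ i, ∀ T : Finset ℝ, (∀ w ∈ T, w ∈ Ico (0 : ℝ) 1 ∧ f i w = 0) → m + 1 ≤ T.card →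
      ∃ w ∈ Ico (0 : ℝ) 1, f (i + m) w = 0 := by
  induction m with
  | zero =>
    intro i T hT hc
    obtain ⟨w, hw⟩ := Finset.card_pos.mp (by omega : 0 < T.card)
    exact ⟨w, (hT w hw).1, (hT w hw).2⟩
  | succ m ih =>
    intro i T hT hc
    obtain ⟨T', hT', hc', -, -⟩ := zeros_deriv (hf i) T hT
    obtain ⟨w, hw, hw'⟩ := ih (i + 1) T' hT' (by omega)
    refine ⟨w, hw, ?_⟩
    have e : i + (m + 1) = i + 1 + m := by ring
    rw [e]
    exact hw'

/-- Main counting lemma for power series: if the coefficients from index `M` on are nonnegative,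
positive at `M`, then there are at most `M` zeros in `[0,1)`, and if there are `M` zeros, they are
all simple. -/
theorem count_zeros {p : PowerSeries ℝ} (hp : Good p) (M : ℕ)
    (h1 : ∀ N ≥ M, 0 ≤ PowerSeries.coeff N p) (h2 : 0 < PowerSeries.coeff M p)
    (T : Finset ℝ) (hT : ∀ w ∈ T, w ∈ Ico (0 : ℝ) 1 ∧ ev p w = 0) :
    T.card ≤ M ∧ (T.card = M → ∀ w ∈ T, ev (dps p) w ≠ 0) := by
  have hf : ∀ i, ∀ w ∈ Ico (0 : ℝ) 1,
      HasDerivAt (ev (dpsN i p)) (ev (dpsN (i + 1) p) w) w := by
    intro i w hw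
    rw [dpsN_succ]
    exact hasDerivAt_ev (hp.dpsN i) (by rw [abs_of_nonneg hw.1]; exact hw.2)
  constructor
  · by_contra hlt
    push Not at hlt
    obtain ⟨w, hw, hw'⟩ := rolle_count (f := fun i => ev (dpsN i p)) hf M 0 T hT hlt
    rw [zero_add] at hw'
    exact absurd hw' (ev_dpsN_pos hp M h1 h2 hw.1 hw.2).ne'
  · intro hc w0 hw0 hd
    have hM : 1 ≤ M := by
      rw [← hc]; exact Finset.card_pos.mpr ⟨w0, hw0⟩
    obtain ⟨T', hT', hc', hdis, -⟩ := zeros_deriv (hf 0) T hT
    obtain ⟨w, hw, hw'⟩ := rolle_count (f := fun i => ev (dpsN i p)) hf (M - 1) 1 (insert w0 T')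
      (fun w hw => by
        rw [Finset.mem_insert] at hw
        rcases hw with hw | hw
        · rw [hw]; exact ⟨(hT w0 hw0).1, hd⟩
        · exact hT' w hw)
      (by
        rw [Finset.card_insert_of_notMem (fun h => Finset.disjoint_left.mp hdis h hw0)]
        omega)
    have e : 1 + (M - 1) = M := by omega
    rw [e] at hw'
    exact absurd hw' (ev_dpsN_pos hp M h1 h2 hw.1 hw.2).ne'

end Pool.Agent.Helper68_Zeros
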