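import Mathlib

/-!
Positivity of the moment functional attached to a Stieltjes continued fraction given by a chain
of power series `R i = R (i+1) - c i * X * R (i+2)`.
-/

set_option autoImplicit false

namespace Pool.Agent.Helper68_Zeros

open Polynomial

/-- The linear functional `X^j ↦ coeff j s` on polynomials. -/
noncomputable def Lam (s : PowerSeries ℝ) : ℝ[X] →ₗ[ℝ] ℝ :=
  Polynomial.lsum (fun j => (PowerSeries.coeff j s) • (LinearMap.id : ℝ →ₗ[ℝ] ℝ))

theorem Lam_X_pow (s : PowerSeries ℝ) (j : ℕ) : Lam s (X ^ j) = PowerSeries.coeff j s := by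
  have : (X ^ j : ℝ[X]) = Polynomial.monomial j 1 := (Polynomial.monomial_one_right_eq_X_pow j).symm
  rw [this, Lam, Polynomial.lsum_apply, Polynomial.sum_monomial_index] <;> simp

theorem deg_C_mul_le (a : ℝ) (p : ℝ[X]) : (C a * p).degree ≤ p.degree := by
  by_cases ha : a = 0
  · simp [ha]
  · rw [Polynomial.degree_C_mul ha]

/-- abstract positivity from orthogonal polynomials -/
theorem pos_of_orth (L : ℝ[X] →ₗ[ℝ] ℝ)
    (h : ∀ l : ℕ, ∃ p : ℝ[X], p.Monic ∧ p.natDegree = l ∧ (∀ j < l, L (X ^ j * p) = 0) ∧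
      0 < L (X ^ l * p)) :
    ∀ q : ℝ[X], q ≠ 0 → 0 < L (q * q) := by
  have key : ∀ n : ℕ, ∀ q : ℝ[X], q.degree < n → q ≠ 0 → 0 < L (q * q) := by
    intro n
    induction n with
    | zero =>
      intro q hq hq0
      exfalso
      apply hq0
      rw [← Polynomial.degree_eq_bot]
      by_contra hne
      rw [Polynomial.degree_eq_natDegree hq0] at hq
      have : q.natDegree < 0 := by exact_mod_cast hq
      omega
    | succ n ih =>
      intro q hq hq0
      obtain ⟨p, hp, hpd, hp0, hpn⟩ := h n
      set α := q.coeff n with hα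
      set r := q - C α * p with hr
      have hqd : q.degree ≤ n := by
        have := Polynomial.degree_eq_natDegree hq0
        rw [this] at hq ⊢
        have h2 : q.natDegree < n + 1 := by exact_mod_cast hq
        exact_mod_cast Nat.lt_succ_iff.mp h2
      have hpc : p.coeff n = 1 := by
        have := hp.coeff_natDegree
        rwa [hpd] at this
      have hpdeg : p.degree ≤ n := by
        rw [← hpd]; exact Polynomial.degree_le_natDegree
      have hrd : r.degree < n := by
        rw [Polynomial.degree_lt_iff_coeff_zero]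
        intro m hm
        rw [hr, Polynomial.coeff_sub, Polynomial.coeff_C_mul]
        rcases Nat.eq_or_lt_of_le hm with hm | hm
        · subst hm
          rw [hpc, ← hα]; ring
        · rw [Polynomial.coeff_eq_zero_of_degree_lt (lt_of_le_of_lt hqd (by exact_mod_cast hm)),
            Polynomial.coeff_eq_zero_of_degree_lt (lt_of_le_of_lt hpdeg (by exact_mod_cast hm))]
          ring
      -- orthogonality to lower degree polynomials
      have horth : ∀ t : ℝ[X], t.degree < n → L (t * p) = 0 := by
        intro t ht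
        have h1 : t = ∑ j ∈ Finset.range n, C (t.coeff j) * X ^ j := by
          ext m
          rw [Polynomial.finsetSum_coeff]
          simp only [Polynomial.coeff_C_mul, Polynomial.coeff_X_pow]
          rcases Nat.lt_or_ge m n with hm | hm
          · rw [Finset.sum_eq_single m]
            · simp
            · intro b _ hb
              rw [if_neg (Ne.symm hb)]; ring
            · intro hmn
              exact absurd (Finset.mem_range.mpr hm) hmn
          · rw [Polynomial.coeff_eq_zero_of_degree_lt (lt_of_lt_of_le ht (by exact_mod_cast hm))]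
            symm
            apply Finset.sum_eq_zero
            intro b hb
            rw [if_neg (by have := Finset.mem_range.mp hb; omega)]; ring
        rw [h1, Finset.sum_mul, map_sum]
        apply Finset.sum_eq_zero
        intro j hj
        rw [mul_assoc, ← Polynomial.smul_eq_C_mul, map_smul, hp0 j (Finset.mem_range.mp hj),
          smul_zero]
      have hpp : L (p * p) = L (X ^ n * p) := by
        have h2 : (p - X ^ n : ℝ[X]).degree < (n : WithBot ℕ) := by
          rw [Polynomial.degree_lt_iff_coeff_zero]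
          intro m hm
          rw [Polynomial.coeff_sub, Polynomial.coeff_X_pow]
          rcases Nat.eq_or_lt_of_le hm with hm | hm
          · subst hm
            rw [hpc, if_pos rfl]; ring
          · rw [if_neg (by omega),
              Polynomial.coeff_eq_zero_of_degree_lt (lt_of_le_of_lt hpdeg (by exact_mod_cast hm))]
            ring
        have h3 := horth _ h2
        rw [sub_mul, map_sub] at h3
        linarith
      have hq' : q = C α * p + r := by rw [hr]; ring
      have hexp : L (q * q) = α ^ 2 * L (X ^ n * p) + L (r * r) := by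
        have h4 : q * q = (α ^ 2) • (p * p) + (2 * α) • (r * p) + r * r := by
          conv_lhs => rw [hq']
          rw [Polynomial.smul_eq_C_mul, Polynomial.smul_eq_C_mul]
          simp only [map_mul, map_pow, map_ofNat]
          ring
        rw [h4, map_add, map_add, map_smul, map_smul, horth r hrd, hpp]
        simp
      rw [hexp]
      by_cases hr0 : r = 0
      · have hα0 : α ≠ 0 := by
          intro hα0
          apply hq0
          rw [hq', hr0, hα0]; simp
        rw [hr0]
        have : 0 < α ^ 2 := by positivity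
        simpa using mul_pos this hpn
      · have h5 := ih r hrd hr0
        have : 0 ≤ α ^ 2 * L (X ^ n * p) := by positivity
        linarith
  intro q hq
  exact key (q.natDegree + 1) q (by
    rw [Polynomial.degree_eq_natDegree hq]
    exact_mod_cast Nat.lt_succ_self _) hq

/-- generating function of `j ↦ Λ (X^j p)` -/
noncomputable def Gen (s : PowerSeries ℝ) (p : ℝ[X]) : PowerSeries ℝ :=
  PowerSeries.mk (fun j => Lam s (X ^ j * p))

theorem Gen_sub (s : PowerSeries ℝ) (p q : ℝ[X]) : Gen s (p - q) = Gen s p - Gen s q := by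
  ext n
  simp [Gen, mul_sub]

theorem Gen_C_mul (s : PowerSeries ℝ) (a : ℝ) (p : ℝ[X]) :
    Gen s (C a * p) = PowerSeries.C a * Gen s p := by
  ext n
  have : (X ^ n * (C a * p) : ℝ[X]) = a • (X ^ n * p) := by
    rw [Polynomial.smul_eq_C_mul]; ring
  simp [Gen, this]

theorem Gen_one (s : PowerSeries ℝ) : Gen s 1 = s := by
  ext n
  simp [Gen, Lam_X_pow]

theorem X_mul_Gen (s : PowerSeries ℝ) (p : ℝ[X]) :
    PowerSeries.X * Gen s (X * p) = Gen s p - PowerSeries.C (Lam s p) := by
  ext n
  cases n with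
  | zero => simp [Gen]
  | succ n =>
    rw [mul_comm, PowerSeries.coeff_succ_mul_X]
    simp only [Gen, PowerSeries.coeff_mk, map_sub]
    rw [PowerSeries.coeff_C, if_neg (by omega), sub_zero, pow_succ, mul_assoc]

section

variable (R : ℕ → PowerSeries ℝ) (c : ℕ → ℝ) (s : PowerSeries ℝ)

theorem PS_X_cancel {a b : PowerSeries ℝ} (h : PowerSeries.X * a = PowerSeries.X * b) : a = b :=
  mul_left_cancel₀ PowerSeries.X_ne_zero h

theorem chain (hc : ∀ i, 0 < c i) (h0 : ∀ i, PowerSeries.constantCoeff (R i) = 1)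
    (hrec : ∀ i, R i = R (i + 1) - PowerSeries.C (c i) * PowerSeries.X * R (i + 2))
    (hs : s * R 0 = R 1) (l : ℕ) :
    ∃ p q : ℝ[X], ∃ h k : ℝ, p.Monic ∧ p.natDegree = l ∧ q.Monic ∧ q.natDegree = l ∧ 0 < h ∧ 0 < k ∧
      Gen s p * R 0 = PowerSeries.C h * PowerSeries.X ^ l * R (2 * l + 1) ∧
      Gen s (X * q) * R 0 = PowerSeries.C k * PowerSeries.X ^ l * R (2 * l + 2) := by
  induction l with
  | zero =>
    refine ⟨1, 1, 1, c 0, monic_one, natDegree_one, monic_one, natDegree_one, one_pos, hc 0, ?_, ?_⟩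
    · rw [Gen_one, hs]; simp
    · apply PS_X_cancel
      rw [← mul_assoc, X_mul_Gen, Gen_one, sub_mul, hs]
      have h1 : Lam s 1 = 1 := by
        have h2 := Lam_X_pow s 0
        rw [pow_zero] at h2
        rw [h2, PowerSeries.coeff_zero_eq_constantCoeff_apply]
        have h3 := congrArg PowerSeries.constantCoeff hs
        rw [map_mul, h0, h0, mul_one] at h3
        exact h3
      rw [h1, map_one, one_mul]
      have h4 := hrec 0
      simp only [zero_add] at h4
      simp only [pow_zero, mul_one, mul_zero, zero_add]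
      linear_combination -h4
  | succ l ih =>
    obtain ⟨p, q, h, k, hp, hpd, hq, hqd, hh, hk, hG1, hG2⟩ := ih
    set p' : ℝ[X] := X * q - C (k / h) * p with hp'
    have hXq : (X * q : ℝ[X]).Monic := monic_X.mul hq
    have hXqd : (X * q : ℝ[X]).natDegree = l + 1 := by
      rw [Polynomial.natDegree_X_mul hq.ne_zero, hqd]
    have hp'd' : (C (k / h) * p).degree < (X * q : ℝ[X]).degree := by
      rw [Polynomial.degree_eq_natDegree hXq.ne_zero, hXqd]
      refine lt_of_le_of_lt (deg_C_mul_le _ _) ?_
      rw [Polynomial.degree_eq_natDegree hp.ne_zero, hpd]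
      exact_mod_cast Nat.lt_succ_self l
    have hp'm : p'.Monic := hXq.sub_of_left hp'd'
    have hp'd : p'.natDegree = l + 1 := by
      rw [hp', Polynomial.natDegree_sub_eq_left_of_natDegree_lt, hXqd]
      rw [hXqd]
      refine lt_of_le_of_lt (Polynomial.natDegree_C_mul_le _ _) ?_
      omega
    have hG1' : Gen s p' * R 0 = PowerSeries.C (k * c (2 * l + 1)) * PowerSeries.X ^ (l + 1) *
        R (2 * (l + 1) + 1) := by
      rw [hp', Gen_sub, sub_mul, Gen_C_mul, mul_assoc (PowerSeries.C (k / h)), hG2, hG1]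
      have h1 := hrec (2 * l + 1)
      have e1 : 2 * l + 1 + 1 = 2 * l + 2 := by ring
      have e2 : 2 * l + 1 + 2 = 2 * (l + 1) + 1 := by ring
      rw [e1, e2] at h1
      have h2 : (PowerSeries.C (k / h) * PowerSeries.C h : PowerSeries ℝ) = PowerSeries.C k := by
        rw [← map_mul, div_mul_cancel₀ _ hh.ne']
      rw [h1, map_mul]
      linear_combination (-(PowerSeries.X ^ l * (R (2 * l + 2) -
        PowerSeries.C (c (2 * l + 1)) * PowerSeries.X * R (2 * (l + 1) + 1)))) * h2
    have hk' : 0 < k * c (2 * l + 1) := mul_pos hk (hc _)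
    set q' : ℝ[X] := p' - C (k * c (2 * l + 1) / k) * q with hq'
    have hq'm : q'.Monic := by
      apply hp'm.sub_of_left
      rw [Polynomial.degree_eq_natDegree hp'm.ne_zero, hp'd]
      refine lt_of_le_of_lt (deg_C_mul_le _ _) ?_
      rw [Polynomial.degree_eq_natDegree hq.ne_zero, hqd]
      exact_mod_cast Nat.lt_succ_self l
    have hq'd : q'.natDegree = l + 1 := by
      rw [hq', Polynomial.natDegree_sub_eq_left_of_natDegree_lt, hp'd]
      rw [hp'd]
      refine lt_of_le_of_lt (Polynomial.natDegree_C_mul_le _ _) ?_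
      omega
    have hL : Lam s p' = 0 := by
      have h1 := congrArg PowerSeries.constantCoeff hG1'
      rw [map_mul, map_mul, map_mul, h0, mul_one, map_pow] at h1
      simp only [PowerSeries.constantCoeff_X] at h1
      rw [zero_pow (by omega), mul_zero, zero_mul] at h1
      have h2 : PowerSeries.constantCoeff (Gen s p') = Lam s p' := by
        rw [← PowerSeries.coeff_zero_eq_constantCoeff_apply]
        simp [Gen]
      rw [← h2]
      exact h1
    refine ⟨p', q', k * c (2 * l + 1), k * c (2 * l + 1) * c (2 * l + 2), hp'm, hp'd, hq'm, hq'd,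
      hk', mul_pos hk' (hc _), hG1', ?_⟩
    apply PS_X_cancel
    have h1 : (X * q' : ℝ[X]) = X * p' - C (k * c (2 * l + 1) / k) * (X * q) := by
      rw [hq']; ring
    rw [h1, Gen_sub, Gen_C_mul, sub_mul, mul_sub, mul_assoc (PowerSeries.C _), hG2, ← mul_assoc,
      X_mul_Gen, hL, map_zero, sub_zero, hG1']
    have h2 := hrec (2 * l + 2)
    have e1 : 2 * l + 2 + 1 = 2 * (l + 1) + 1 := by ring
    have e2 : 2 * l + 2 + 2 = 2 * (l + 1) + 2 := by ring
    rw [e1, e2] at h2
    have h3 : (PowerSeries.C (k * c (2 * l + 1) / k) * PowerSeries.C k : PowerSeries ℝ) =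
        PowerSeries.C (k * c (2 * l + 1)) := by
      rw [← map_mul, div_mul_cancel₀ _ hk.ne']
    rw [h2, map_mul _ (k * c (2 * l + 1)) (c (2 * l + 2))]
    linear_combination (-(PowerSeries.X ^ (l + 1) * (R (2 * (l + 1) + 1) -
      PowerSeries.C (c (2 * l + 2)) * PowerSeries.X * R (2 * (l + 1) + 2)))) * h3

theorem coeff_of_mul_R0 {g T R0 : PowerSeries ℝ} {h : ℝ} {l : ℕ}
    (h0 : PowerSeries.constantCoeff R0 = 1) (hT : PowerSeries.constantCoeff T = 1)
    (hg : g * R0 = PowerSeries.C h * PowerSeries.X ^ l * T) :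
    (∀ j < l, PowerSeries.coeff j g = 0) ∧ PowerSeries.coeff l g = h := by
  have hu : IsUnit R0 := by
    rw [PowerSeries.isUnit_iff_constantCoeff, h0]; exact isUnit_one
  obtain ⟨u, hu⟩ := hu
  have hu' : PowerSeries.constantCoeff ((u⁻¹ : (PowerSeries ℝ)ˣ) : PowerSeries ℝ) = 1 := by
    have h1 : (R0 * ((u⁻¹ : (PowerSeries ℝ)ˣ) : PowerSeries ℝ) : PowerSeries ℝ) = 1 := by rw [← hu]; simp
    have h2 := congrArg PowerSeries.constantCoeff h1
    rw [map_mul, h0, one_mul, map_one] at h2
    exact h2
  have h1 : g = PowerSeries.X ^ l * (PowerSeries.C h * T * ((u⁻¹ : (PowerSeries ℝ)ˣ) : PowerSeries ℝ)) := by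
    have h2 : g * R0 * ((u⁻¹ : (PowerSeries ℝ)ˣ) : PowerSeries ℝ) = g := by
      rw [← hu, mul_assoc, Units.mul_inv, mul_one]
    rw [← h2, hg]; ring
  constructor
  · intro j hj
    rw [h1, PowerSeries.coeff_X_pow_mul', if_neg (by omega)]
  · rw [h1, PowerSeries.coeff_X_pow_mul', if_pos le_rfl, Nat.sub_self,
      PowerSeries.coeff_zero_eq_constantCoeff_apply, map_mul, map_mul, hT, hu']
    simp

theorem lam_pos (hc : ∀ i, 0 < c i) (h0 : ∀ i, PowerSeries.constantCoeff (R i) = 1)
    (hrec : ∀ i, R i = R (i + 1) - PowerSeries.C (c i) * PowerSeries.X * R (i + 2))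
    (hs : s * R 0 = R 1) (q : ℝ[X]) (hq : q ≠ 0) : 0 < Lam s (q * q) := by
  refine pos_of_orth (Lam s) (fun l => ?_) q hq
  obtain ⟨p, _, h, _, hp, hpd, _, _, hh, _, hG1, _⟩ := chain R c s hc h0 hrec hs l
  obtain ⟨h1, h2⟩ := coeff_of_mul_R0 (h0 0) (h0 _) hG1
  refine ⟨p, hp, hpd, fun j hj => ?_, ?_⟩
  · have := h1 j hj
    simpa [Gen] using this
  · have : Lam s (X ^ l * p) = h := by simpa [Gen] using h2
    rw [this]; exact hh

theorem lam_X_pos (hc : ∀ i, 0 < c i) (h0 : ∀ i, PowerSeries.constantCoeff (R i) = 1)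
    (hrec : ∀ i, R i = R (i + 1) - PowerSeries.C (c i) * PowerSeries.X * R (i + 2))
    (hs : s * R 0 = R 1) (q : ℝ[X]) (hq : q ≠ 0) : 0 < Lam s (X * (q * q)) := by
  have := pos_of_orth ((Lam s).comp (LinearMap.mulLeft ℝ X)) (fun l => ?_) q hq
  · simpa using this
  obtain ⟨_, p, _, h, _, _, hp, hpd, _, hh, _, hG1⟩ := chain R c s hc h0 hrec hs l
  obtain ⟨h1, h2⟩ := coeff_of_mul_R0 (h0 0) (h0 _) hG1
  refine ⟨p, hp, hpd, fun j hj => ?_, ?_⟩
  · have := h1 j hj
    simp only [Gen, PowerSeries.coeff_mk] at this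
    simp only [LinearMap.comp_apply, LinearMap.mulLeft_apply]
    rw [← this]
    congr 1
    ring
  · have h3 : Lam s (X ^ l * (X * p)) = h := by simpa [Gen] using h2
    simp only [LinearMap.comp_apply, LinearMap.mulLeft_apply]
    have e : (X * (X ^ l * p) : ℝ[X]) = X ^ l * (X * p) := by ring
    rw [e, h3]; exact hh

/-- `Λ (X^i q²) ≥ 0` for all `i`, strict for `q ≠ 0`. -/
theorem lam_X_pow_pos (hc : ∀ i, 0 < c i) (h0 : ∀ i, PowerSeries.constantCoeff (R i) = 1)
    (hrec : ∀ i, R i = R (i + 1) - PowerSeries.C (c i) * PowerSeries.X * R (i + 2))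
    (hs : s * R 0 = R 1) (q : ℝ[X]) (hq : q ≠ 0) (i : ℕ) : 0 < Lam s (X ^ i * (q * q)) := by
  rcases Nat.even_or_odd' i with ⟨m, hm | hm⟩
  · have e : (X ^ i * (q * q) : ℝ[X]) = (X ^ m * q) * (X ^ m * q) := by rw [hm]; ring
    rw [e]
    exact lam_pos R c s hc h0 hrec hs _ (mul_ne_zero (pow_ne_zero _ X_ne_zero) hq)
  · have e : (X ^ i * (q * q) : ℝ[X]) = X * ((X ^ m * q) * (X ^ m * q)) := by rw [hm]; ring
    rw [e]
    exact lam_X_pos R c s hc h0 hrec hs _ (mul_ne_zero (pow_ne_zero _ X_ne_zero) hq)

end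

end Pool.Agent.Helper68_Zeros
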