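import Mathlib
import Pool.Agent.Helper68_Zeros.SFrac

/-!
Gauss hypergeometric power series, contiguous relations, and the two Stieltjes continued fractions
used for complete elliptic integrals.
-/

set_option autoImplicit false

namespace Pool.Agent.Helper68_Zeros

open Polynomial

/-- rising factorial `a (a+1) ... (a+n-1)` -/
noncomputable def poch (a : ℝ) (n : ℕ) : ℝ := ∏ i ∈ Finset.range n, (a + i)

theorem poch_zero (a : ℝ) : poch a 0 = 1 := by simp [poch]

theorem poch_succ (a : ℝ) (n : ℕ) : poch a (n + 1) = poch a n * (a + n) := by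
  simp [poch, Finset.prod_range_succ]

theorem poch_succ' (a : ℝ) (n : ℕ) : poch a (n + 1) = a * poch (a + 1) n := by
  rw [poch, Finset.prod_range_succ', poch]
  simp only [Nat.cast_zero, add_zero, Nat.cast_add, Nat.cast_one]
  rw [mul_comm]
  congr 1
  apply Finset.prod_congr rfl
  intro i _
  ring

theorem poch_pos {a : ℝ} (ha : 0 < a) (n : ℕ) : 0 < poch a n := by
  apply Finset.prod_pos
  intro i _
  positivity

/-- the hypergeometric series `F(a,b;c)` -/
noncomputable def F21 (a b c : ℝ) : PowerSeries ℝ :=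
  PowerSeries.mk (fun n => poch a n * poch b n / (poch c n * poch 1 n))

theorem F21_congr {a a' b b' c c' : ℝ} (ha : a = a') (hb : b = b') (hc : c = c') :
    F21 a b c = F21 a' b' c' := by rw [ha, hb, hc]

theorem F21_comm (a b c : ℝ) : F21 a b c = F21 b a c := by
  ext n; simp only [F21, PowerSeries.coeff_mk]; rw [mul_comm (poch a n)]

theorem F21_const (a b c : ℝ) : PowerSeries.constantCoeff (F21 a b c) = 1 := by
  rw [← PowerSeries.coeff_zero_eq_constantCoeff_apply]
  simp [F21, poch_zero]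

/-- Gauss' contiguous relation. -/
theorem gauss_rel (a b c : ℝ) (hc : 0 < c) :
    F21 a b c = F21 a (b + 1) (c + 1) -
      PowerSeries.C (a * (c - b) / (c * (c + 1))) * PowerSeries.X * F21 (a + 1) (b + 1) (c + 2) := by
  ext n
  rw [map_sub, mul_assoc, PowerSeries.coeff_C_mul]
  cases n with
  | zero => simp [F21, poch_zero]
  | succ m =>
    rw [mul_comm PowerSeries.X, PowerSeries.coeff_succ_mul_X]
    simp only [F21, PowerSeries.coeff_mk]
    have e1 : poch a (m + 1) = a * poch (a + 1) m := poch_succ' a m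
    have e2 : poch b (m + 1) = b * poch (b + 1) m := poch_succ' b m
    have e3 : poch (b + 1) (m + 1) = poch (b + 1) m * (b + 1 + m) := poch_succ (b + 1) m
    have e4 : poch (c + 1) (m + 1) = (c + 1) * poch (c + 2) m := by
      rw [poch_succ' (c + 1) m]; congr 2; ring
    have e5 : poch c (m + 1) * (c + 1 + m) = c * ((c + 1) * poch (c + 2) m) := by
      rw [← e4, poch_succ' c m, poch_succ (c + 1) m]; ring
    have e6 : poch 1 (m + 1) = poch 1 m * (1 + m) := poch_succ 1 m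
    have hc1 : 0 < poch c (m + 1) := poch_pos hc _
    have hc2 : 0 < poch (c + 2) m := poch_pos (by linarith) _
    have hm : 0 < poch (1 : ℝ) m := poch_pos one_pos _
    have hm2 : (0 : ℝ) < 1 + m := by positivity
    have hcm : (0 : ℝ) < c + 1 + m := by positivity
    have e7 : poch c (m + 1) = c * ((c + 1) * poch (c + 2) m) / (c + 1 + m) := by
      rw [← e5]; field_simp
    rw [e1, e2, e3, e4, e6, e7]
    field_simp
    ring

/-- contiguous relation in `a` -/
theorem contig_a (a b c : ℝ) (hc : 0 < c) :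
    F21 a b c = F21 (a + 1) b c -
      PowerSeries.C (b / c) * PowerSeries.X * F21 (a + 1) (b + 1) (c + 1) := by
  ext n
  rw [map_sub, mul_assoc, PowerSeries.coeff_C_mul]
  cases n with
  | zero => simp [F21, poch_zero]
  | succ m =>
    rw [mul_comm PowerSeries.X, PowerSeries.coeff_succ_mul_X]
    simp only [F21, PowerSeries.coeff_mk]
    have e1 : poch a (m + 1) = a * poch (a + 1) m := poch_succ' a m
    have e2 : poch b (m + 1) = b * poch (b + 1) m := poch_succ' b m
    have e3 : poch (a + 1) (m + 1) = poch (a + 1) m * (a + 1 + m) := poch_succ (a + 1) m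
    have e4 : poch c (m + 1) = c * poch (c + 1) m := poch_succ' c m
    have e6 : poch 1 (m + 1) = poch 1 m * (1 + m) := poch_succ 1 m
    have hc2 : 0 < poch (c + 1) m := poch_pos (by linarith) _
    have hm : 0 < poch (1 : ℝ) m := poch_pos one_pos _
    have hm2 : (0 : ℝ) < 1 + m := by positivity
    rw [e1, e2, e3, e4, e6]
    field_simp
    ring

/-- contiguous relation in `c` -/
theorem contig_c (a b c : ℝ) (hc : 0 < c) :
    F21 a b c = F21 a b (c + 1) +
      PowerSeries.C (a * b / (c * (c + 1))) * PowerSeries.X * F21 (a + 1) (b + 1) (c + 2) := by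
  ext n
  rw [map_add, mul_assoc, PowerSeries.coeff_C_mul]
  cases n with
  | zero => simp [F21, poch_zero]
  | succ m =>
    rw [mul_comm PowerSeries.X, PowerSeries.coeff_succ_mul_X]
    simp only [F21, PowerSeries.coeff_mk]
    have e1 : poch a (m + 1) = a * poch (a + 1) m := poch_succ' a m
    have e2 : poch b (m + 1) = b * poch (b + 1) m := poch_succ' b m
    have e4 : poch (c + 1) (m + 1) = (c + 1) * poch (c + 2) m := by
      rw [poch_succ' (c + 1) m]; congr 2; ring
    have e5 : poch c (m + 1) * (c + 1 + m) = c * ((c + 1) * poch (c + 2) m) := by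
      rw [← e4, poch_succ' c m, poch_succ (c + 1) m]; ring
    have e6 : poch 1 (m + 1) = poch 1 m * (1 + m) := poch_succ 1 m
    have hc1 : 0 < poch c (m + 1) := poch_pos hc _
    have hc2 : 0 < poch (c + 2) m := poch_pos (by linarith) _
    have hm : 0 < poch (1 : ℝ) m := poch_pos one_pos _
    have hm2 : (0 : ℝ) < 1 + m := by positivity
    have hcm : (0 : ℝ) < c + 1 + m := by positivity
    have e7 : poch c (m + 1) = c * ((c + 1) * poch (c + 2) m) / (c + 1 + m) := by
      rw [← e5]; field_simp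
    rw [e1, e2, e4, e6, e7]
    field_simp
    ring

/-- `R0 = F(1/2,1/2;1)`: the complete elliptic integral `K` (up to `2/π`). -/
noncomputable def R0 : PowerSeries ℝ := F21 (1 / 2) (1 / 2) 1

/-- `S0 = X * F(1/2,1/2;2)`, the primitive of `R0`. -/
noncomputable def S0 : PowerSeries ℝ := PowerSeries.X * F21 (1 / 2) (1 / 2) 2

/-- `T0 = X * F(3/2,3/2;2)` -/
noncomputable def T0 : PowerSeries ℝ := PowerSeries.X * F21 (3 / 2) (3 / 2) 2

/-- Euler transformation `S0 = (1 - X) T0`. -/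
theorem S0_eq : S0 = (1 - PowerSeries.X) * T0 := by
  rw [S0, T0]
  have key : F21 (1 / 2) (1 / 2) 2 = (1 - PowerSeries.X) * F21 (3 / 2) (3 / 2) 2 := by
    ext n
    rw [sub_mul, one_mul, map_sub]
    cases n with
    | zero => simp [F21, poch_zero]
    | succ m =>
      rw [mul_comm PowerSeries.X, PowerSeries.coeff_succ_mul_X]
      simp only [F21, PowerSeries.coeff_mk]
      have e1 : poch (1 / 2) (m + 1) = 1 / 2 * poch (3 / 2) m := by
        rw [poch_succ']; norm_num
      have e2 : poch (3 / 2) (m + 1) = poch (3 / 2) m * (3 / 2 + m) := poch_succ _ _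
      have e3 : poch 2 (m + 1) = poch 2 m * (2 + m) := poch_succ _ _
      have e4 : poch 1 (m + 1) = poch 1 m * (1 + m) := poch_succ _ _
      have h1 : 0 < poch (2 : ℝ) m := poch_pos (by norm_num) _
      have h2 : 0 < poch (1 : ℝ) m := poch_pos (by norm_num) _
      have h3 : (0 : ℝ) < 2 + m := by positivity
      have h4 : (0 : ℝ) < 1 + m := by positivity
      rw [e1, e2, e3, e4]
      field_simp
      ring
  rw [key]; ring

/-- The first chain: `F(1/2,1/2;1), F(3/2,1/2;1), F(3/2,3/2;2), F(5/2,3/2;3), ...` -/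
noncomputable def RA (i : ℕ) : PowerSeries ℝ :=
  if i = 0 then R0 else
    if i % 2 = 0 then F21 ((i / 2 : ℕ) + 1 / 2) ((i / 2 : ℕ) + 1 / 2) (2 * (i / 2 : ℕ))
    else F21 ((i / 2 : ℕ) + 3 / 2) ((i / 2 : ℕ) + 1 / 2) (2 * (i / 2 : ℕ) + 1)

theorem RA_zero : RA 0 = R0 := by simp [RA]

theorem RA_odd (j : ℕ) : RA (2 * j + 1) = F21 (j + 3 / 2) (j + 1 / 2) (2 * j + 1) := by
  rw [RA, if_neg (by omega), if_neg (by omega)]
  have : (2 * j + 1) / 2 = j := by omega
  rw [this]

theorem RA_even (j : ℕ) : RA (2 * j + 2) =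
    F21 (j + 3 / 2) (j + 3 / 2) (2 * j + 2) := by
  rw [RA, if_neg (by omega), if_pos (by omega)]
  have : (2 * j + 2) / 2 = j + 1 := by omega
  rw [this]
  push_cast
  congr 1 <;> ring

/-- coefficients of the first chain -/
noncomputable def cA (i : ℕ) : ℝ :=
  if i = 0 then 1 / 2 else
    if i % 2 = 0 then
      (((i / 2 : ℕ) : ℝ) + 1 / 2) * (((i / 2 : ℕ) : ℝ) - 1 / 2) /
        (2 * ((i / 2 : ℕ) : ℝ) * (2 * ((i / 2 : ℕ) : ℝ) + 1))
    else (((i / 2 : ℕ) : ℝ) + 3 / 2) * (((i / 2 : ℕ) : ℝ) + 1 / 2) /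
        ((2 * ((i / 2 : ℕ) : ℝ) + 1) * (2 * ((i / 2 : ℕ) : ℝ) + 2))

theorem cA_pos (i : ℕ) : 0 < cA i := by
  rw [cA]
  split_ifs with h1 h2
  · norm_num
  · have h3 : 1 ≤ i / 2 := by omega
    have h4 : (1 : ℝ) ≤ ((i / 2 : ℕ) : ℝ) := by exact_mod_cast h3
    apply div_pos
    · apply mul_pos <;> linarith
    · positivity
  · positivity

theorem RA_const (i : ℕ) : PowerSeries.constantCoeff (RA i) = 1 := by
  rw [RA]
  split_ifs
  · exact F21_const _ _ _
  · exact F21_const _ _ _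
  · exact F21_const _ _ _

theorem RA_rec (i : ℕ) :
    RA i = RA (i + 1) - PowerSeries.C (cA i) * PowerSeries.X * RA (i + 2) := by
  rcases Nat.eq_zero_or_pos i with h0 | hpos
  · subst h0
    have h1 := RA_odd 0
    have h2 := RA_even 0
    simp only [mul_zero, zero_add] at h1 h2
    rw [RA_zero, zero_add, zero_add, h1, h2, R0]
    have h3 := contig_a (1 / 2) (1 / 2) 1 one_pos
    rw [h3]
    simp only [cA]
    norm_num
  · rcases Nat.even_or_odd' i with ⟨m, hm | hm⟩
    · obtain ⟨j, rfl⟩ : ∃ j, m = j + 1 := ⟨m - 1, by omega⟩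
      have hi : i = 2 * j + 2 := by omega
      subst hi
      have e1 : 2 * j + 2 + 1 = 2 * (j + 1) + 1 := by ring
      have e2 : 2 * j + 2 + 2 = 2 * (j + 1) + 2 := by ring
      rw [RA_even, e1, RA_odd, e2, RA_even]
      have h3 := gauss_rel ((j : ℝ) + 3 / 2) (j + 3 / 2) (2 * j + 2) (by positivity)
      have h4 : cA (2 * j + 2) = ((j : ℝ) + 3 / 2) * (2 * j + 2 - (j + 3 / 2)) /
          ((2 * j + 2) * (2 * j + 2 + 1)) := by
        rw [cA, if_neg (by omega), if_pos (by omega)]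
        have : (2 * j + 2) / 2 = j + 1 := by omega
        rw [this]
        push_cast
        congr 1 <;> ring
      have k1 : F21 ((((j + 1 : ℕ)) : ℝ) + 3 / 2) ((((j + 1 : ℕ)) : ℝ) + 1 / 2)
          (2 * (((j + 1 : ℕ)) : ℝ) + 1) = F21 ((j : ℝ) + 3 / 2) (j + 3 / 2 + 1) (2 * j + 2 + 1) := by
        rw [F21_comm]
        exact F21_congr (by push_cast; ring) (by push_cast; ring) (by push_cast; ring)
      have k2 : F21 ((((j + 1 : ℕ)) : ℝ) + 3 / 2) ((((j + 1 : ℕ)) : ℝ) + 3 / 2)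
          (2 * (((j + 1 : ℕ)) : ℝ) + 2) =
          F21 ((j : ℝ) + 3 / 2 + 1) (j + 3 / 2 + 1) (2 * j + 2 + 2) :=
        F21_congr (by push_cast; ring) (by push_cast; ring) (by push_cast; ring)
      rw [h4, k1, k2, h3]
    · have hi : i = 2 * m + 1 := hm
      subst hi
      have e1 : 2 * m + 1 + 1 = 2 * m + 2 := by ring
      have e2 : 2 * m + 1 + 2 = 2 * (m + 1) + 1 := by ring
      rw [RA_odd, e1, RA_even, e2, RA_odd]
      have h3 := gauss_rel ((m : ℝ) + 3 / 2) (m + 1 / 2) (2 * m + 1) (by positivity)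
      have h4 : cA (2 * m + 1) = ((m : ℝ) + 3 / 2) * (2 * m + 1 - (m + 1 / 2)) /
          ((2 * m + 1) * (2 * m + 1 + 1)) := by
        rw [cA, if_neg (by omega), if_neg (by omega)]
        have : (2 * m + 1) / 2 = m := by omega
        rw [this]
        congr 1 <;> ring
      have k1 : F21 ((m : ℝ) + 3 / 2) (m + 3 / 2) (2 * m + 2) =
          F21 ((m : ℝ) + 3 / 2) (m + 1 / 2 + 1) (2 * m + 1 + 1) :=
        F21_congr (by ring) (by ring) (by ring)
      have k2 : F21 ((((m + 1 : ℕ)) : ℝ) + 3 / 2) ((((m + 1 : ℕ)) : ℝ) + 1 / 2)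
          (2 * (((m + 1 : ℕ)) : ℝ) + 1) =
          F21 ((m : ℝ) + 3 / 2 + 1) (m + 1 / 2 + 1) (2 * m + 1 + 2) :=
        F21_congr (by push_cast; ring) (by push_cast; ring) (by push_cast; ring)
      rw [h4, k1, k2, h3]

/-- The second chain: `F(1/2,1/2;1), F(1/2,3/2;2), F(3/2,3/2;3), ...` -/
noncomputable def RB (i : ℕ) : PowerSeries ℝ :=
  if i % 2 = 0 then F21 ((i / 2 : ℕ) + 1 / 2) ((i / 2 : ℕ) + 1 / 2) (2 * (i / 2 : ℕ) + 1)
  else F21 ((i / 2 : ℕ) + 1 / 2) ((i / 2 : ℕ) + 3 / 2) (2 * (i / 2 : ℕ) + 2)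

theorem RB_even (j : ℕ) : RB (2 * j) = F21 (j + 1 / 2) (j + 1 / 2) (2 * j + 1) := by
  rw [RB, if_pos (by omega)]
  have : (2 * j) / 2 = j := by omega
  rw [this]

theorem RB_odd (j : ℕ) : RB (2 * j + 1) = F21 (j + 1 / 2) (j + 3 / 2) (2 * j + 2) := by
  rw [RB, if_neg (by omega)]
  have : (2 * j + 1) / 2 = j := by omega
  rw [this]

theorem RB_zero : RB 0 = R0 := by
  have := RB_even 0
  simp only [mul_zero, Nat.cast_zero, zero_add] at this
  rw [this, R0]

/-- coefficients of the second chain -/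
noncomputable def cB (i : ℕ) : ℝ :=
  if i % 2 = 0 then (((i / 2 : ℕ) : ℝ) + 1 / 2) * (((i / 2 : ℕ) : ℝ) + 1 / 2) /
        ((2 * ((i / 2 : ℕ) : ℝ) + 1) * (2 * ((i / 2 : ℕ) : ℝ) + 2))
  else (((i / 2 : ℕ) : ℝ) + 3 / 2) * (((i / 2 : ℕ) : ℝ) + 3 / 2) /
        ((2 * ((i / 2 : ℕ) : ℝ) + 2) * (2 * ((i / 2 : ℕ) : ℝ) + 3))

theorem cB_pos (i : ℕ) : 0 < cB i := by
  rw [cB]; split_ifs <;> positivity

theorem cB_zero : cB 0 = 1 / 8 := by
  simp [cB]; norm_num

theorem RB_const (i : ℕ) : PowerSeries.constantCoeff (RB i) = 1 := by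
  rw [RB]
  split_ifs
  · exact F21_const _ _ _
  · exact F21_const _ _ _

theorem RB_rec (i : ℕ) :
    RB i = RB (i + 1) - PowerSeries.C (cB i) * PowerSeries.X * RB (i + 2) := by
  rcases Nat.even_or_odd' i with ⟨m, hm | hm⟩
  · subst hm
    have e2 : 2 * m + 2 = 2 * (m + 1) := by ring
    rw [RB_even, RB_odd, e2, RB_even]
    have h3 := gauss_rel ((m : ℝ) + 1 / 2) (m + 1 / 2) (2 * m + 1) (by positivity)
    have h4 : cB (2 * m) = ((m : ℝ) + 1 / 2) * (2 * m + 1 - (m + 1 / 2)) /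
        ((2 * m + 1) * (2 * m + 1 + 1)) := by
      rw [cB, if_pos (by omega)]
      have : (2 * m) / 2 = m := by omega
      rw [this]
      congr 1 <;> ring
    have k1 : F21 ((m : ℝ) + 1 / 2) (m + 3 / 2) (2 * m + 2) =
        F21 ((m : ℝ) + 1 / 2) (m + 1 / 2 + 1) (2 * m + 1 + 1) :=
      F21_congr (by ring) (by ring) (by ring)
    have k2 : F21 ((((m + 1 : ℕ)) : ℝ) + 1 / 2) ((((m + 1 : ℕ)) : ℝ) + 1 / 2)
        (2 * (((m + 1 : ℕ)) : ℝ) + 1) =
        F21 ((m : ℝ) + 1 / 2 + 1) (m + 1 / 2 + 1) (2 * m + 1 + 2) :=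
      F21_congr (by push_cast; ring) (by push_cast; ring) (by push_cast; ring)
    rw [h4, k1, k2, h3]
  · subst hm
    have e1 : 2 * m + 1 + 1 = 2 * (m + 1) := by ring
    have e2 : 2 * m + 1 + 2 = 2 * (m + 1) + 1 := by ring
    rw [RB_odd, e1, RB_even, e2, RB_odd]
    have h3 := gauss_rel ((m : ℝ) + 3 / 2) (m + 1 / 2) (2 * m + 2) (by positivity)
    have h4 : cB (2 * m + 1) = ((m : ℝ) + 3 / 2) * (2 * m + 2 - (m + 1 / 2)) /
        ((2 * m + 2) * (2 * m + 2 + 1)) := by
      rw [cB, if_neg (by omega)]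
      have : (2 * m + 1) / 2 = m := by omega
      rw [this]
      congr 1 <;> ring
    have k1 : F21 ((((m + 1 : ℕ)) : ℝ) + 1 / 2) ((((m + 1 : ℕ)) : ℝ) + 1 / 2)
        (2 * (((m + 1 : ℕ)) : ℝ) + 1) =
        F21 ((m : ℝ) + 3 / 2) (m + 1 / 2 + 1) (2 * m + 2 + 1) :=
      F21_congr (by push_cast; ring) (by push_cast; ring) (by push_cast; ring)
    have k2 : F21 ((((m + 1 : ℕ)) : ℝ) + 1 / 2) ((((m + 1 : ℕ)) : ℝ) + 3 / 2)
        (2 * (((m + 1 : ℕ)) : ℝ) + 2) =
        F21 ((m : ℝ) + 3 / 2 + 1) (m + 1 / 2 + 1) (2 * m + 2 + 2) := by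
      rw [F21_comm]
      exact F21_congr (by push_cast; ring) (by push_cast; ring) (by push_cast; ring)
    rw [h4, F21_comm ((m : ℝ) + 1 / 2) (m + 3 / 2), k1, k2, h3]

end Pool.Agent.Helper68_Zeros
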