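import Mathlib
import Pool.Agent.Helper68_Zeros.Hyper
import Pool.Agent.Helper68_Zeros.Ev

/-!
Zero counting for combinations `A R0 + B T0` and `A R0 + B S0`.
-/

set_option autoImplicit false

namespace Pool.Agent.Helper68_Zeros

open Polynomial

theorem R0_const : PowerSeries.constantCoeff R0 = 1 := F21_const _ _ _

theorem R0_inv : R0 * R0⁻¹ = 1 := PowerSeries.mul_inv_cancel _ (by rw [R0_const]; norm_num)

/-- `F(3/2,1/2;1)/F(1/2,1/2;1)` -/
noncomputable def sA : PowerSeries ℝ := RA 1 * R0⁻¹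
/-- `F(1/2,3/2;2)/F(1/2,1/2;1)` -/
noncomputable def sB : PowerSeries ℝ := RB 1 * R0⁻¹
/-- `T0/R0` -/
noncomputable def tauA : PowerSeries ℝ := T0 * R0⁻¹
/-- `S0/R0` -/
noncomputable def tauB : PowerSeries ℝ := S0 * R0⁻¹

theorem sA_mul : sA * RA 0 = RA 1 := by
  rw [sA, RA_zero, mul_assoc, mul_comm _ R0, R0_inv, mul_one]

theorem sB_mul : sB * RB 0 = RB 1 := by
  rw [sB, RB_zero, mul_assoc, mul_comm _ R0, R0_inv, mul_one]

theorem tauA_mul : tauA * R0 = T0 := by
  rw [tauA, mul_assoc, mul_comm _ R0, R0_inv, mul_one]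

theorem tauB_mul : tauB * R0 = S0 := by
  rw [tauB, mul_assoc, mul_comm _ R0, R0_inv, mul_one]

theorem tauB_eq : tauB = (1 - PowerSeries.X) * tauA := by
  rw [tauB, tauA, S0_eq, mul_assoc]

theorem T0_eq_RA : T0 = PowerSeries.X * RA 2 := by
  have := RA_even 0
  simp only [mul_zero, zero_add, Nat.cast_zero] at this
  rw [T0, this]

theorem tauA_eq : tauA = PowerSeries.C 2 * (sA - 1) := by
  have h1 := RA_rec 0
  have hc : cA 0 = 1 / 2 := by simp [cA]
  rw [hc, zero_add, zero_add, RA_zero] at h1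
  have h2 : T0 = PowerSeries.C 2 * (RA 1 - R0) := by
    have h3 : (PowerSeries.C (2 : ℝ) * PowerSeries.C (1 / 2 : ℝ) : PowerSeries ℝ) = 1 := by
      rw [← map_mul]; norm_num
    rw [T0_eq_RA]
    have h4 : RA 1 - R0 = PowerSeries.C (1 / 2) * PowerSeries.X * RA 2 := by
      linear_combination -h1
    rw [h4]
    linear_combination (-(PowerSeries.X * RA 2)) * h3
  rw [tauA, h2, sA, mul_assoc, sub_mul, R0_inv]

theorem tauB_eq2 : tauB = PowerSeries.X * (2 - sB) := by
  have h1 := RB_rec 0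
  rw [cB_zero, zero_add, zero_add, RB_zero] at h1
  have h2 := contig_c (1 / 2) (1 / 2) 1 one_pos
  have h3 : RB 2 = F21 (1 / 2 + 1) (1 / 2 + 1) (1 + 2) := by
    have := RB_even 1
    simp only [mul_one, Nat.cast_one] at this
    rw [this]
    exact F21_congr (by norm_num) (by norm_num) (by norm_num)
  rw [← h3] at h2
  have h4 : F21 (1 / 2) (1 / 2) 2 = R0 - PowerSeries.C (1 / 8) * PowerSeries.X * RB 2 := by
    have e : F21 (1 / 2) (1 / 2) (1 + 1) = F21 (1 / 2) (1 / 2) 2 :=
      F21_congr rfl rfl (by norm_num)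
    rw [e] at h2
    have e2 : (1 / 2 * (1 / 2) / (1 * (1 + 1)) : ℝ) = 1 / 8 := by norm_num
    rw [e2] at h2
    rw [R0]
    linear_combination -h2
  have h5 : F21 (1 / 2) (1 / 2) 2 = 2 * R0 - RB 1 := by
    rw [h4]; linear_combination -h1
  rw [tauB, S0, h5, sB, mul_assoc, sub_mul, mul_assoc, R0_inv]
  ring

theorem coeff_tauA (j : ℕ) (hj : 1 ≤ j) : PowerSeries.coeff j tauA = 2 * Lam sA (X ^ j) := by
  rw [tauA_eq, PowerSeries.coeff_C_mul, map_sub, Lam_X_pow, PowerSeries.coeff_one,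
    if_neg (by omega), sub_zero]

theorem coeff_tauB (j : ℕ) (hj : 2 ≤ j) :
    PowerSeries.coeff j tauB = -Lam sB (X ^ (j - 1)) := by
  obtain ⟨m, rfl⟩ : ∃ m, j = m + 1 := ⟨j - 1, by omega⟩
  rw [tauB_eq2, mul_comm, PowerSeries.coeff_succ_mul_X, map_sub, Lam_X_pow, Nat.add_sub_cancel]
  have : PowerSeries.coeff m (2 : PowerSeries ℝ) = 0 := by
    have h1 : (2 : PowerSeries ℝ) = PowerSeries.C (2 : ℝ) := (map_ofNat PowerSeries.C 2).symm
    rw [h1, PowerSeries.coeff_C, if_neg (by omega)]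
  rw [this, zero_sub]

theorem lamA_pos (q : ℝ[X]) (hq : q ≠ 0) (i : ℕ) : 0 < Lam sA (X ^ i * (q * q)) :=
  lam_X_pow_pos RA cA sA cA_pos RA_const RA_rec sA_mul q hq i

theorem lamB_pos (q : ℝ[X]) (hq : q ≠ 0) (i : ℕ) : 0 < Lam sB (X ^ i * (q * q)) :=
  lam_X_pow_pos RB cB sB cB_pos RB_const RB_rec sB_mul q hq i

theorem lamA_pow_pos (i : ℕ) : 0 < Lam sA (X ^ i) := by
  have := lamA_pos 1 one_ne_zero i
  simpa using this

theorem lamB_pow_pos (i : ℕ) : 0 < Lam sB (X ^ i) := by
  have := lamB_pos 1 one_ne_zero i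
  simpa using this

theorem coeff_tauA_zero : PowerSeries.coeff 0 tauA = 0 := by
  rw [tauA_eq, PowerSeries.coeff_C_mul, map_sub]
  have h1 : PowerSeries.coeff 0 sA = 1 := by
    rw [PowerSeries.coeff_zero_eq_constantCoeff_apply]
    have h3 := congrArg PowerSeries.constantCoeff sA_mul
    rw [map_mul, RA_const, RA_const, mul_one] at h3
    exact h3
  rw [h1]; simp

/-- coefficients of `tauA` are decreasing -/
theorem coeff_tauA_le (j : ℕ) : PowerSeries.coeff (j + 1) tauA ≤ 1 := by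
  induction j with
  | zero =>
    have h1 : PowerSeries.coeff 1 tauB = PowerSeries.coeff 1 tauA - PowerSeries.coeff 0 tauA := by
      rw [tauB_eq, sub_mul, one_mul, map_sub, mul_comm PowerSeries.X,
        PowerSeries.coeff_succ_mul_X]
    have h2 : PowerSeries.coeff 1 tauB = 1 := by
      rw [tauB_eq2, mul_comm, PowerSeries.coeff_succ_mul_X, map_sub]
      have h3 := congrArg PowerSeries.constantCoeff sB_mul
      rw [map_mul, RB_const, RB_const, mul_one] at h3
      rw [PowerSeries.coeff_zero_eq_constantCoeff_apply,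
        PowerSeries.coeff_zero_eq_constantCoeff_apply, h3]
      have h4 : PowerSeries.constantCoeff (2 : PowerSeries ℝ) = 2 :=
        map_ofNat PowerSeries.constantCoeff 2
      rw [h4]; norm_num
    rw [coeff_tauA_zero, h2, sub_zero] at h1
    rw [zero_add, ← h1]
  | succ j ih =>
    have h1 : PowerSeries.coeff (j + 1 + 1) tauB =
        PowerSeries.coeff (j + 1 + 1) tauA - PowerSeries.coeff (j + 1) tauA := by
      rw [tauB_eq, sub_mul, one_mul, map_sub, mul_comm PowerSeries.X,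
        PowerSeries.coeff_succ_mul_X]
    rw [coeff_tauB _ (by omega)] at h1
    have h2 := lamB_pow_pos (j + 1 + 1 - 1)
    linarith

theorem good_tauA : Good tauA := by
  refine good_of_bdd 1 (fun n => ?_)
  cases n with
  | zero => rw [coeff_tauA_zero]; simp
  | succ n =>
    have h1 := coeff_tauA_le n
    have h2 := coeff_tauA (n + 1) (by omega)
    have h3 := lamA_pow_pos (n + 1)
    rw [abs_of_nonneg (by rw [h2]; linarith)]
    exact h1

theorem good_one_sub_X : Good (1 - PowerSeries.X : PowerSeries ℝ) := by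
  have := good_coe (1 - Polynomial.X)
  simpa using this

theorem ev_one_sub_X (w : ℝ) : ev (1 - PowerSeries.X) w = 1 - w := by
  have := ev_coe (1 - Polynomial.X) w
  simpa using this

theorem good_tauB : Good tauB := by
  rw [tauB_eq]; exact good_one_sub_X.mul good_tauA

theorem coeff_R0 (n : ℕ) : PowerSeries.coeff n R0 = (poch (1 / 2) n / poch 1 n) ^ 2 := by
  simp only [R0, F21, PowerSeries.coeff_mk]
  rw [div_pow]; ring

theorem coeff_R0_nonneg (n : ℕ) : 0 ≤ PowerSeries.coeff n R0 := by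
  rw [coeff_R0]; positivity

theorem good_R0 : Good R0 := by
  refine good_of_bdd 1 (fun n => ?_)
  rw [abs_of_nonneg (coeff_R0_nonneg n), coeff_R0]
  have h1 : poch (1 / 2) n ≤ poch 1 n := by
    apply Finset.prod_le_prod
    · intro i _; positivity
    · intro i _; linarith
  have h2 : 0 < poch (1 : ℝ) n := poch_pos one_pos n
  have h3 : 0 < poch (1 / 2 : ℝ) n := poch_pos (by norm_num) n
  have h4 : poch (1 / 2) n / poch 1 n ≤ 1 := by rw [div_le_one h2]; exact h1
  have h5 : 0 ≤ poch (1 / 2) n / poch 1 n := by positivity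
  nlinarith

theorem good_T0 : Good T0 := by rw [← tauA_mul]; exact good_tauA.mul good_R0
theorem good_S0 : Good S0 := by rw [← tauB_mul]; exact good_tauB.mul good_R0

theorem ev_R0_pos {w : ℝ} (hw0 : 0 ≤ w) (hw1 : w < 1) : 0 < ev R0 w := by
  have := ev_dpsN_pos good_R0 0 (fun N _ => coeff_R0_nonneg N) (by
    rw [PowerSeries.coeff_zero_eq_constantCoeff_apply, R0_const]; norm_num) hw0 hw1
  simpa [dpsN] using this

theorem ev_S0 {w : ℝ} (hw : |w| < 1) : ev S0 w = (1 - w) * ev T0 w := by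
  rw [S0_eq, ev_mul good_one_sub_X good_T0 hw, ev_one_sub_X]

/-- coefficients of polynomial times series -/
theorem coeff_poly_mul (s τ : PowerSeries ℝ) (σ : ℝ) (b0 e : ℕ) (he : e ≤ b0)
    (hτ : ∀ b ≥ b0, PowerSeries.coeff b τ = σ * Lam s (X ^ (b - e))) (D : ℝ[X]) (d : ℕ)
    (hD : D.natDegree ≤ d) (N : ℕ) (hN : d + b0 ≤ N) :
    PowerSeries.coeff N ((D : PowerSeries ℝ) * τ) =
      σ * Lam s (X ^ (N - d - e) * D.reflect d) := by
  rw [PowerSeries.coeff_mul, Finset.Nat.sum_antidiagonal_eq_sum_range_succ_mk]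
  have h1 : ∑ k ∈ Finset.range N.succ, PowerSeries.coeff (k, N - k).1 (D : PowerSeries ℝ) *
      PowerSeries.coeff (k, N - k).2 τ =
      ∑ k ∈ Finset.range (d + 1), D.coeff k * PowerSeries.coeff (N - k) τ := by
    symm
    apply Finset.sum_subset_zero_on_sdiff
    · intro k hk
      rw [Finset.mem_range] at hk ⊢
      omega
    · intro k hk
      rw [Finset.mem_sdiff, Finset.mem_range, Finset.mem_range] at hk
      simp only [Polynomial.coeff_coe]
      rw [Polynomial.coeff_eq_zero_of_natDegree_lt (by omega), zero_mul]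
    · intro k _
      simp only [Polynomial.coeff_coe]
  rw [h1]
  have h2 : D.reflect d = ∑ k ∈ Finset.range (d + 1), C (D.coeff k) * X ^ (d - k) := by
    ext i
    rw [Polynomial.coeff_reflect, Polynomial.finsetSum_coeff]
    simp only [Polynomial.coeff_C_mul, Polynomial.coeff_X_pow]
    rcases Nat.lt_or_ge d i with hi | hi
    · rw [Polynomial.revAt_eq_self_of_lt hi, Polynomial.coeff_eq_zero_of_natDegree_lt (by omega)]
      symm
      apply Finset.sum_eq_zero
      intro k hk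
      rw [if_neg (by omega), mul_zero]
    · rw [Polynomial.revAt_le hi]
      rw [Finset.sum_eq_single (d - i)]
      · rw [if_pos (by omega), mul_one]
      · intro k hk hne
        rw [Finset.mem_range] at hk
        rw [if_neg (by omega), mul_zero]
      · intro hni
        exact absurd (Finset.mem_range.mpr (by omega)) hni
  rw [h2, Finset.mul_sum, map_sum, Finset.mul_sum]
  apply Finset.sum_congr rfl
  intro k hk
  rw [Finset.mem_range] at hk
  rw [hτ (N - k) (by omega)]
  have h3 : (X ^ (N - d - e) * (C (D.coeff k) * X ^ (d - k)) : ℝ[X]) =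
      (D.coeff k) • X ^ (N - k - e) := by
    rw [Polynomial.smul_eq_C_mul]
    have : N - k - e = (N - d - e) + (d - k) := by omega
    rw [this, pow_add]
    ring
  rw [h3, map_smul, smul_eq_mul]
  ring

theorem reflect_ne_zero (B : ℝ[X]) (hB : B ≠ 0) (n : ℕ) : B.reflect n ≠ 0 := by
  intro h
  exact hB (Polynomial.reflect_eq_zero_iff.mp h)

/-- general transfer: zeros of `A R0 + B T` are zeros of `φ`. -/
theorem transfer {T τ : PowerSeries ℝ} (hT : Good T) (hτ : Good τ) (hmul : τ * R0 = T)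
    (A B : ℝ[X]) {w : ℝ} (hw0 : 0 ≤ w) (hw1 : w < 1) :
    let ψ : PowerSeries ℝ := (A : PowerSeries ℝ) * R0 + (B : PowerSeries ℝ) * T
    let φ : PowerSeries ℝ := ((B * A : ℝ[X]) : PowerSeries ℝ) +
      ((B * B : ℝ[X]) : PowerSeries ℝ) * τ
    Good ψ ∧ Good φ ∧ (ev ψ w = 0 → ev φ w = 0) ∧
      (ev ψ w = 0 → ev (dps ψ) w = 0 → ev (dps φ) w = 0) := by
  intro ψ φ
  have hψ : Good ψ := ((good_coe A).mul good_R0).add ((good_coe B).mul hT)
  have hφ : Good φ := (good_coe _).add ((good_coe _).mul hτ)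
  have hid : φ * R0 = (B : PowerSeries ℝ) * ψ := by
    simp only [φ, ψ]
    rw [← hmul]
    simp only [Polynomial.coe_mul]
    ring
  have hev : ∀ z : ℝ, |z| < 1 → ev φ z * ev R0 z = B.eval z * ev ψ z := by
    intro z hz
    rw [← ev_mul hφ good_R0 hz, hid, ev_mul (good_coe B) hψ hz, ev_coe]
  have hw : |w| < 1 := by rw [abs_of_nonneg hw0]; exact hw1
  have hR := ev_R0_pos hw0 hw1
  have h1 : ev ψ w = 0 → ev φ w = 0 := by
    intro h
    have := hev w hw
    rw [h, mul_zero] at this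
    rcases mul_eq_zero.mp this with h2 | h2
    · exact h2
    · exact absurd h2 hR.ne'
  refine ⟨hψ, hφ, h1, fun h h' => ?_⟩
  have hd1 : HasDerivAt (fun z => ev φ z * ev R0 z)
      (ev (dps φ) w * ev R0 w + ev φ w * ev (dps R0) w) w :=
    (hasDerivAt_ev hφ hw).mul (hasDerivAt_ev good_R0 hw)
  have hd2 : HasDerivAt (fun z => B.eval z * ev ψ z)
      ((derivative B).eval w * ev ψ w + B.eval w * ev (dps ψ) w) w :=
    (B.hasDerivAt w).mul (hasDerivAt_ev hψ hw)
  have heq : (fun z => ev φ z * ev R0 z) =ᶠ[nhds w] (fun z => B.eval z * ev ψ z) := by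
    have hmem : Metric.ball (0 : ℝ) 1 ∈ nhds w := by
      apply Metric.isOpen_ball.mem_nhds
      rw [Metric.mem_ball, dist_zero_right, Real.norm_eq_abs]
      exact hw
    filter_upwards [hmem] with z hz
    rw [Metric.mem_ball, dist_zero_right, Real.norm_eq_abs] at hz
    exact hev z hz
  have := (hd1.congr_of_eventuallyEq heq.symm).unique hd2
  rw [h, h', h1 h] at this
  simp only [zero_mul, mul_zero, add_zero] at this
  rcases mul_eq_zero.mp this with h2 | h2
  · exact h2
  · exact absurd h2 hR.ne'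

/-- Counting for `A R0 + B T0`, degrees at most `n`. -/
theorem count_A (n : ℕ) (A B : ℝ[X]) (hA : A.natDegree ≤ n) (hB : B.natDegree ≤ n) (hB0 : B ≠ 0)
    (T : Finset ℝ)
    (hT : ∀ w ∈ T, w ∈ Set.Ico (0 : ℝ) 1 ∧
      ev ((A : PowerSeries ℝ) * R0 + (B : PowerSeries ℝ) * T0) w = 0) :
    T.card ≤ 2 * n + 1 ∧ (T.card = 2 * n + 1 → ∀ w ∈ T,
      ev (dps ((A : PowerSeries ℝ) * R0 + (B : PowerSeries ℝ) * T0)) w ≠ 0) := by
  set φ : PowerSeries ℝ := ((B * A : ℝ[X]) : PowerSeries ℝ) +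
      ((B * B : ℝ[X]) : PowerSeries ℝ) * tauA with hφ
  have hφg : Good φ := (good_coe _).add ((good_coe _).mul good_tauA)
  have hcoef : ∀ N ≥ 2 * n + 1, 0 < PowerSeries.coeff N φ := by
    intro N hN
    have hBB : (B * B).natDegree ≤ 2 * n := by
      refine (Polynomial.natDegree_mul_le).trans ?_
      omega
    have h1 := coeff_poly_mul sA tauA 2 1 0 (by omega)
      (fun b hb => by rw [coeff_tauA b hb, Nat.sub_zero]) (B * B) (2 * n) hBB N hN
    rw [hφ, map_add, h1, Polynomial.coeff_coe, Polynomial.coeff_eq_zero_of_natDegree_lt, zero_add]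
    · have h2 : (B * B).reflect (2 * n) = B.reflect n * B.reflect n := by
        rw [two_mul]
        exact Polynomial.reflect_mul B B hB hB
      rw [h2]
      have := lamA_pos _ (reflect_ne_zero B hB0 n) (N - 2 * n - 0)
      linarith
    · refine lt_of_le_of_lt (Polynomial.natDegree_mul_le) ?_
      omega
  have hcz := count_zeros hφg (2 * n + 1) (fun N hN => (hcoef N hN).le) (hcoef _ le_rfl) T
    (fun w hw => ⟨(hT w hw).1, (transfer good_T0 good_tauA tauA_mul A B (hT w hw).1.1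
      (hT w hw).1.2).2.2.1 (hT w hw).2⟩)
  refine ⟨hcz.1, fun hc w hw hd => ?_⟩
  exact hcz.2 hc w hw ((transfer good_T0 good_tauA tauA_mul A B (hT w hw).1.1
      (hT w hw).1.2).2.2.2 (hT w hw).2 hd)

/-- Counting for `A R0 + B S0`, `deg A ≤ n + 1`, `deg B ≤ n`. -/
theorem count_B (n : ℕ) (A B : ℝ[X]) (hA : A.natDegree ≤ n + 1) (hB : B.natDegree ≤ n)
    (hB0 : B ≠ 0) (T : Finset ℝ)
    (hT : ∀ w ∈ T, w ∈ Set.Ico (0 : ℝ) 1 ∧
      ev ((A : PowerSeries ℝ) * R0 + (B : PowerSeries ℝ) * S0) w = 0) :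
    T.card ≤ 2 * n + 2 ∧ (T.card = 2 * n + 2 → ∀ w ∈ T,
      ev (dps ((A : PowerSeries ℝ) * R0 + (B : PowerSeries ℝ) * S0)) w ≠ 0) := by
  set φ : PowerSeries ℝ := ((B * A : ℝ[X]) : PowerSeries ℝ) +
      ((B * B : ℝ[X]) : PowerSeries ℝ) * tauB with hφ
  have hφg : Good φ := (good_coe _).add ((good_coe _).mul good_tauB)
  set φ' : PowerSeries ℝ := PowerSeries.C (-1) * φ with hφ'
  have hφg' : Good φ' := (good_C _).mul hφg
  have hevφ' : ∀ z : ℝ, |z| < 1 → ev φ' z = - ev φ z := by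
    intro z hz
    rw [hφ', ev_mul (good_C _) hφg hz, ev_C]; ring
  have hdφ' : dps φ' = PowerSeries.C (-1) * dps φ := by
    ext m
    rw [coeff_dps, hφ', PowerSeries.coeff_C_mul, PowerSeries.coeff_C_mul, coeff_dps]
    ring
  have hcoef : ∀ N ≥ 2 * n + 2, 0 < PowerSeries.coeff N φ' := by
    intro N hN
    have hBB : (B * B).natDegree ≤ 2 * n := by
      refine (Polynomial.natDegree_mul_le).trans ?_
      omega
    have h1 := coeff_poly_mul sB tauB (-1) 2 1 (by omega)
      (fun b hb => by rw [coeff_tauB b hb]; ring) (B * B) (2 * n) hBB N hN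
    rw [hφ', PowerSeries.coeff_C_mul, hφ, map_add, h1, Polynomial.coeff_coe,
      Polynomial.coeff_eq_zero_of_natDegree_lt, zero_add]
    · have h2 : (B * B).reflect (2 * n) = B.reflect n * B.reflect n := by
        rw [two_mul]
        exact Polynomial.reflect_mul B B hB hB
      rw [h2]
      have := lamB_pos _ (reflect_ne_zero B hB0 n) (N - 2 * n - 1)
      linarith
    · refine lt_of_le_of_lt (Polynomial.natDegree_mul_le) ?_
      omega
  have habs : ∀ w ∈ T, |w| < 1 := fun w hw => by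
    rw [abs_of_nonneg (hT w hw).1.1]; exact (hT w hw).1.2
  have hcz := count_zeros hφg' (2 * n + 2) (fun N hN => (hcoef N hN).le) (hcoef _ le_rfl) T
    (fun w hw => ⟨(hT w hw).1, by
      rw [hevφ' w (habs w hw), (transfer good_S0 good_tauB tauB_mul A B (hT w hw).1.1
      (hT w hw).1.2).2.2.1 (hT w hw).2, neg_zero]⟩)
  refine ⟨hcz.1, fun hc w hw hd => ?_⟩
  apply hcz.2 hc w hw
  rw [hdφ', ev_mul (good_C _) hφg.dps (habs w hw), (transfer good_S0 good_tauB tauB_mul A B
    (hT w hw).1.1 (hT w hw).1.2).2.2.2 (hT w hw).2 hd, mul_zero]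

end Pool.Agent.Helper68_Zeros
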