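import Mathlib

/-!
The elliptic-type integrals `∫ N(x, sin φ) / √D dφ`.
-/

set_option autoImplicit false

namespace Pool.Agent.Helper68_Zeros

open Real MeasureTheory

/-- `b² - a² s²` with `b = 1 + x/2`, `a = 1 - x/2`. -/
noncomputable def DD (x s : ℝ) : ℝ := (1 + x / 2) ^ 2 - (1 - x / 2) ^ 2 * s ^ 2

theorem DD_ge {x s : ℝ} (hs : s ^ 2 ≤ 1) : 2 * x ≤ DD x s := by
  rw [DD]
  nlinarith [mul_nonneg (sq_nonneg (1 - x / 2)) (sub_nonneg.mpr hs)]

theorem sin_sq_le (φ : ℝ) : sin φ ^ 2 ≤ 1 := sin_sq_le_one φ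

theorem DD_pos {x s : ℝ} (hx : 0 < x) (hs : s ^ 2 ≤ 1) : 0 < DD x s := by
  have := DD_ge (x := x) hs
  linarith

/-- the basic integral -/
noncomputable def II (N : ℝ → ℝ → ℝ) (x : ℝ) : ℝ :=
  ∫ φ in (-(π / 2))..(π / 2), N x (sin φ) / √(DD x (sin φ))

theorem cont_integrand {N : ℝ → ℝ} (hN : Continuous N) {x : ℝ} (hx : 0 < x) :
    Continuous (fun φ => N (sin φ) / √(DD x (sin φ))) := by
  apply Continuous.div
  · exact hN.comp continuous_sin
  · apply Continuous.sqrt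
    unfold DD
    fun_prop
  · intro φ
    have := DD_pos hx (sin_sq_le φ)
    positivity

theorem II_integrable {N : ℝ → ℝ} (hN : Continuous N) {x : ℝ} (hx : 0 < x) :
    IntervalIntegrable (fun φ => N (sin φ) / √(DD x (sin φ))) volume (-(π / 2)) (π / 2) :=
  (cont_integrand hN hx).intervalIntegrable _ _

theorem II_add {N M : ℝ → ℝ → ℝ} {x : ℝ} (hN : Continuous (N x)) (hM : Continuous (M x))
    (hx : 0 < x) : II (fun x s => N x s + M x s) x = II N x + II M x := by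
  rw [II, II, II, ← intervalIntegral.integral_add (II_integrable hN hx) (II_integrable hM hx)]
  congr 1
  ext φ
  rw [add_div]

theorem II_const_mul (c : ℝ) (N : ℝ → ℝ → ℝ) (x : ℝ) :
    II (fun x s => c * N x s) x = c * II N x := by
  rw [II, II, ← intervalIntegral.integral_const_mul]
  congr 1
  ext φ
  rw [mul_div_assoc]

/-- odd integrands integrate to zero -/
theorem II_odd {N : ℝ → ℝ → ℝ} {x : ℝ} (hodd : ∀ s, N x (-s) = -N x s) : II N x = 0 := by
  have h1 : II N x = -II N x := by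
    conv_lhs => rw [II]
    have h2 := intervalIntegral.integral_comp_neg (a := -(π / 2)) (b := π / 2)
      (fun φ => N x (sin φ) / √(DD x (sin φ)))
    rw [neg_neg] at h2
    rw [← h2, II, ← intervalIntegral.integral_neg]
    congr 1
    ext φ
    rw [sin_neg, hodd]
    have : DD x (-sin φ) = DD x (sin φ) := by unfold DD; ring
    rw [this]; ring
  linarith

theorem hasDerivAt_DD_phi (x φ : ℝ) :
    HasDerivAt (fun φ => DD x (sin φ)) (-(1 - x / 2) ^ 2 * (2 * sin φ * cos φ)) φ := by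
  unfold DD
  have h1 : HasDerivAt (fun φ => sin φ ^ 2) (2 * sin φ * cos φ) φ :=
    ((hasDerivAt_sin φ).fun_pow 2).congr_deriv (by norm_num)
  have h2 := (h1.const_mul ((1 - x / 2) ^ 2)).const_sub ((1 + x / 2) ^ 2)
  exact h2.congr_deriv (by ring)

theorem exact1 {x : ℝ} (hx : 0 < x) :
    ∫ φ in (-(π / 2))..(π / 2), ((1 + x / 2) ^ 2 - 2 * (1 + x / 2) ^ 2 * sin φ ^ 2 +
      (1 - x / 2) ^ 2 * sin φ ^ 4) / (DD x (sin φ) * √(DD x (sin φ))) = 0 := by
  have hder : ∀ φ : ℝ, HasDerivAt (fun φ => sin φ * cos φ / √(DD x (sin φ)))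
      (((1 + x / 2) ^ 2 - 2 * (1 + x / 2) ^ 2 * sin φ ^ 2 +
      (1 - x / 2) ^ 2 * sin φ ^ 4) / (DD x (sin φ) * √(DD x (sin φ)))) φ := by
    intro φ
    have hD := DD_pos hx (sin_sq_le φ)
    have hq : √(DD x (sin φ)) ≠ 0 := by positivity
    have h1 : HasDerivAt (fun φ => sin φ * cos φ) (cos φ * cos φ + sin φ * (-sin φ)) φ :=
      (hasDerivAt_sin φ).fun_mul (hasDerivAt_cos φ)
    have h2 := (hasDerivAt_DD_phi x φ).sqrt hD.ne'
    refine (h1.fun_div h2 hq).congr_deriv ?_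
    have hs : √(DD x (sin φ)) ^ 2 = DD x (sin φ) := sq_sqrt hD.le
    have hc : cos φ ^ 2 = 1 - sin φ ^ 2 := by rw [← sin_sq_add_cos_sq φ]; ring
    have hDD : DD x (sin φ) = (1 + x / 2) ^ 2 - (1 - x / 2) ^ 2 * sin φ ^ 2 := rfl
    rw [hs]
    have e1 : ∀ t : ℝ, t / DD x (sin φ) = t * √(DD x (sin φ)) /
          (DD x (sin φ) * √(DD x (sin φ))) := by
      intro t
      field_simp
    rw [e1]
    congr 1
    have e2 : ((cos φ * cos φ + sin φ * -sin φ) * √(DD x (sin φ)) - sin φ * cos φ *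
        (-(1 - x / 2) ^ 2 * (2 * sin φ * cos φ) / (2 * √(DD x (sin φ))))) * √(DD x (sin φ)) =
        (cos φ ^ 2 - sin φ ^ 2) * √(DD x (sin φ)) ^ 2 +
          (1 - x / 2) ^ 2 * sin φ ^ 2 * cos φ ^ 2 := by
      field_simp
      ring
    rw [e2, hs, hDD, hc]
    ring
  have hcont : Continuous (fun φ => ((1 + x / 2) ^ 2 - 2 * (1 + x / 2) ^ 2 * sin φ ^ 2 +
      (1 - x / 2) ^ 2 * sin φ ^ 4) / (DD x (sin φ) * √(DD x (sin φ)))) := by
    apply Continuous.div
    · fun_prop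
    · unfold DD; fun_prop
    · intro φ
      have := DD_pos hx (sin_sq_le φ)
      positivity
  rw [intervalIntegral.integral_eq_sub_of_hasDerivAt (fun φ _ => hder φ)
    (hcont.intervalIntegrable _ _)]
  simp

theorem exact2 {x : ℝ} (hx : 0 < x) (j : ℕ) :
    ∫ φ in (-(π / 2))..(π / 2), ((2 * j + 1) * (1 + x / 2) ^ 2 * sin φ ^ (2 * j)
      - (2 * j + 2) * ((1 - x / 2) ^ 2 + (1 + x / 2) ^ 2) * sin φ ^ (2 * j + 2)
      + (2 * j + 3) * (1 - x / 2) ^ 2 * sin φ ^ (2 * j + 4)) / √(DD x (sin φ)) = 0 := by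
  have hder : ∀ φ : ℝ, HasDerivAt (fun φ => sin φ ^ (2 * j + 1) * cos φ * √(DD x (sin φ)))
      (((2 * j + 1) * (1 + x / 2) ^ 2 * sin φ ^ (2 * j)
      - (2 * j + 2) * ((1 - x / 2) ^ 2 + (1 + x / 2) ^ 2) * sin φ ^ (2 * j + 2)
      + (2 * j + 3) * (1 - x / 2) ^ 2 * sin φ ^ (2 * j + 4)) / √(DD x (sin φ))) φ := by
    intro φ
    have hD := DD_pos hx (sin_sq_le φ)
    have hq : √(DD x (sin φ)) ≠ 0 := by positivity
    have h0 : HasDerivAt (fun φ => sin φ ^ (2 * j + 1))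
        ((2 * j + 1) * sin φ ^ (2 * j) * cos φ) φ := by
      refine ((hasDerivAt_sin φ).fun_pow (2 * j + 1)).congr_deriv ?_
      rw [Nat.add_sub_cancel]
      push_cast
      ring
    have h1 := (h0.fun_mul (hasDerivAt_cos φ)).fun_mul ((hasDerivAt_DD_phi x φ).sqrt hD.ne')
    refine h1.congr_deriv ?_
    have hs : √(DD x (sin φ)) ^ 2 = DD x (sin φ) := sq_sqrt hD.le
    have hc : cos φ ^ 2 = 1 - sin φ ^ 2 := by rw [← sin_sq_add_cos_sq φ]; ring
    have hDD : DD x (sin φ) = (1 + x / 2) ^ 2 - (1 - x / 2) ^ 2 * sin φ ^ 2 := rfl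
    symm
    rw [div_eq_iff hq]
    have e4 : sin φ ^ (2 * j + 1) = sin φ ^ (2 * j) * sin φ := by ring
    have e5 : sin φ ^ (2 * j + 2) = sin φ ^ (2 * j) * sin φ ^ 2 := by ring
    have e6 : sin φ ^ (2 * j + 4) = sin φ ^ (2 * j) * sin φ ^ 4 := by ring
    rw [e4, e5, e6]
    set q := √(DD x (sin φ)) with hqd
    set S := sin φ ^ (2 * j) with hS
    have e7 : -(1 - x / 2) ^ 2 * (2 * sin φ * cos φ) / (2 * q) * q =
        -(1 - x / 2) ^ 2 * (sin φ * cos φ) := by field_simp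
    have e8 : (((2 * (j : ℝ) + 1) * S * cos φ * cos φ + S * sin φ * -sin φ) * q +
        S * sin φ * cos φ * (-(1 - x / 2) ^ 2 * (2 * sin φ * cos φ) / (2 * q))) * q =
        ((2 * (j : ℝ) + 1) * S * cos φ ^ 2 - S * sin φ ^ 2) * q ^ 2 +
        S * sin φ * cos φ * (-(1 - x / 2) ^ 2 * (2 * sin φ * cos φ) / (2 * q) * q) := by ring
    rw [e8, e7, hs, hDD]
    have e9 : S * sin φ * cos φ * (-(1 - x / 2) ^ 2 * (sin φ * cos φ)) =
        -(1 - x / 2) ^ 2 * S * sin φ ^ 2 * cos φ ^ 2 := by ring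
    rw [e9, hc]
    ring
  have hcont : Continuous (fun φ => ((2 * j + 1) * (1 + x / 2) ^ 2 * sin φ ^ (2 * j)
      - (2 * j + 2) * ((1 - x / 2) ^ 2 + (1 + x / 2) ^ 2) * sin φ ^ (2 * j + 2)
      + (2 * j + 3) * (1 - x / 2) ^ 2 * sin φ ^ (2 * j + 4)) / √(DD x (sin φ))) := by
    apply Continuous.div
    · fun_prop
    · unfold DD; fun_prop
    · intro φ
      have := DD_pos hx (sin_sq_le φ)
      positivity
  rw [intervalIntegral.integral_eq_sub_of_hasDerivAt (fun φ _ => hder φ)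
    (hcont.intervalIntegrable _ _)]
  simp

/-- `J j x = ∫ (a sin φ)^(2j) / √D`. -/
noncomputable def JJ (j : ℕ) (x : ℝ) : ℝ := II (fun x s => ((1 - x / 2) * s) ^ (2 * j)) x

theorem JJ_rec (j : ℕ) {x : ℝ} (hx : 0 < x) :
    (2 * j + 3) * JJ (j + 2) x = (2 * j + 2) * ((1 - x / 2) ^ 2 + (1 + x / 2) ^ 2) * JJ (j + 1) x
      - (2 * j + 1) * ((1 - x / 2) ^ 2 * (1 + x / 2) ^ 2) * JJ j x := by
  have h := exact2 hx j
  have h1 : (fun φ => ((2 * j + 1) * (1 + x / 2) ^ 2 * sin φ ^ (2 * j)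
      - (2 * j + 2) * ((1 - x / 2) ^ 2 + (1 + x / 2) ^ 2) * sin φ ^ (2 * j + 2)
      + (2 * j + 3) * (1 - x / 2) ^ 2 * sin φ ^ (2 * j + 4)) / √(DD x (sin φ)) *
        (1 - x / 2) ^ (2 * j + 2)) = fun φ =>
      (((2 * j + 1) * ((1 - x / 2) ^ 2 * (1 + x / 2) ^ 2)) *
        (((1 - x / 2) * sin φ) ^ (2 * j) / √(DD x (sin φ))) -
      ((2 * j + 2) * ((1 - x / 2) ^ 2 + (1 + x / 2) ^ 2)) *
        (((1 - x / 2) * sin φ) ^ (2 * (j + 1)) / √(DD x (sin φ)))) +
      (2 * j + 3) * (((1 - x / 2) * sin φ) ^ (2 * (j + 2)) / √(DD x (sin φ))) := by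
    ext φ
    have hD := DD_pos hx (sin_sq_le φ)
    have hq : √(DD x (sin φ)) ≠ 0 := by positivity
    rw [mul_pow, mul_pow, mul_pow]
    set a := 1 - x / 2 with ha
    set b := 1 + x / 2 with hb
    have e1 : a ^ (2 * (j + 1)) = a ^ (2 * j + 2) := by ring
    have e2 : a ^ (2 * (j + 2)) = a ^ (2 * j + 2) * a ^ 2 := by ring
    have e3 : a ^ (2 * j + 2) = a ^ (2 * j) * a ^ 2 := by ring
    rw [e1, e2, e3]
    have e4 : sin φ ^ (2 * (j + 1)) = sin φ ^ (2 * j + 2) := by ring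
    have e5 : sin φ ^ (2 * (j + 2)) = sin φ ^ (2 * j + 4) := by ring
    rw [e4, e5]
    field_simp
  have h2 : ∫ φ in (-(π / 2))..(π / 2), (((2 * j + 1) * (1 + x / 2) ^ 2 * sin φ ^ (2 * j)
      - (2 * j + 2) * ((1 - x / 2) ^ 2 + (1 + x / 2) ^ 2) * sin φ ^ (2 * j + 2)
      + (2 * j + 3) * (1 - x / 2) ^ 2 * sin φ ^ (2 * j + 4)) / √(DD x (sin φ)) *
        (1 - x / 2) ^ (2 * j + 2)) = 0 := by
    rw [intervalIntegral.integral_mul_const, h, zero_mul]
  rw [h1] at h2
  have hI : ∀ i : ℕ, IntervalIntegrable (fun φ => ((1 - x / 2) * sin φ) ^ i / √(DD x (sin φ)))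
      volume (-(π / 2)) (π / 2) := fun i =>
    II_integrable (N := fun s => ((1 - x / 2) * s) ^ i) (by fun_prop) hx
  rw [intervalIntegral.integral_add, intervalIntegral.integral_sub,
    intervalIntegral.integral_const_mul,
    intervalIntegral.integral_const_mul, intervalIntegral.integral_const_mul] at h2
  · simp only [JJ, II]
    linarith
  · exact (hI _).const_mul _
  · exact (hI _).const_mul _
  · exact ((hI _).const_mul _).sub ((hI _).const_mul _)
  · exact (hI _).const_mul _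

/-- `I0 = ∫ 1/√D`, twice a complete elliptic integral of the first kind -/
noncomputable def I0 (x : ℝ) : ℝ := II (fun _ _ => 1) x

/-- `F1 = ∫ (ab - a² s²)/√D` -/
noncomputable def F1 (x : ℝ) : ℝ :=
  II (fun x s => (1 - x / 2) * (1 + x / 2) - (1 - x / 2) ^ 2 * s ^ 2) x

theorem JJ_zero (x : ℝ) : JJ 0 x = I0 x := by simp [JJ, I0]

theorem JJ_one {x : ℝ} (hx : 0 < x) : JJ 1 x = (1 - x ^ 2 / 4) * I0 x - F1 x := by
  have h1 : F1 x = (1 - x / 2) * (1 + x / 2) * I0 x - JJ 1 x := by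
    rw [F1, JJ, I0]
    have h2 : II (fun x s => ((1 - x / 2) * (1 + x / 2)) * 1 + (-1) * ((1 - x / 2) * s) ^ (2 * 1)) x =
        (1 - x / 2) * (1 + x / 2) * II (fun _ _ => 1) x +
          (-1) * II (fun x s => ((1 - x / 2) * s) ^ (2 * 1)) x := by
      rw [II_add (by fun_prop) (by fun_prop) hx]
      congr 1
      · exact II_const_mul ((1 - x / 2) * (1 + x / 2)) (fun _ _ => 1) x
      · exact II_const_mul (-1) (fun x s => ((1 - x / 2) * s) ^ (2 * 1)) x
    have h3 : II (fun x s => (1 - x / 2) * (1 + x / 2) - (1 - x / 2) ^ 2 * s ^ 2) x =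
        II (fun x s => ((1 - x / 2) * (1 + x / 2)) * 1 + (-1) * ((1 - x / 2) * s) ^ (2 * 1)) x := by
      congr 1
      ext x s
      ring
    rw [h3, h2]; ring
  rw [h1]; ring

/-- generic differentiation under the integral sign -/
theorem hasDerivAt_II {N N' : ℝ → ℝ → ℝ} (hN : Continuous (fun p : ℝ × ℝ => N p.1 p.2))
    (hN' : Continuous (fun p : ℝ × ℝ => N' p.1 p.2))
    (hd : ∀ x s, HasDerivAt (fun x => N x s) (N' x s) x) {x : ℝ} (hx : 0 < x) :
    HasDerivAt (II N) (∫ φ in (-(π / 2))..(π / 2),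
      (N' x (sin φ) / √(DD x (sin φ)) - N x (sin φ) * ((1 + x / 2) + (1 - x / 2) * sin φ ^ 2) /
        (2 * (DD x (sin φ) * √(DD x (sin φ)))))) x := by
  set G : ℝ → ℝ → ℝ := fun y s => N' y s / √(DD y s) -
    N y s * ((1 + y / 2) + (1 - y / 2) * s ^ 2) / (2 * (DD y s * √(DD y s))) with hG
  -- compact set
  set K : Set (ℝ × ℝ) := Set.Icc (x / 2) (x + 1) ×ˢ Set.Icc (-1) 1 with hK
  have hDcont : Continuous (fun p : ℝ × ℝ => DD p.1 p.2) := by unfold DD; fun_prop
  have hKpos : ∀ p ∈ K, 0 < DD p.1 p.2 := by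
    rintro ⟨y, s⟩ ⟨hy, hs⟩
    simp only at hy hs
    have h1 : s ^ 2 ≤ 1 := by
      have := abs_le.mpr hs
      rw [← sq_abs]
      nlinarith [abs_nonneg s]
    exact DD_pos (lt_of_lt_of_le (by linarith) hy.1) h1
  have hGcont : ContinuousOn (fun p : ℝ × ℝ => G p.1 p.2) K := by
    simp only [hG]
    apply ContinuousOn.sub
    · apply ContinuousOn.div hN'.continuousOn hDcont.sqrt.continuousOn
      intro p hp
      have := hKpos p hp
      positivity
    · apply ContinuousOn.div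
      · apply Continuous.continuousOn
        fun_prop
      · exact (continuous_const.mul (hDcont.mul hDcont.sqrt)).continuousOn
      · intro p hp
        have := hKpos p hp
        positivity
  have hKc : IsCompact K := isCompact_Icc.prod isCompact_Icc
  obtain ⟨C, hC⟩ := hKc.exists_bound_of_continuousOn hGcont
  have hmemK : ∀ y ∈ Set.Ioo (x / 2) (x + 1), ∀ φ : ℝ, (y, sin φ) ∈ K := by
    intro y hy φ
    exact ⟨⟨hy.1.le, hy.2.le⟩, neg_one_le_sin φ, sin_le_one φ⟩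
  have hderiv : ∀ φ : ℝ, ∀ y ∈ Set.Ioo (x / 2) (x + 1),
      HasDerivAt (fun y => N y (sin φ) / √(DD y (sin φ))) (G y (sin φ)) y := by
    intro φ y hy
    have hD := hKpos _ (hmemK y hy φ)
    simp only at hD
    have hDd : HasDerivAt (fun y => DD y (sin φ)) ((1 + y / 2) + (1 - y / 2) * sin φ ^ 2) y := by
      unfold DD
      have h1 : HasDerivAt (fun y : ℝ => (1 + y / 2)) (1 / 2) y :=
        ((hasDerivAt_id y).div_const 2).const_add 1
      have h2 : HasDerivAt (fun y : ℝ => (1 - y / 2)) (-(1 / 2)) y :=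
        ((hasDerivAt_id y).div_const 2).const_sub 1
      have h3 := (h1.fun_pow 2).fun_sub ((h2.fun_pow 2).mul_const (sin φ ^ 2))
      refine h3.congr_deriv ?_
      norm_num
      ring
    have h4 := (hd y (sin φ)).fun_div (hDd.sqrt hD.ne') (by positivity)
    refine h4.congr_deriv ?_
    simp only [hG]
    have hs : √(DD y (sin φ)) ^ 2 = DD y (sin φ) := sq_sqrt hD.le
    set q := √(DD y (sin φ)) with hq
    have hqpos : 0 < q := by rw [hq]; positivity
    rw [← hs]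
    field_simp
  have key := intervalIntegral.hasDerivAt_integral_of_dominated_loc_of_deriv_le (μ := volume)
    (a := -(π / 2)) (b := π / 2) (F := fun y φ => N y (sin φ) / √(DD y (sin φ)))
    (F' := fun y φ => G y (sin φ)) (x₀ := x) (s := Set.Ioo (x / 2) (x + 1)) (bound := fun _ => C)
    (Ioo_mem_nhds (by linarith) (by linarith))
    (by
      filter_upwards [Ioo_mem_nhds (show x / 2 < x by linarith) (show x < x + 1 by linarith)] with y hy
      have hNy : Continuous (N y) := by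
        have : N y = (fun p : ℝ × ℝ => N p.1 p.2) ∘ (fun s => (y, s)) := rfl
        rw [this]; exact hN.comp (by fun_prop)
      exact (cont_integrand hNy (lt_trans (by linarith) hy.1)).aestronglyMeasurable)
    (by
      have hNy : Continuous (N x) := by
        have : N x = (fun p : ℝ × ℝ => N p.1 p.2) ∘ (fun s => (x, s)) := rfl
        rw [this]; exact hN.comp (by fun_prop)
      exact II_integrable hNy hx)
    (by
      apply Continuous.aestronglyMeasurable
      have : (fun φ => G x (sin φ)) = (fun p : ℝ × ℝ => G p.1 p.2) ∘ (fun φ => (x, sin φ)) := rfl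
      rw [this]
      apply hGcont.comp_continuous (by fun_prop)
      intro φ
      exact hmemK x ⟨by linarith, by linarith⟩ φ)
    (by
      refine Filter.Eventually.of_forall (fun φ _ y hy => ?_)
      exact hC _ (hmemK y hy φ))
    (by simp)
    (by
      refine Filter.Eventually.of_forall (fun φ _ y hy => ?_)
      exact hderiv φ y hy)
  exact key.2

theorem I0_pos {x : ℝ} (hx : 0 < x) : 0 < I0 x := by
  rw [I0, II]
  apply intervalIntegral.intervalIntegral_pos_of_pos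
  · exact II_integrable (N := fun _ => 1) (by fun_prop) hx
  · intro φ
    have := DD_pos hx (sin_sq_le φ)
    positivity
  · have := pi_pos
    linarith

/-- `2 x w I0' = -F1`. -/
theorem hasDerivAt_I0 {x : ℝ} (hx : 0 < x) (hx2 : x ≠ 2) :
    HasDerivAt I0 (-F1 x / (2 * x * (1 - x ^ 2 / 4))) x := by
  have h := hasDerivAt_II (N := fun _ _ => 1) (N' := fun _ _ => 0) (by fun_prop) (by fun_prop)
    (fun x s => hasDerivAt_const x 1) hx
  have e : II (fun _ _ => 1) = I0 := rfl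
  rw [e] at h
  refine h.congr_deriv ?_
  have hw : 1 - x ^ 2 / 4 ≠ 0 := by
    intro h0
    have : (x - 2) * (x + 2) = 0 := by nlinarith
    rcases mul_eq_zero.mp this with h1 | h1
    · exact hx2 (by linarith)
    · linarith
  -- pointwise identity modulo the exact form
  have hex := exact1 hx
  set w := 1 - x ^ 2 / 4 with hwdef
  have h1 : ∀ φ : ℝ, ((0 : ℝ) / √(DD x (sin φ)) - 1 * ((1 + x / 2) + (1 - x / 2) * sin φ ^ 2) /
        (2 * (DD x (sin φ) * √(DD x (sin φ))))) =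
      -(1 / (2 * x * w)) * (((1 - x / 2) * (1 + x / 2) - (1 - x / 2) ^ 2 * sin φ ^ 2) /
        √(DD x (sin φ))) + ((1 - x / 2) ^ 2 / (2 * x * w)) *
        (((1 + x / 2) ^ 2 - 2 * (1 + x / 2) ^ 2 * sin φ ^ 2 +
      (1 - x / 2) ^ 2 * sin φ ^ 4) / (DD x (sin φ) * √(DD x (sin φ)))) := by
    intro φ
    have hD := DD_pos hx (sin_sq_le φ)
    have hq : 0 < √(DD x (sin φ)) := by positivity
    have hDD : DD x (sin φ) = (1 + x / 2) ^ 2 - (1 - x / 2) ^ 2 * sin φ ^ 2 := rfl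
    have hD' := hD.ne'
    have e1 : ((1 - x / 2) * (1 + x / 2) - (1 - x / 2) ^ 2 * sin φ ^ 2) / √(DD x (sin φ)) =
        ((1 - x / 2) * (1 + x / 2) - (1 - x / 2) ^ 2 * sin φ ^ 2) * DD x (sin φ) /
          (DD x (sin φ) * √(DD x (sin φ))) := by
      field_simp
    rw [e1]
    set q := √(DD x (sin φ)) with hqd
    rw [zero_div, zero_sub, one_mul]
    have e2 : ((1 - x / 2) * (1 + x / 2) - (1 - x / 2) ^ 2 * sin φ ^ 2) * DD x (sin φ) =
        ((1 - x / 2) * (1 + x / 2) - (1 - x / 2) ^ 2 * sin φ ^ 2) *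
          ((1 + x / 2) ^ 2 - (1 - x / 2) ^ 2 * sin φ ^ 2) := by rw [hDD]
    rw [e2]
    have e3 : ∀ A B Cc E : ℝ, -(A / (2 * E)) = -(1 / (2 * x * w)) * (B / E) +
        ((1 - x / 2) ^ 2 / (2 * x * w)) * (Cc / E) ↔
        -(A / (2 * E)) = (-B + (1 - x / 2) ^ 2 * Cc) / (2 * x * w * E) := by
      intro A B Cc E
      have : -(1 / (2 * x * w)) * (B / E) + ((1 - x / 2) ^ 2 / (2 * x * w)) * (Cc / E) =
        (-B + (1 - x / 2) ^ 2 * Cc) / (2 * x * w * E) := by
        rw [div_mul_div_comm, neg_mul, div_mul_div_comm, one_mul, add_div, neg_div]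
      rw [this]
    rw [e3]
    rw [neg_div', div_eq_div_iff (by positivity) (by positivity)]
    rw [hwdef]
    ring
  have h2 : ∫ φ in (-(π / 2))..(π / 2),
      ((0 : ℝ) / √(DD x (sin φ)) - 1 * ((1 + x / 2) + (1 - x / 2) * sin φ ^ 2) /
        (2 * (DD x (sin φ) * √(DD x (sin φ))))) =
      -(1 / (2 * x * w)) * F1 x := by
    rw [intervalIntegral.integral_congr (g := fun φ =>
      -(1 / (2 * x * w)) * (((1 - x / 2) * (1 + x / 2) - (1 - x / 2) ^ 2 * sin φ ^ 2) /
        √(DD x (sin φ))) + ((1 - x / 2) ^ 2 / (2 * x * w)) *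
        (((1 + x / 2) ^ 2 - 2 * (1 + x / 2) ^ 2 * sin φ ^ 2 +
      (1 - x / 2) ^ 2 * sin φ ^ 4) / (DD x (sin φ) * √(DD x (sin φ))))) (fun φ _ => h1 φ)]
    rw [intervalIntegral.integral_add, intervalIntegral.integral_const_mul,
      intervalIntegral.integral_const_mul, hex, mul_zero, add_zero]
    · rfl
    · exact (II_integrable (N := fun s => (1 - x / 2) * (1 + x / 2) - (1 - x / 2) ^ 2 * s ^ 2)
        (by fun_prop) hx).const_mul _
    · apply IntervalIntegrable.const_mul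
      apply Continuous.intervalIntegrable
      apply Continuous.div
      · fun_prop
      · unfold DD; fun_prop
      · intro φ
        have := DD_pos hx (sin_sq_le φ)
        positivity
  rw [h2]
  rw [neg_div, neg_mul, one_div, div_eq_inv_mul]

/-- `F1' = -(x/2) I0`. -/
theorem hasDerivAt_F1 {x : ℝ} (hx : 0 < x) : HasDerivAt F1 (-(x / 2) * I0 x) x := by
  have hd : ∀ x s : ℝ, HasDerivAt (fun x => (1 - x / 2) * (1 + x / 2) - (1 - x / 2) ^ 2 * s ^ 2)
      (-(x / 2) + (1 - x / 2) * s ^ 2) x := by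
    intro x s
    have h1 : HasDerivAt (fun y : ℝ => (1 + y / 2)) (1 / 2) x :=
      ((hasDerivAt_id x).div_const 2).const_add 1
    have h2 : HasDerivAt (fun y : ℝ => (1 - y / 2)) (-(1 / 2)) x :=
      ((hasDerivAt_id x).div_const 2).const_sub 1
    have h3 := (h2.fun_mul h1).fun_sub ((h2.fun_pow 2).mul_const (s ^ 2))
    refine h3.congr_deriv ?_
    norm_num
    ring
  have h := hasDerivAt_II (N := fun x s => (1 - x / 2) * (1 + x / 2) - (1 - x / 2) ^ 2 * s ^ 2)
    (N' := fun x s => -(x / 2) + (1 - x / 2) * s ^ 2) (by fun_prop) (by fun_prop) hd hx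
  have e : II (fun x s => (1 - x / 2) * (1 + x / 2) - (1 - x / 2) ^ 2 * s ^ 2) = F1 := rfl
  rw [e] at h
  refine h.congr_deriv ?_
  have hex := exact1 hx
  have h1 : ∀ φ : ℝ, ((-(x / 2) + (1 - x / 2) * sin φ ^ 2) / √(DD x (sin φ)) -
      ((1 - x / 2) * (1 + x / 2) - (1 - x / 2) ^ 2 * sin φ ^ 2) *
        ((1 + x / 2) + (1 - x / 2) * sin φ ^ 2) / (2 * (DD x (sin φ) * √(DD x (sin φ))))) =
      (-(x / 2)) * (1 / √(DD x (sin φ))) + (-(1 - x / 2) / 2) *
        (((1 + x / 2) ^ 2 - 2 * (1 + x / 2) ^ 2 * sin φ ^ 2 +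
      (1 - x / 2) ^ 2 * sin φ ^ 4) / (DD x (sin φ) * √(DD x (sin φ)))) := by
    intro φ
    have hD := DD_pos hx (sin_sq_le φ)
    have hq : 0 < √(DD x (sin φ)) := by positivity
    have hDD : DD x (sin φ) = (1 + x / 2) ^ 2 - (1 - x / 2) ^ 2 * sin φ ^ 2 := rfl
    have hD' := hD.ne'
    have e1 : ∀ t : ℝ, t / √(DD x (sin φ)) = t * DD x (sin φ) /
          (DD x (sin φ) * √(DD x (sin φ))) := by
      intro t
      field_simp
    rw [e1, e1]
    set q := √(DD x (sin φ)) with hqd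
    have e2 : ∀ t : ℝ, t * DD x (sin φ) / (DD x (sin φ) * q) =
        t * ((1 + x / 2) ^ 2 - (1 - x / 2) ^ 2 * sin φ ^ 2) / (DD x (sin φ) * q) := by
      intro t; rw [← hDD]
    rw [e2, e2]
    field_simp
    ring
  rw [intervalIntegral.integral_congr (g := fun φ =>
      (-(x / 2)) * (1 / √(DD x (sin φ))) + (-(1 - x / 2) / 2) *
        (((1 + x / 2) ^ 2 - 2 * (1 + x / 2) ^ 2 * sin φ ^ 2 +
      (1 - x / 2) ^ 2 * sin φ ^ 4) / (DD x (sin φ) * √(DD x (sin φ))))) (fun φ _ => h1 φ)]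
  rw [intervalIntegral.integral_add, intervalIntegral.integral_const_mul,
    intervalIntegral.integral_const_mul, hex, mul_zero, add_zero]
  · rfl
  · exact (II_integrable (N := fun s => 1) (by fun_prop) hx).const_mul _
  · apply IntervalIntegrable.const_mul
    apply Continuous.intervalIntegrable
    apply Continuous.div
    · fun_prop
    · unfold DD; fun_prop
    · intro φ
      have := DD_pos hx (sin_sq_le φ)
      positivity

end Pool.Agent.Helper68_Zeros
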