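import Mathlib
import Pool.Agent.Helper68_Zeros.Count
import Pool.Agent.Helper68_Zeros.Integrals

/-!
`I0 = (π/2) R0(w)` and `F1 = (π/2) S0(w)` with `w = 1 - x²/4`.
-/

set_option autoImplicit false

namespace Pool.Agent.Helper68_Zeros

open Real Set

theorem ev_zero (p : PowerSeries ℝ) : ev p 0 = PowerSeries.constantCoeff p := by
  rw [ev, tsum_eq_single 0]
  · simp
  · intro n hn
    rw [zero_pow hn, mul_zero]

theorem dps_S0 : dps S0 = R0 := by
  ext n
  rw [coeff_dps, S0, mul_comm PowerSeries.X, PowerSeries.coeff_succ_mul_X]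
  simp only [R0, F21, PowerSeries.coeff_mk]
  have h1 : poch 2 n = poch 1 n * (1 + n) := by
    rw [← poch_succ, poch_succ']; norm_num
  have h2 : 0 < poch (1 : ℝ) n := poch_pos one_pos n
  have h3 : (0 : ℝ) < 1 + n := by positivity
  rw [h1]
  field_simp
  ring

theorem ode_R0 : PowerSeries.X * (1 - PowerSeries.X) * dps R0 = PowerSeries.C (1 / 4) * S0 := by
  ext n
  cases n with
  | zero => simp [S0]
  | succ n =>
    have h1 : PowerSeries.X * (1 - PowerSeries.X) * dps R0 =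
        (dps R0 - dps R0 * PowerSeries.X) * PowerSeries.X := by ring
    rw [h1, PowerSeries.coeff_succ_mul_X, PowerSeries.coeff_C_mul, S0,
      mul_comm PowerSeries.X (F21 _ _ _),
      PowerSeries.coeff_succ_mul_X, map_sub, coeff_dps]
    have h2 : PowerSeries.coeff n (dps R0 * PowerSeries.X) = n * PowerSeries.coeff n R0 := by
      cases n with
      | zero => simp
      | succ n =>
        rw [PowerSeries.coeff_succ_mul_X, coeff_dps]; push_cast; ring
    rw [h2]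
    simp only [R0, F21, PowerSeries.coeff_mk]
    have e1 : poch 2 n = poch 1 n * (1 + n) := by
      rw [← poch_succ, poch_succ']; norm_num
    have e2 : poch 1 (n + 1) = poch 1 n * (1 + n) := poch_succ _ _
    have e3 : poch (1 / 2) (n + 1) = poch (1 / 2) n * (1 / 2 + n) := poch_succ _ _
    have h3 : 0 < poch (1 : ℝ) n := poch_pos one_pos n
    have h4 : (0 : ℝ) < 1 + n := by positivity
    rw [e1, e2, e3]
    field_simp
    ring

theorem const_of_deriv_zero {f : ℝ → ℝ} {a b : ℝ} (hab : a < b) (hc : ContinuousOn f (Icc a b))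
    (hd : ∀ y ∈ Ioo a b, HasDerivAt f 0 y) : f a = f b := by
  obtain ⟨c, _, hc'⟩ := exists_hasDerivAt_eq_slope f (fun _ => 0) hab hc hd
  have : b - a ≠ 0 := by linarith
  rw [eq_comm, div_eq_zero_iff] at hc'
  rcases hc' with h | h
  · linarith
  · exact absurd h this

theorem w_mem {x : ℝ} (hx : 0 < x) (hx2 : x ≤ 2) : 0 ≤ 1 - x ^ 2 / 4 ∧ 1 - x ^ 2 / 4 < 1 := by
  constructor <;> nlinarith

theorem w_abs {x : ℝ} (hx : 0 < x) (hx2 : x ≤ 2) : |1 - x ^ 2 / 4| < 1 := by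
  have := w_mem hx hx2
  rw [abs_of_nonneg this.1]; exact this.2

theorem hasDerivAt_w (x : ℝ) : HasDerivAt (fun x : ℝ => 1 - x ^ 2 / 4) (-(x / 2)) x := by
  have h1 : HasDerivAt (fun x : ℝ => x ^ 2 / 4) (x / 2) x := by
    refine ((hasDerivAt_pow 2 x).div_const 4).congr_deriv ?_
    norm_num; ring
  exact h1.const_sub 1

theorem hasDerivAt_ev_w {p : PowerSeries ℝ} (hp : Good p) {x : ℝ} (hx : 0 < x) (hx2 : x ≤ 2) :
    HasDerivAt (fun x => ev p (1 - x ^ 2 / 4)) (ev (dps p) (1 - x ^ 2 / 4) * (-(x / 2))) x :=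
  HasDerivAt.comp (h₂ := ev p) x (hasDerivAt_ev hp (w_abs hx hx2)) (hasDerivAt_w x)

theorem I0_contAt {x : ℝ} (hx : 0 < x) : ContinuousAt I0 x :=
  (hasDerivAt_II (N := fun _ _ => 1) (N' := fun _ _ => 0) (by fun_prop) (by fun_prop)
    (fun x s => hasDerivAt_const x 1) hx).continuousAt

theorem F1_contAt {x : ℝ} (hx : 0 < x) : ContinuousAt F1 x := (hasDerivAt_F1 hx).continuousAt

theorem F1_two : F1 2 = 0 := by
  rw [F1, II]
  norm_num

theorem I0_two : I0 2 = π / 2 := by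
  rw [I0, II]
  have h1 : ∀ φ : ℝ, (1 : ℝ) / √(DD 2 (sin φ)) = 1 / 2 := by
    intro φ
    have : DD 2 (sin φ) = 2 ^ 2 := by unfold DD; norm_num
    rw [this, sqrt_sq (by norm_num)]
  rw [intervalIntegral.integral_congr (g := fun _ => (1 / 2 : ℝ)) (fun φ _ => h1 φ)]
  rw [intervalIntegral.integral_const, smul_eq_mul]
  ring

theorem ode_ev {x : ℝ} (hx : 0 < x) (hx2 : x < 2) :
    ev (dps R0) (1 - x ^ 2 / 4) = ev S0 (1 - x ^ 2 / 4) / ((1 - x ^ 2 / 4) * x ^ 2) := by
  have hw := w_abs hx hx2.le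
  have hw' : 0 < 1 - x ^ 2 / 4 := by nlinarith
  have h : ev (PowerSeries.X * (1 - PowerSeries.X) * dps R0) (1 - x ^ 2 / 4) =
      ev (PowerSeries.C (1 / 4) * S0) (1 - x ^ 2 / 4) := by rw [ode_R0]
  rw [ev_mul (good_X.mul good_one_sub_X) good_R0.dps hw, ev_mul good_X good_one_sub_X hw, ev_X,
    ev_one_sub_X, ev_mul (good_C _) good_S0 hw, ev_C] at h
  rw [eq_div_iff (by positivity)]
  linarith

theorem D_zero {x : ℝ} (hx : 0 < x) (hx2 : x ≤ 2) :
    I0 x * ev S0 (1 - x ^ 2 / 4) - F1 x * ev R0 (1 - x ^ 2 / 4) = 0 := by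
  have h2 : I0 2 * ev S0 (1 - 2 ^ 2 / 4) - F1 2 * ev R0 (1 - 2 ^ 2 / 4) = 0 := by
    have e : (1 - 2 ^ 2 / 4 : ℝ) = 0 := by norm_num
    rw [e, F1_two, ev_zero]
    simp [S0]
  rcases eq_or_lt_of_le hx2 with he | hlt
  · rw [he]; exact h2
  · have h3 := const_of_deriv_zero
      (f := fun x => I0 x * ev S0 (1 - x ^ 2 / 4) - F1 x * ev R0 (1 - x ^ 2 / 4)) hlt
      (fun y hy => by
        have hy0 : 0 < y := lt_of_lt_of_le hx hy.1
        exact (((I0_contAt hy0).mul (hasDerivAt_ev_w good_S0 hy0 hy.2).continuousAt).sub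
          ((F1_contAt hy0).mul (hasDerivAt_ev_w good_R0 hy0 hy.2).continuousAt)).continuousWithinAt)
      (fun y hy => by
        have hy0 : 0 < y := lt_trans hx hy.1
        have hw' : 0 < 1 - y ^ 2 / 4 := by nlinarith [hy.2]
        have d1 := (hasDerivAt_I0 hy0 hy.2.ne).fun_mul (hasDerivAt_ev_w good_S0 hy0 hy.2.le)
        have d2 := (hasDerivAt_F1 hy0).fun_mul (hasDerivAt_ev_w good_R0 hy0 hy.2.le)
        refine (d1.fun_sub d2).congr_deriv ?_
        rw [dps_S0, ode_ev hy0 hy.2]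
        field_simp
        ring)
    rw [h3]; exact h2

theorem I0_eq {x : ℝ} (hx : 0 < x) (hx2 : x ≤ 2) : I0 x = π / 2 * ev R0 (1 - x ^ 2 / 4) := by
  have hR : ∀ y : ℝ, 0 < y → y ≤ 2 → 0 < ev R0 (1 - y ^ 2 / 4) := fun y hy hy2 =>
    ev_R0_pos (w_mem hy hy2).1 (w_mem hy hy2).2
  have h2 : I0 2 / ev R0 (1 - 2 ^ 2 / 4) = π / 2 := by
    have e : (1 - 2 ^ 2 / 4 : ℝ) = 0 := by norm_num
    rw [e, ev_zero, R0_const, I0_two, div_one]
  have key : I0 x / ev R0 (1 - x ^ 2 / 4) = π / 2 := by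
    rcases eq_or_lt_of_le hx2 with he | hlt
    · rw [he]; exact h2
    · have h3 := const_of_deriv_zero (f := fun x => I0 x / ev R0 (1 - x ^ 2 / 4)) hlt
        (fun y hy => by
          have hy0 : 0 < y := lt_of_lt_of_le hx hy.1
          exact ((I0_contAt hy0).div (hasDerivAt_ev_w good_R0 hy0 hy.2).continuousAt
            (hR y hy0 hy.2).ne').continuousWithinAt)
        (fun y hy => by
          have hy0 : 0 < y := lt_trans hx hy.1
          have hw' : 0 < 1 - y ^ 2 / 4 := by nlinarith [hy.2]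
          have hRy := hR y hy0 hy.2.le
          have d1 := (hasDerivAt_I0 hy0 hy.2.ne).fun_div (hasDerivAt_ev_w good_R0 hy0 hy.2.le)
            hRy.ne'
          refine d1.congr_deriv ?_
          have hD := D_zero hy0 hy.2.le
          rw [ode_ev hy0 hy.2]
          rw [div_eq_zero_iff]
          left
          have e1 : -F1 y / (2 * y * (1 - y ^ 2 / 4)) * ev R0 (1 - y ^ 2 / 4) -
              I0 y * (ev S0 (1 - y ^ 2 / 4) / ((1 - y ^ 2 / 4) * y ^ 2) * -(y / 2)) =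
              (I0 y * ev S0 (1 - y ^ 2 / 4) - F1 y * ev R0 (1 - y ^ 2 / 4)) /
                (2 * y * (1 - y ^ 2 / 4)) := by
            set w := 1 - y ^ 2 / 4 with hw
            field_simp
            ring
          rw [e1, hD, zero_div])
      rw [h3]; exact h2
  rw [div_eq_iff (hR x hx hx2).ne'] at key
  exact key

theorem F1_eq {x : ℝ} (hx : 0 < x) (hx2 : x ≤ 2) : F1 x = π / 2 * ev S0 (1 - x ^ 2 / 4) := by
  have hR : 0 < ev R0 (1 - x ^ 2 / 4) := ev_R0_pos (w_mem hx hx2).1 (w_mem hx hx2).2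
  have hD := D_zero hx hx2
  rw [I0_eq hx hx2] at hD
  have : F1 x * ev R0 (1 - x ^ 2 / 4) = π / 2 * ev S0 (1 - x ^ 2 / 4) * ev R0 (1 - x ^ 2 / 4) := by
    linarith
  exact mul_right_cancel₀ hR.ne' this

end Pool.Agent.Helper68_Zeros
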