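import Mathlib
import Pool.Agent.Helper68_Zeros.Link

/-!
Reduction of `∫ G(v)/√D` to `I0` and `F1` with polynomial coefficients.
-/

set_option autoImplicit false

namespace Pool.Agent.Helper68_Zeros

open Real Set Polynomial

/-- `f = A(w) I0 + B(w) F1` with `deg A ≤ N`, `deg B < N`, `A(1) = α`, `w = 1 - x²/4`. -/
def Cl (N : ℕ) (α : ℝ) (f : ℝ → ℝ) : Prop :=
  ∃ A B : ℝ[X], A ∈ degreeLT ℝ (N + 1) ∧ B ∈ degreeLT ℝ N ∧ A.eval 1 = α ∧
    ∀ x, 0 < x → f x = A.eval (1 - x ^ 2 / 4) * I0 x + B.eval (1 - x ^ 2 / 4) * F1 x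

theorem mulX_mem {B : ℝ[X]} {N : ℕ} (h : B ∈ degreeLT ℝ N) : X * B ∈ degreeLT ℝ (N + 1) := by
  rw [mem_degreeLT, degree_lt_iff_coeff_zero] at *
  intro m hm
  obtain ⟨m', rfl⟩ : ∃ m', m = m' + 1 := ⟨m - 1, by omega⟩
  rw [coeff_X_mul]
  exact h m' (by omega)

theorem mono_mem {B : ℝ[X]} {N M : ℕ} (hNM : N ≤ M) (h : B ∈ degreeLT ℝ N) :
    B ∈ degreeLT ℝ M := degreeLT_mono hNM h

theorem C_mul_mem {B : ℝ[X]} {N : ℕ} (c : ℝ) (h : B ∈ degreeLT ℝ N) :
    C c * B ∈ degreeLT ℝ N := by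
  rw [← smul_eq_C_mul]; exact Submodule.smul_mem _ _ h

theorem Cl_add {N : ℕ} {α β : ℝ} {f g : ℝ → ℝ} (hf : Cl N α f) (hg : Cl N β g) :
    Cl N (α + β) (fun x => f x + g x) := by
  obtain ⟨A, B, hA, hB, h1, h2⟩ := hf
  obtain ⟨A', B', hA', hB', h1', h2'⟩ := hg
  refine ⟨A + A', B + B', Submodule.add_mem _ hA hA', Submodule.add_mem _ hB hB', ?_, ?_⟩
  · rw [eval_add, h1, h1']
  · intro x hx
    simp only []
    rw [h2 x hx, h2' x hx, eval_add, eval_add]; ring

theorem Cl_smul {N : ℕ} {α : ℝ} {f : ℝ → ℝ} (c : ℝ) (hf : Cl N α f) :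
    Cl N (c * α) (fun x => c * f x) := by
  obtain ⟨A, B, hA, hB, h1, h2⟩ := hf
  refine ⟨C c * A, C c * B, C_mul_mem c hA, C_mul_mem c hB, ?_, ?_⟩
  · rw [eval_mul, eval_C, h1]
  · intro x hx
    simp only []
    rw [h2 x hx]
    simp only [eval_mul, eval_C]; ring

theorem Cl_mono {N M : ℕ} (hNM : N ≤ M) {α : ℝ} {f : ℝ → ℝ} (hf : Cl N α f) : Cl M α f := by
  obtain ⟨A, B, hA, hB, h1, h2⟩ := hf
  exact ⟨A, B, mono_mem (by omega) hA, mono_mem hNM hB, h1, h2⟩

theorem Cl_zero (N : ℕ) : Cl N 0 (fun _ => 0) :=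
  ⟨0, 0, Submodule.zero_mem _, Submodule.zero_mem _, by simp, fun x _ => by simp⟩

theorem Cl_sum {ι : Type*} (s : Finset ι) {N : ℕ} {α : ι → ℝ} {f : ι → ℝ → ℝ}
    (hf : ∀ i ∈ s, Cl N (α i) (f i)) : Cl N (∑ i ∈ s, α i) (fun x => ∑ i ∈ s, f i x) := by
  classical
  induction s using Finset.induction_on with
  | empty => simpa using Cl_zero N
  | insert a s ha ih =>
    have h1 := Cl_add (hf a (Finset.mem_insert_self _ _))
      (ih (fun i hi => hf i (Finset.mem_insert_of_mem hi)))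
    simp only [Finset.sum_insert ha]
    exact h1

theorem Cl_zmul {N : ℕ} {α : ℝ} {f : ℝ → ℝ} (hf : Cl N α f) :
    Cl (N + 1) 0 (fun x => x ^ 2 / 4 * f x) := by
  obtain ⟨A, B, hA, hB, h1, h2⟩ := hf
  refine ⟨A - X * A, B - X * B,
    Submodule.sub_mem _ (mono_mem (by omega) hA) (mulX_mem hA),
    Submodule.sub_mem _ (mono_mem (by omega) hB) (mulX_mem hB), ?_, ?_⟩
  · simp
  · intro x hx
    simp only []
    rw [h2 x hx]
    simp only [eval_sub, eval_mul, eval_X]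
    ring

theorem Cl_zpow {N : ℕ} {α : ℝ} {f : ℝ → ℝ} (hf : Cl N α f) (i : ℕ) :
    Cl (N + i) (if i = 0 then α else 0) (fun x => (x ^ 2 / 4) ^ i * f x) := by
  induction i with
  | zero => simpa using hf
  | succ i ih =>
    have h1 := Cl_zmul ih
    rw [if_neg (by omega)]
    have e : (fun x => x ^ 2 / 4 * ((x ^ 2 / 4) ^ i * f x)) =
        (fun x => (x ^ 2 / 4) ^ (i + 1) * f x) := by
      ext x; ring
    rw [e] at h1
    exact h1

theorem Cl_JJ (j : ℕ) : Cl j 1 (JJ j) ∧ Cl (j + 1) 1 (JJ (j + 1)) := by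
  induction j with
  | zero =>
    constructor
    · refine ⟨1, 0, ?_, Submodule.zero_mem _, by simp, ?_⟩
      · rw [mem_degreeLT, degree_one]; norm_num
      · intro x _; rw [JJ_zero]; simp
    · refine ⟨X, C (-1), ?_, ?_, by simp, ?_⟩
      · rw [mem_degreeLT, degree_X]; norm_num
      · rw [mem_degreeLT, degree_C (by norm_num)]; norm_num
      · intro x hx
        rw [JJ_one hx]; simp; ring
  | succ j ih =>
    refine ⟨ih.2, ?_⟩
    obtain ⟨A, B, hA, hB, h1, h2⟩ := ih.1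
    obtain ⟨A', B', hA', hB', h1', h2'⟩ := ih.2
    have hne : (2 * (j : ℝ) + 3) ≠ 0 := by positivity
    refine ⟨C ((2 * (j : ℝ) + 2) / (2 * (j : ℝ) + 3)) * (C 4 * A' - C 2 * (X * A')) -
        C ((2 * (j : ℝ) + 1) / (2 * (j : ℝ) + 3)) * (X * (X * A)),
      C ((2 * (j : ℝ) + 2) / (2 * (j : ℝ) + 3)) * (C 4 * B' - C 2 * (X * B')) -
        C ((2 * (j : ℝ) + 1) / (2 * (j : ℝ) + 3)) * (X * (X * B)), ?_, ?_, ?_, ?_⟩
    · exact Submodule.sub_mem _ (C_mul_mem _ (Submodule.sub_mem _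
        (C_mul_mem _ (mono_mem (by omega) hA')) (C_mul_mem _ (mulX_mem hA'))))
        (C_mul_mem _ (mulX_mem (mulX_mem hA)))
    · exact Submodule.sub_mem _ (C_mul_mem _ (Submodule.sub_mem _
        (C_mul_mem _ (mono_mem (by omega) hB')) (C_mul_mem _ (mulX_mem hB'))))
        (C_mul_mem _ (mulX_mem (mulX_mem hB)))
    · simp only [eval_sub, eval_mul, eval_C, eval_X, h1, h1']
      field_simp
      ring
    · intro x hx
      have h3 := JJ_rec j hx
      have h4 : JJ (j + 2) x = ((2 * j + 2) * ((1 - x / 2) ^ 2 + (1 + x / 2) ^ 2) * JJ (j + 1) x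
        - (2 * j + 1) * ((1 - x / 2) ^ 2 * (1 + x / 2) ^ 2) * JJ j x) / (2 * j + 3) := by
        rw [eq_div_iff hne, ← h3]; ring
      have e : j + 1 + 1 = j + 2 := by ring
      rw [e, h4, h2 x hx, h2' x hx]
      simp only [eval_sub, eval_mul, eval_C, eval_X]
      field_simp
      ring

/-- `∫ v^m/√D` -/
noncomputable def Qm (m : ℕ) (x : ℝ) : ℝ := II (fun x s => (x / 2 + (1 - x / 2) * s) ^ m) x

theorem II_sum {ι : Type*} (s : Finset ι) (N : ι → ℝ → ℝ → ℝ) {x : ℝ} (hx : 0 < x)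
    (hN : ∀ i ∈ s, Continuous (N i x)) :
    II (fun x t => ∑ i ∈ s, N i x t) x = ∑ i ∈ s, II (N i) x := by
  simp only [II]
  rw [← intervalIntegral.integral_finsetSum]
  · congr 1
    ext φ
    rw [Finset.sum_div]
  · intro i hi
    exact II_integrable (hN i hi) hx

theorem II_odd_pow {x : ℝ} (c : ℝ) (i : ℕ) :
    II (fun x s => c * ((1 - x / 2) * s) ^ (2 * i + 1)) x = 0 := by
  apply II_odd
  intro s
  have : ((1 - x / 2) * -s) ^ (2 * i + 1) = -((1 - x / 2) * s) ^ (2 * i + 1) := by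
    rw [mul_neg, Odd.neg_pow ⟨i, rfl⟩]
  rw [this]; ring

theorem sum_even (f : ℕ → ℝ) (h : ∀ i, f (2 * i + 1) = 0) (M : ℕ) :
    ∑ i ∈ Finset.range (2 * M + 1), f i = ∑ i ∈ Finset.range (M + 1), f (2 * i) := by
  induction M with
  | zero => simp
  | succ M ih =>
    have e : 2 * (M + 1) + 1 = 2 * M + 1 + 1 + 1 := by ring
    rw [e, Finset.sum_range_succ, Finset.sum_range_succ, ih, Finset.sum_range_succ _ (M + 1), h]
    have e2 : 2 * M + 1 + 1 = 2 * (M + 1) := by ring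
    rw [e2]; ring

theorem sum_odd (f : ℕ → ℝ) (h : ∀ i, f (2 * i) = 0) (M : ℕ) :
    ∑ i ∈ Finset.range (2 * M + 2), f i = ∑ i ∈ Finset.range (M + 1), f (2 * i + 1) := by
  induction M with
  | zero =>
    have := h 0
    simp only [mul_zero] at this
    simp [Finset.sum_range_succ, this]
  | succ M ih =>
    have e : 2 * (M + 1) + 2 = 2 * M + 2 + 1 + 1 := by ring
    rw [e, Finset.sum_range_succ, Finset.sum_range_succ, ih, Finset.sum_range_succ _ (M + 1)]
    have e2 : 2 * M + 2 = 2 * (M + 1) := by ring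
    rw [e2, h]; ring

theorem Qm_expand (m : ℕ) {x : ℝ} (hx : 0 < x) :
    Qm m x = ∑ i ∈ Finset.range (m + 1),
      II (fun x s => ((x / 2) ^ i * (m.choose i)) * ((1 - x / 2) * s) ^ (m - i)) x := by
  rw [Qm, ← II_sum _ (fun i x s => ((x / 2) ^ i * (m.choose i)) * ((1 - x / 2) * s) ^ (m - i)) hx]
  · congr 1
    ext x s
    rw [add_pow]
    apply Finset.sum_congr rfl
    intro i _
    ring
  · intro i _
    fun_prop

theorem II_const_mul' (c : ℝ → ℝ) (N : ℝ → ℝ → ℝ) (x : ℝ) :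
    II (fun x s => c x * N x s) x = c x * II N x := by
  rw [II, II, ← intervalIntegral.integral_const_mul]
  congr 1
  ext φ
  rw [mul_div_assoc]

theorem Cl_Qm_even (M : ℕ) : Cl M 1 (Qm (2 * M)) := by
  have h1 : Cl M (∑ i ∈ Finset.range (M + 1), ((2 * M).choose (2 * i) : ℝ) *
      (if i = 0 then 1 else 0)) (fun x => ∑ i ∈ Finset.range (M + 1),
        ((2 * M).choose (2 * i) : ℝ) * ((x ^ 2 / 4) ^ i * JJ (M - i) x)) := by
    apply Cl_sum
    intro i hi
    rw [Finset.mem_range] at hi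
    apply Cl_smul
    have h2 := Cl_zpow (Cl_JJ (M - i)).1 i
    have e : M - i + i = M := by omega
    rw [e] at h2
    exact h2
  have h3 : (∑ i ∈ Finset.range (M + 1), ((2 * M).choose (2 * i) : ℝ) *
      (if i = 0 then 1 else 0)) = 1 := by
    rw [Finset.sum_eq_single 0]
    · simp
    · intro i _ hi
      rw [if_neg hi, mul_zero]
    · intro h; exact absurd (Finset.mem_range.mpr (by omega)) h
  rw [h3] at h1
  obtain ⟨A, B, hA, hB, hev, hfun⟩ := h1
  refine ⟨A, B, hA, hB, hev, fun x hx => ?_⟩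
  rw [← hfun x hx, Qm_expand _ hx, sum_even]
  · apply Finset.sum_congr rfl
    intro i hi
    rw [Finset.mem_range] at hi
    rw [II_const_mul' (fun x => (x / 2) ^ (2 * i) * ((2 * M).choose (2 * i) : ℝ))
      (fun x s => ((1 - x / 2) * s) ^ (2 * M - 2 * i))]
    have e : 2 * M - 2 * i = 2 * (M - i) := by omega
    rw [e, JJ]
    have e2 : (x ^ 2 / 4) ^ i = (x / 2) ^ (2 * i) := by
      rw [pow_mul]; congr 1; ring
    rw [e2]; ring
  · intro i
    by_cases hi : 2 * i + 1 ≤ 2 * M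
    · have e : 2 * M - (2 * i + 1) = 2 * (M - i - 1) + 1 := by omega
      rw [e, II_const_mul' (fun x => (x / 2) ^ (2 * i + 1) * ((2 * M).choose (2 * i + 1) : ℝ))
        (fun x s => ((1 - x / 2) * s) ^ (2 * (M - i - 1) + 1))]
      have := II_odd_pow (x := x) 1 (M - i - 1)
      simp only [one_mul] at this
      rw [this, mul_zero]
    · rw [Nat.choose_eq_zero_of_lt (by omega)]
      simp [II]

theorem Cl_Qm_odd (M : ℕ) : ∃ f, Cl M (2 * M + 1) f ∧
    ∀ x, 0 < x → Qm (2 * M + 1) x = x / 2 * f x := by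
  have h1 : Cl M (∑ i ∈ Finset.range (M + 1), ((2 * M + 1).choose (2 * i + 1) : ℝ) *
      (if i = 0 then 1 else 0)) (fun x => ∑ i ∈ Finset.range (M + 1),
        ((2 * M + 1).choose (2 * i + 1) : ℝ) * ((x ^ 2 / 4) ^ i * JJ (M - i) x)) := by
    apply Cl_sum
    intro i hi
    rw [Finset.mem_range] at hi
    apply Cl_smul
    have h2 := Cl_zpow (Cl_JJ (M - i)).1 i
    have e : M - i + i = M := by omega
    rw [e] at h2
    exact h2
  have h3 : (∑ i ∈ Finset.range (M + 1), ((2 * M + 1).choose (2 * i + 1) : ℝ) *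
      (if i = 0 then 1 else 0)) = 2 * M + 1 := by
    rw [Finset.sum_eq_single 0]
    · simp
    · intro i _ hi
      rw [if_neg hi, mul_zero]
    · intro h; exact absurd (Finset.mem_range.mpr (by omega)) h
  rw [h3] at h1
  refine ⟨_, h1, fun x hx => ?_⟩
  rw [Qm_expand _ hx]
  have e0 : 2 * M + 1 + 1 = 2 * M + 2 := by ring
  rw [e0, sum_odd, Finset.mul_sum]
  · apply Finset.sum_congr rfl
    intro i hi
    rw [Finset.mem_range] at hi
    rw [II_const_mul' (fun x => (x / 2) ^ (2 * i + 1) * ((2 * M + 1).choose (2 * i + 1) : ℝ))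
      (fun x s => ((1 - x / 2) * s) ^ (2 * M + 1 - (2 * i + 1)))]
    have e : 2 * M + 1 - (2 * i + 1) = 2 * (M - i) := by omega
    rw [e, JJ]
    have e2 : (x ^ 2 / 4) ^ i = (x / 2) ^ (2 * i) := by
      rw [pow_mul]; congr 1; ring
    rw [e2, pow_succ]; ring
  · intro i
    by_cases hi : 2 * i ≤ 2 * M + 1
    · have e : 2 * M + 1 - 2 * i = 2 * (M - i) + 1 := by omega
      rw [e, II_const_mul' (fun x => (x / 2) ^ (2 * i) * ((2 * M + 1).choose (2 * i) : ℝ))
        (fun x s => ((1 - x / 2) * s) ^ (2 * (M - i) + 1))]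
      have := II_odd_pow (x := x) 1 (M - i)
      simp only [one_mul] at this
      rw [this, mul_zero]
    · rw [Nat.choose_eq_zero_of_lt (by omega)]
      simp [II]

/-- `∫ G(v)/√D` for a polynomial `G` -/
noncomputable def IG (G : ℝ[X]) (x : ℝ) : ℝ := II (fun x s => G.eval (x / 2 + (1 - x / 2) * s)) x

theorem IG_even (H : ℝ[X]) (N : ℕ) (hH : H.natDegree ≤ N) :
    Cl N (H.eval 1) (IG (expand ℝ 2 H)) := by
  have h1 : Cl N (∑ j ∈ Finset.range (N + 1), H.coeff j * 1)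
      (fun x => ∑ j ∈ Finset.range (N + 1), H.coeff j * Qm (2 * j) x) := by
    apply Cl_sum
    intro j hj
    rw [Finset.mem_range] at hj
    exact Cl_smul _ (Cl_mono (by omega) (Cl_Qm_even j))
  have h2 : (∑ j ∈ Finset.range (N + 1), H.coeff j * 1) = H.eval 1 := by
    rw [eval_eq_sum_range' (n := N + 1) (by omega)]
    simp
  rw [h2] at h1
  obtain ⟨A, B, hA, hB, hev, hfun⟩ := h1
  refine ⟨A, B, hA, hB, hev, fun x hx => ?_⟩
  rw [← hfun x hx, IG]
  have h3 : (fun x s => (expand ℝ 2 H).eval (x / 2 + (1 - x / 2) * s)) = fun (x s : ℝ) =>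
      ∑ j ∈ Finset.range (N + 1), H.coeff j * (x / 2 + (1 - x / 2) * s) ^ (2 * j) := by
    ext x s
    rw [expand_eval, eval_eq_sum_range' (n := N + 1) (by omega)]
    apply Finset.sum_congr rfl
    intro j _
    rw [pow_mul]
  rw [h3, II_sum _ (fun j (x s : ℝ) => H.coeff j * (x / 2 + (1 - x / 2) * s) ^ (2 * j)) hx
    (fun j _ => by fun_prop)]
  apply Finset.sum_congr rfl
  intro j _
  rw [II_const_mul (H.coeff j) (fun x s => (x / 2 + (1 - x / 2) * s) ^ (2 * j)), Qm]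

theorem IG_odd (H : ℝ[X]) (N : ℕ) (hH : H.natDegree ≤ N) :
    ∃ f, Cl N ((derivative (X * expand ℝ 2 H)).eval 1) f ∧
      ∀ x, 0 < x → IG (X * expand ℝ 2 H) x = x / 2 * f x := by
  choose g hg hg' using Cl_Qm_odd
  have h1 : Cl N (∑ j ∈ Finset.range (N + 1), H.coeff j * (2 * j + 1))
      (fun x => ∑ j ∈ Finset.range (N + 1), H.coeff j * g j x) := by
    apply Cl_sum
    intro j hj
    rw [Finset.mem_range] at hj
    exact Cl_smul _ (Cl_mono (by omega) (hg j))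
  have hpoly : X * expand ℝ 2 H = ∑ j ∈ Finset.range (N + 1), C (H.coeff j) * X ^ (2 * j + 1) := by
    conv_lhs => rw [H.as_sum_range' (N + 1) (by omega)]
    rw [map_sum, Finset.mul_sum]
    apply Finset.sum_congr rfl
    intro j _
    rw [← C_mul_X_pow_eq_monomial, map_mul, expand_C, map_pow, expand_X, ← pow_mul]
    ring
  have h2 : (∑ j ∈ Finset.range (N + 1), H.coeff j * (2 * (j : ℝ) + 1)) =
      (derivative (X * expand ℝ 2 H)).eval 1 := by
    rw [hpoly, derivative_sum, eval_finsetSum]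
    apply Finset.sum_congr rfl
    intro j _
    rw [derivative_C_mul_X_pow]
    simp
  rw [h2] at h1
  refine ⟨_, h1, fun x hx => ?_⟩
  rw [IG]
  have h3 : (fun x s => (X * expand ℝ 2 H).eval (x / 2 + (1 - x / 2) * s)) = fun (x s : ℝ) =>
      ∑ j ∈ Finset.range (N + 1), H.coeff j * (x / 2 + (1 - x / 2) * s) ^ (2 * j + 1) := by
    ext x s
    rw [hpoly, eval_finsetSum]
    simp
  rw [h3, II_sum _ (fun j (x s : ℝ) => H.coeff j * (x / 2 + (1 - x / 2) * s) ^ (2 * j + 1)) hx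
    (fun j _ => by fun_prop), Finset.mul_sum]
  apply Finset.sum_congr rfl
  intro j _
  have h4 := hg' j x hx
  rw [Qm] at h4
  rw [II_const_mul (H.coeff j) (fun x s => (x / 2 + (1 - x / 2) * s) ^ (2 * j + 1)), h4]
  ring

open Polynomial.Chebyshev in
theorem U_parity (n : ℕ) :
    (∃ H : ℝ[X], H.natDegree ≤ n ∧ U ℝ ((2 * n : ℕ) : ℤ) = expand ℝ 2 H) ∧
    (∃ H : ℝ[X], H.natDegree ≤ n ∧ U ℝ ((2 * n + 1 : ℕ) : ℤ) = X * expand ℝ 2 H) := by
  induction n with
  | zero =>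
    constructor
    · exact ⟨1, by simp, by simp⟩
    · refine ⟨C 2, by simp, ?_⟩
      rw [expand_C]
      have : (Polynomial.C 2 : ℝ[X]) = 2 := rfl
      rw [this]
      simp [U_one]
      ring
  | succ n ih =>
    obtain ⟨⟨H, hH, hU⟩, ⟨H', hH', hU'⟩⟩ := ih
    have h2 : U ℝ ((2 * (n + 1) : ℕ) : ℤ) = expand ℝ 2 (2 * (X * H') - H) := by
      have h3 := U_add_two ℝ ((2 * n : ℕ) : ℤ)
      have e1 : (((2 * n : ℕ) : ℤ) + 2) = ((2 * (n + 1) : ℕ) : ℤ) := by push_cast; ring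
      have e2 : (((2 * n : ℕ) : ℤ) + 1) = ((2 * n + 1 : ℕ) : ℤ) := by push_cast; ring
      rw [e1, e2, hU, hU'] at h3
      rw [h3, map_sub, map_mul, map_mul, expand_X, map_ofNat]
      ring
    have hdeg2 : (2 * (X * H') - H : ℝ[X]).natDegree ≤ n + 1 := by
      refine (natDegree_sub_le _ _).trans (max_le ?_ (by omega))
      have e : (2 * (X * H') : ℝ[X]) = C 2 * (X * H') := rfl
      rw [e]
      refine (natDegree_C_mul_le _ _).trans ((natDegree_mul_le).trans ?_)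
      have := natDegree_X_le (R := ℝ)
      omega
    refine ⟨⟨_, hdeg2, h2⟩, ?_⟩
    have h4 := U_add_two ℝ ((2 * n + 1 : ℕ) : ℤ)
    have e1 : (((2 * n + 1 : ℕ) : ℤ) + 2) = ((2 * (n + 1) + 1 : ℕ) : ℤ) := by push_cast; ring
    have e2 : (((2 * n + 1 : ℕ) : ℤ) + 1) = ((2 * (n + 1) : ℕ) : ℤ) := by push_cast; ring
    rw [e1, e2, h2, hU'] at h4
    refine ⟨2 * (2 * (X * H') - H) - H', ?_, ?_⟩
    · refine (natDegree_sub_le _ _).trans (max_le ?_ (by omega))
      have e : (2 * (2 * (X * H') - H) : ℝ[X]) = C 2 * (2 * (X * H') - H) := rfl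
      rw [e]
      exact (natDegree_C_mul_le _ _).trans hdeg2
    · rw [h4, map_sub _ _ H', map_mul _ 2 (2 * (X * H') - H), map_ofNat]
      ring

end Pool.Agent.Helper68_Zeros
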