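import Mathlib
import Pool.Agent.Helper68_Zeros.Class

/-!
The function of the problem and the substitution turning it into `IG ((1 - X²) U_{k-1})`.
-/

set_option autoImplicit false

namespace Pool.Agent.Helper68_Zeros

open Real Set Polynomial MeasureTheory

/-- The function of the problem. -/
noncomputable def F (x : ℝ) (k : ℕ) : ℝ :=
  ∫ l in (0 : ℝ)..arccos (x - 1), sin (k * arccos (x - cos l))

theorem sin_arccos_mul (n : ℕ) {u : ℝ} (hu1 : -1 ≤ u) (hu2 : u ≤ 1) :
    sin (((n + 1 : ℕ) : ℝ) * arccos u) = (Chebyshev.U ℝ (n : ℤ)).eval u * √(1 - u ^ 2) := by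
  have h1 := Chebyshev.U_real_cos (arccos u) (n : ℤ)
  rw [cos_arccos hu1 hu2, sin_arccos] at h1
  rw [h1]
  push_cast
  ring_nf

theorem F_eq_IG (n : ℕ) {x : ℝ} (hx : 0 < x) (hx2 : x < 2) :
    F x (n + 1) = IG ((1 - X ^ 2) * Chebyshev.U ℝ (n : ℤ)) x := by
  set a : ℝ := 1 - x / 2 with ha
  set b : ℝ := 1 + x / 2 with hb
  have ha0 : 0 < a := by rw [ha]; linarith
  have hab : a < b := by rw [ha, hb]; linarith
  have hb0 : 0 < b := by linarith
  have hba : ∀ s : ℝ, s ≤ 1 → 0 < b - a * s := by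
    intro s hs
    nlinarith
  have hba' : ∀ s : ℝ, -1 ≤ s → 0 < b + a * s := by
    intro s hs
    nlinarith
  set f : ℝ → ℝ := fun φ => arccos (x / 2 - a * sin φ) with hf
  set f' : ℝ → ℝ := fun φ => √(a * (1 - sin φ) / (b - a * sin φ)) with hf'
  set g : ℝ → ℝ := fun l => sin (((n + 1 : ℕ) : ℝ) * arccos (x - cos l)) with hg
  have hπ : -(π / 2) < π / 2 := by linarith [pi_pos]
  have hfc : Continuous f := by
    rw [hf]
    exact continuous_arccos.comp (by fun_prop)
  have hf'c : Continuous f' := by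
    rw [hf']
    apply Continuous.sqrt
    apply Continuous.div
    · fun_prop
    · fun_prop
    · intro φ
      exact (hba _ (sin_le_one φ)).ne'
  have hgc : Continuous g := by
    rw [hg]
    exact continuous_sin.comp (continuous_const.mul (continuous_arccos.comp (by fun_prop)))
  have hder : ∀ φ ∈ Ioo (min (-(π / 2)) (π / 2)) (max (-(π / 2)) (π / 2)),
      HasDerivWithinAt f (f' φ) (Ioi φ) φ := by
    intro φ hφ
    rw [min_eq_left hπ.le, max_eq_right hπ.le] at hφ
    have hc : 0 < cos φ := cos_pos_of_mem_Ioo hφ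
    have hs : sin φ ^ 2 + cos φ ^ 2 = 1 := sin_sq_add_cos_sq φ
    have hs1 : sin φ < 1 := by nlinarith [sin_le_one φ]
    have hs2 : -1 < sin φ := by nlinarith [neg_one_le_sin φ]
    have hv1 : x / 2 - a * sin φ ≠ -1 := by
      have : 0 < b - a * sin φ := hba _ hs1.le
      intro h
      rw [hb] at this
      linarith
    have hv2 : x / 2 - a * sin φ ≠ 1 := by
      intro h
      have : 0 < a * (1 + sin φ) := mul_pos ha0 (by linarith)
      have h2 : a * (1 + sin φ) = 1 - (x / 2 - a * sin φ) := by rw [ha]; ring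
      rw [h2, h] at this
      linarith
    have hd1 : HasDerivAt (fun φ => x / 2 - a * sin φ) (-(a * cos φ)) φ :=
      ((hasDerivAt_sin φ).const_mul a).const_sub (x / 2)
    have hd2 := HasDerivAt.comp (h₂ := arccos) φ (hasDerivAt_arccos hv1 hv2) hd1
    have hval : -(1 / √(1 - (x / 2 - a * sin φ) ^ 2)) * -(a * cos φ) = f' φ := by
      have h1 : 1 - (x / 2 - a * sin φ) ^ 2 = a * (1 + sin φ) * (b - a * sin φ) := by
        rw [ha, hb]; ring
      have h2 : 0 < 1 - (x / 2 - a * sin φ) ^ 2 := by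
        rw [h1]
        exact mul_pos (mul_pos ha0 (by linarith)) (hba _ hs1.le)
      have h3 : -(1 / √(1 - (x / 2 - a * sin φ) ^ 2)) * -(a * cos φ) =
          a * cos φ / √(1 - (x / 2 - a * sin φ) ^ 2) := by ring
      rw [h3, hf', div_eq_iff (by positivity)]
      have h4 : a * cos φ = √((a * cos φ) ^ 2) := (sqrt_sq (by positivity)).symm
      rw [h4, ← sqrt_mul (div_nonneg (mul_nonneg ha0.le (by linarith)) (hba _ hs1.le).le)]
      congr 1
      have h5 := (hba _ hs1.le).ne'
      rw [h1]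
      field_simp
      linear_combination hs
    exact (hd2.congr_deriv hval).hasDerivWithinAt
  have hsub := intervalIntegral.integral_comp_mul_deriv''' (a := -(π / 2)) (b := π / 2)
    (f := f) (f' := f') (g := g) hfc.continuousOn hder hgc.continuousOn
    (hgc.continuousOn.integrableOn_compact (isCompact_uIcc.image hfc))
    (((hgc.comp hfc).mul hf'c).continuousOn.integrableOn_compact isCompact_uIcc)
  have hfa : f (-(π / 2)) = 0 := by
    rw [hf]
    simp only [sin_neg, sin_pi_div_two]
    rw [arccos_eq_zero, ha]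
    linarith
  have hfb : f (π / 2) = arccos (x - 1) := by
    rw [hf]
    simp only [sin_pi_div_two]
    congr 1
    rw [ha]; ring
  rw [hfa, hfb] at hsub
  have hF : F x (n + 1) = ∫ u in (0 : ℝ)..arccos (x - 1), g u := by
    rw [F]
  rw [hF, ← hsub, IG, II]
  apply intervalIntegral.integral_congr
  intro φ _
  simp only [Function.comp]
  have hs1 := sin_le_one φ
  have hs2 := neg_one_le_sin φ
  have hcos : cos (f φ) = x / 2 - a * sin φ := by
    rw [hf]
    apply cos_arccos
    · have := hba (sin φ) hs1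
      rw [hb] at this
      linarith
    · nlinarith
  have hu : x - cos (f φ) = x / 2 + a * sin φ := by rw [hcos]; ring
  have hu1 : -1 ≤ x / 2 + a * sin φ := by
    have := hba' (sin φ) hs2
    rw [hb] at this
    linarith
  have hu2 : x / 2 + a * sin φ ≤ 1 := by nlinarith
  have hgf : g (f φ) = (Chebyshev.U ℝ (n : ℤ)).eval (x / 2 + a * sin φ) *
      √(1 - (x / 2 + a * sin φ) ^ 2) := by
    rw [hg]
    simp only []
    rw [hu]
    exact sin_arccos_mul n hu1 hu2
  rw [hgf, eval_mul, eval_sub, eval_one, eval_pow, eval_X, hf']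
  have h1 : 1 - (x / 2 + a * sin φ) ^ 2 = a * (1 - sin φ) * (b + a * sin φ) := by
    rw [ha, hb]; ring
  have hD : DD x (sin φ) = (b + a * sin φ) * (b - a * sin φ) := by
    rw [DD]; ring
  have p1 := hba (sin φ) hs1
  have p2 := hba' (sin φ) hs2
  have p3 : 0 ≤ a * (1 - sin φ) := mul_nonneg ha0.le (by linarith)
  simp only []
  rw [← ha, h1, hD, sqrt_mul p3, sqrt_div p3, sqrt_mul p2.le]
  generalize eval (x / 2 + a * sin φ) (Chebyshev.U ℝ (n : ℤ)) = e
  have q1 : √(b - a * sin φ) ≠ 0 := by positivity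
  have q2 : √(b + a * sin φ) ≠ 0 := by positivity
  have r1 : √(b + a * sin φ) ^ 2 = b + a * sin φ := sq_sqrt p2.le
  have r2 : √(a * (1 - sin φ)) ^ 2 = a * (1 - sin φ) := sq_sqrt p3
  field_simp
  rw [r2, r1]
  ring

end Pool.Agent.Helper68_Zeros
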