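import Mathlib
import Pool.Agent.Helper68_Zeros.Subst

/-!
Upper bound for the number of zeros, and simplicity.
-/

set_option autoImplicit false

namespace Pool.Agent.Helper68_Zeros

open Real Set Polynomial MeasureTheory

theorem natDegree_le_of_mem {B : ℝ[X]} {N : ℕ} (h : B ∈ degreeLT ℝ (N + 1)) :
    B.natDegree ≤ N := by
  rw [mem_degreeLT, degree_lt_iff_coeff_zero] at h
  rw [natDegree_le_iff_coeff_eq_zero]
  intro m hm
  exact h m (by omega)

theorem factor_one {A : ℝ[X]} {N : ℕ} (hA : A.natDegree ≤ N + 1) (h1 : A.eval 1 = 0) :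
    ∃ A1 : ℝ[X], A = (1 - X) * A1 ∧ A1.natDegree ≤ N := by
  obtain ⟨A', hA'⟩ := dvd_iff_isRoot.mpr h1
  refine ⟨-A', by rw [hA']; simp; ring, ?_⟩
  rw [natDegree_neg]
  by_cases h0 : A' = 0
  · rw [h0]; simp
  · have h2 : A.natDegree = 1 + A'.natDegree := by
      rw [hA', natDegree_mul (X_sub_C_ne_zero 1) h0, natDegree_X_sub_C]
    omega

/-- the map `x ↦ 1 - x²/4` is injective on positive numbers -/
theorem w_inj {x y : ℝ} (hx : 0 < x) (hy : 0 < y) (h : 1 - x ^ 2 / 4 = 1 - y ^ 2 / 4) : x = y := by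
  have h1 : x ^ 2 = y ^ 2 := by linarith
  exact (pow_left_inj₀ hx.le hy.le two_ne_zero).mp h1

/-- representation for odd `k` -/
theorem rep_odd (n : ℕ) : ∃ A B : ℝ[X], A.natDegree ≤ n ∧ B.natDegree ≤ n ∧ A.eval 0 = 0 ∧
    ∀ x, 0 < x → x < 2 → F x (2 * n + 1) = π / 2 * (x ^ 2 / 4) *
      ev ((A : PowerSeries ℝ) * R0 + (B : PowerSeries ℝ) * T0) (1 - x ^ 2 / 4) := by
  obtain ⟨⟨H, hH, hU⟩, -⟩ := U_parity n
  have hpoly : (1 - X ^ 2) * Chebyshev.U ℝ ((2 * n : ℕ) : ℤ) = expand ℝ 2 ((1 - X) * H) := by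
    rw [map_mul, hU, map_sub, map_one, expand_X]
  have hdeg : ((1 - X) * H : ℝ[X]).natDegree ≤ n + 1 := by
    refine natDegree_mul_le.trans ?_
    have : (1 - X : ℝ[X]).natDegree ≤ 1 := by
      refine (natDegree_sub_le _ _).trans ?_
      simp
    omega
  obtain ⟨A, B, hA, hB, hev, hfun⟩ := IG_even _ (n + 1) hdeg
  have hev0 : A.eval 1 = 0 := by rw [hev]; simp
  obtain ⟨A1, hA1, hA1d⟩ := factor_one (natDegree_le_of_mem hA) hev0
  refine ⟨A1, B, hA1d, natDegree_le_of_mem hB, ?_, ?_⟩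
  · have h2 := hfun 2 two_pos
    have e : (1 - 2 ^ 2 / 4 : ℝ) = 0 := by norm_num
    rw [e, F1_two, I0_two, mul_zero, add_zero] at h2
    have h3 : IG (expand ℝ 2 ((1 - X) * H)) 2 = 0 := by
      rw [IG, II]
      have : ∀ φ : ℝ, (expand ℝ 2 ((1 - X) * H)).eval (2 / 2 + (1 - 2 / 2) * sin φ) /
          √(DD 2 (sin φ)) = 0 := by
        intro φ
        have e2 : (2 / 2 + (1 - 2 / 2) * sin φ : ℝ) = 1 := by ring
        rw [e2, expand_eval]
        simp
      simp only [this]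
      simp
    rw [h3] at h2
    have h4 : A.eval 0 = 0 := by
      have : (π / 2 : ℝ) ≠ 0 := by positivity
      rcases mul_eq_zero.mp h2.symm with h | h
      · exact h
      · exact absurd h this
    rw [hA1] at h4
    simpa using h4
  · intro x hx hx2
    rw [F_eq_IG (2 * n) hx hx2, hpoly, hfun x hx, I0_eq hx hx2.le, F1_eq hx hx2.le]
    have hw := w_abs hx hx2.le
    rw [ev_add ((good_coe A1).mul good_R0) ((good_coe B).mul good_T0) hw,
      ev_mul (good_coe A1) good_R0 hw, ev_mul (good_coe B) good_T0 hw, ev_coe, ev_coe,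
      ev_S0 hw, hA1, eval_mul]
    simp only [eval_sub, eval_one, eval_X]
    ring

/-- representation for even `k` -/
theorem rep_even (n : ℕ) : ∃ A B : ℝ[X], A.natDegree ≤ n + 1 ∧ B.natDegree ≤ n ∧
    A.eval 0 = 0 ∧ A.eval 1 = -2 * (2 * n + 2) ∧
    (∀ x, 0 < x → x < 2 → F x (2 * n + 2) = π / 2 * (x / 2) *
      ev ((A : PowerSeries ℝ) * R0 + (B : PowerSeries ℝ) * S0) (1 - x ^ 2 / 4)) ∧
    (∀ x, 0 < x → x < 2 → F x (2 * n + 2) = (x / 2) *
      (A.eval (1 - x ^ 2 / 4) * I0 x + B.eval (1 - x ^ 2 / 4) * F1 x)) := by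
  obtain ⟨-, ⟨H, hH, hU⟩⟩ := U_parity n
  have hpoly : (1 - X ^ 2) * Chebyshev.U ℝ ((2 * n + 1 : ℕ) : ℤ) =
      X * expand ℝ 2 ((1 - X) * H) := by
    rw [map_mul, hU, map_sub, map_one, expand_X]; ring
  have hdeg : ((1 - X) * H : ℝ[X]).natDegree ≤ n + 1 := by
    refine natDegree_mul_le.trans ?_
    have : (1 - X : ℝ[X]).natDegree ≤ 1 := by
      refine (natDegree_sub_le _ _).trans ?_
      simp
    omega
  obtain ⟨f, ⟨A, B, hA, hB, hev, hfun⟩, hf⟩ := IG_odd _ (n + 1) hdeg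
  have hB' := natDegree_le_of_mem hB
  have hA' := natDegree_le_of_mem hA
  have hev1 : A.eval 1 = -2 * (2 * n + 2) := by
    rw [hev, ← hpoly]
    rw [derivative_mul, eval_add, eval_mul, eval_mul]
    have h1 : (Chebyshev.U ℝ ((2 * n + 1 : ℕ) : ℤ)).eval 1 = 2 * n + 2 := by
      rw [Chebyshev.U_eval_one]
      push_cast; ring
    rw [h1]
    simp
    ring
  have hF : ∀ x, 0 < x → x < 2 → F x (2 * n + 2) = (x / 2) *
      (A.eval (1 - x ^ 2 / 4) * I0 x + B.eval (1 - x ^ 2 / 4) * F1 x) := by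
    intro x hx hx2
    have e : 2 * n + 2 = 2 * n + 1 + 1 := by ring
    rw [e, F_eq_IG (2 * n + 1) hx hx2, hpoly, hf x hx, hfun x hx]
  refine ⟨A, B, hA', hB', ?_, hev1, ?_, hF⟩
  · have h2 := hfun 2 two_pos
    have e : (1 - 2 ^ 2 / 4 : ℝ) = 0 := by norm_num
    rw [e, F1_two, I0_two, mul_zero, add_zero] at h2
    have h3 : IG (X * expand ℝ 2 ((1 - X) * H)) 2 = 0 := by
      rw [IG, II]
      have : ∀ φ : ℝ, (X * expand ℝ 2 ((1 - X) * H)).eval (2 / 2 + (1 - 2 / 2) * sin φ) /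
          √(DD 2 (sin φ)) = 0 := by
        intro φ
        have e2 : (2 / 2 + (1 - 2 / 2) * sin φ : ℝ) = 1 := by ring
        rw [e2, eval_mul, expand_eval]
        simp
      simp only [this]
      simp
    have h5 := hf 2 two_pos
    rw [h3, h2] at h5
    have : (π / 2 : ℝ) ≠ 0 := by positivity
    have h6 : A.eval 0 * (π / 2) = 0 := by linarith
    rcases mul_eq_zero.mp h6 with h | h
    · exact h
    · exact absurd h this
  · intro x hx hx2
    rw [hF x hx hx2, I0_eq hx hx2.le, F1_eq hx hx2.le]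
    have hw := w_abs hx hx2.le
    rw [ev_add ((good_coe A).mul good_R0) ((good_coe B).mul good_S0) hw,
      ev_mul (good_coe A) good_R0 hw, ev_mul (good_coe B) good_S0 hw, ev_coe, ev_coe]
    ring

/-- a polynomial with many distinct roots in `[0,1)` vanishes -/
theorem poly_zero {A : ℝ[X]} {N : ℕ} (hA : A.natDegree ≤ N) (T : Finset ℝ)
    (hT : ∀ w ∈ T, A.eval w = 0) (hc : N < T.card) : A = 0 := by
  by_contra h
  have h1 : T ⊆ A.roots.toFinset := by
    intro w hw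
    rw [Multiset.mem_toFinset, mem_roots h]
    exact hT w hw
  have h2 := Finset.card_le_card h1
  have h3 := Multiset.toFinset_card_le A.roots
  have h4 := card_roots' A
  omega

/-- the set of `w`-values -/
noncomputable def wSet (S : Finset ℝ) : Finset ℝ := insert 0 (S.image (fun x => 1 - x ^ 2 / 4))

theorem wSet_card {S : Finset ℝ} (hS : ∀ x ∈ S, 0 < x ∧ x < 2) : (wSet S).card = S.card + 1 := by
  rw [wSet, Finset.card_insert_of_notMem, Finset.card_image_of_injOn]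
  · intro x hx y hy h
    exact w_inj (hS x hx).1 (hS y hy).1 h
  · intro h
    obtain ⟨x, hx, hx'⟩ := Finset.mem_image.mp h
    have := hS x hx
    nlinarith

theorem upper_odd (n : ℕ) (hlow : ∃ S : Finset ℝ, S.card = 2 * n ∧
      ∀ x ∈ S, (0 < x ∧ x < 2) ∧ F x (2 * n + 1) = 0)
    (hne : ∃ x, (0 < x ∧ x < 2) ∧ F x (2 * n + 1) ≠ 0)
    (S : Finset ℝ) (hS : ∀ x ∈ S, (0 < x ∧ x < 2) ∧ F x (2 * n + 1) = 0) :
    S.card ≤ 2 * n ∧ (S.card = 2 * n → ∀ x ∈ S, ∃ d, d ≠ 0 ∧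
      HasDerivAt (fun y => F y (2 * n + 1)) d x) := by
  obtain ⟨A, B, hA, hB, hA0, hF⟩ := rep_odd n
  set ψ : PowerSeries ℝ := (A : PowerSeries ℝ) * R0 + (B : PowerSeries ℝ) * T0 with hψ
  have hψg : Good ψ := ((good_coe A).mul good_R0).add ((good_coe B).mul good_T0)
  have hzero : ∀ x, 0 < x → x < 2 → (F x (2 * n + 1) = 0 ↔ ev ψ (1 - x ^ 2 / 4) = 0) := by
    intro x hx hx2
    rw [hF x hx hx2]
    have h1 : π / 2 * (x ^ 2 / 4) ≠ 0 := by positivity
    rw [mul_eq_zero]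
    tauto
  have hev0 : ev ψ 0 = 0 := by
    have h0 : |(0 : ℝ)| < 1 := by norm_num
    rw [hψ, ev_add ((good_coe A).mul good_R0) ((good_coe B).mul good_T0) h0,
      ev_mul (good_coe A) good_R0 h0, ev_mul (good_coe B) good_T0 h0, ev_coe, hA0, ev_zero T0]
    have hT0 : PowerSeries.constantCoeff T0 = 0 := by
      rw [T0_eq_RA]; simp
    rw [hT0]; ring
  have hT : ∀ S : Finset ℝ, (∀ x ∈ S, (0 < x ∧ x < 2) ∧ F x (2 * n + 1) = 0) →
      ∀ w ∈ wSet S, w ∈ Set.Ico (0 : ℝ) 1 ∧ ev ψ w = 0 := by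
    intro S hS w hw
    rw [wSet, Finset.mem_insert] at hw
    rcases hw with rfl | hw
    · exact ⟨by simp, hev0⟩
    · obtain ⟨x, hx, rfl⟩ := Finset.mem_image.mp hw
      have h1 := hS x hx
      exact ⟨w_mem h1.1.1 h1.1.2.le, (hzero x h1.1.1 h1.1.2).mp h1.2⟩
  have hB0 : B ≠ 0 := by
    intro hB0
    obtain ⟨S', hS'c, hS'⟩ := hlow
    have hevA : ∀ w ∈ Set.Ico (0 : ℝ) 1, ev ψ w = A.eval w * ev R0 w := by
      intro w hw
      have hw' : |w| < 1 := by rw [abs_of_nonneg hw.1]; exact hw.2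
      rw [hψ, hB0]
      simp only [Polynomial.coe_zero, zero_mul, add_zero]
      rw [ev_mul (good_coe A) good_R0 hw', ev_coe]
    have hA00 : A = 0 := by
      apply poly_zero hA (wSet S')
      · intro w hw
        have h1 := hT S' hS' w hw
        have h2 := ev_R0_pos h1.1.1 h1.1.2
        rw [hevA w h1.1] at h1
        rcases mul_eq_zero.mp h1.2 with h | h
        · exact h
        · exact absurd h h2.ne'
      · rw [wSet_card (fun x hx => (hS' x hx).1), hS'c]; omega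
    obtain ⟨x, hx, hx'⟩ := hne
    apply hx'
    rw [hzero x hx.1 hx.2, hevA _ (w_mem hx.1 hx.2.le), hA00]
    simp
  have hcount := count_A n A B hA hB hB0 (wSet S) (hT S hS)
  rw [wSet_card (fun x hx => (hS x hx).1)] at hcount
  refine ⟨by omega, fun hc x hx => ?_⟩
  have h1 := hS x hx
  have h2 := hcount.2 (by omega) (1 - x ^ 2 / 4) (by
    rw [wSet, Finset.mem_insert]; right
    exact Finset.mem_image_of_mem _ hx)
  have h3 := (hzero x h1.1.1 h1.1.2).mp h1.2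
  have hd : HasDerivAt (fun y => π / 2 * (y ^ 2 / 4) * ev ψ (1 - y ^ 2 / 4))
      (π / 2 * (x / 2) * ev ψ (1 - x ^ 2 / 4) +
        π / 2 * (x ^ 2 / 4) * (ev (dps ψ) (1 - x ^ 2 / 4) * (-(x / 2)))) x := by
    have e1 : HasDerivAt (fun x : ℝ => π / 2 * (x ^ 2 / 4)) (π / 2 * (x / 2)) x := by
      refine (((hasDerivAt_pow 2 x).div_const 4).const_mul (π / 2)).congr_deriv ?_
      norm_num; ring
    exact e1.fun_mul (hasDerivAt_ev_w hψg h1.1.1 h1.1.2.le)
  have heq : (fun y => F y (2 * n + 1)) =ᶠ[nhds x]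
      (fun y => π / 2 * (y ^ 2 / 4) * ev ψ (1 - y ^ 2 / 4)) := by
    filter_upwards [Ioo_mem_nhds h1.1.1 h1.1.2] with y hy
    exact hF y hy.1 hy.2
  refine ⟨_, ?_, hd.congr_of_eventuallyEq heq⟩
  rw [h3, mul_zero, zero_add]
  have hx0 := h1.1.1
  have : π / 2 * (x ^ 2 / 4) ≠ 0 := by positivity
  exact mul_ne_zero this (mul_ne_zero h2 (by linarith))

theorem upper_even (n : ℕ) (hlow : ∃ S : Finset ℝ, S.card = 2 * n + 1 ∧
      ∀ x ∈ S, (0 < x ∧ x < 2) ∧ F x (2 * n + 2) = 0)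
    (S : Finset ℝ) (hS : ∀ x ∈ S, (0 < x ∧ x < 2) ∧ F x (2 * n + 2) = 0) :
    S.card ≤ 2 * n + 1 ∧ (S.card = 2 * n + 1 → ∀ x ∈ S, ∃ d, d ≠ 0 ∧
      HasDerivAt (fun y => F y (2 * n + 2)) d x) := by
  obtain ⟨A, B, hA, hB, hA0, hA1, hF, -⟩ := rep_even n
  set ψ : PowerSeries ℝ := (A : PowerSeries ℝ) * R0 + (B : PowerSeries ℝ) * S0 with hψ
  have hψg : Good ψ := ((good_coe A).mul good_R0).add ((good_coe B).mul good_S0)
  have hzero : ∀ x, 0 < x → x < 2 → (F x (2 * n + 2) = 0 ↔ ev ψ (1 - x ^ 2 / 4) = 0) := by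
    intro x hx hx2
    rw [hF x hx hx2]
    have h1 : π / 2 * (x / 2) ≠ 0 := by positivity
    rw [mul_eq_zero]
    tauto
  have hev0 : ev ψ 0 = 0 := by
    have h0 : |(0 : ℝ)| < 1 := by norm_num
    rw [hψ, ev_add ((good_coe A).mul good_R0) ((good_coe B).mul good_S0) h0,
      ev_mul (good_coe A) good_R0 h0, ev_mul (good_coe B) good_S0 h0, ev_coe, hA0, ev_zero S0]
    have hS0 : PowerSeries.constantCoeff S0 = 0 := by simp [S0]
    rw [hS0]; ring
  have hT : ∀ S : Finset ℝ, (∀ x ∈ S, (0 < x ∧ x < 2) ∧ F x (2 * n + 2) = 0) →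
      ∀ w ∈ wSet S, w ∈ Set.Ico (0 : ℝ) 1 ∧ ev ψ w = 0 := by
    intro S hS w hw
    rw [wSet, Finset.mem_insert] at hw
    rcases hw with rfl | hw
    · exact ⟨by simp, hev0⟩
    · obtain ⟨x, hx, rfl⟩ := Finset.mem_image.mp hw
      have h1 := hS x hx
      exact ⟨w_mem h1.1.1 h1.1.2.le, (hzero x h1.1.1 h1.1.2).mp h1.2⟩
  have hB0 : B ≠ 0 := by
    intro hB0
    obtain ⟨S', hS'c, hS'⟩ := hlow
    have hA00 : A = 0 := by
      apply poly_zero hA (wSet S')
      · intro w hw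
        have h1 := hT S' hS' w hw
        have h2 := ev_R0_pos h1.1.1 h1.1.2
        have hw' : |w| < 1 := by rw [abs_of_nonneg h1.1.1]; exact h1.1.2
        have h3 : ev ψ w = A.eval w * ev R0 w := by
          rw [hψ, hB0]
          simp only [Polynomial.coe_zero, zero_mul, add_zero]
          rw [ev_mul (good_coe A) good_R0 hw', ev_coe]
        rw [h3] at h1
        rcases mul_eq_zero.mp h1.2 with h | h
        · exact h
        · exact absurd h h2.ne'
      · rw [wSet_card (fun x hx => (hS' x hx).1), hS'c]; omega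
    rw [hA00] at hA1
    simp only [eval_zero] at hA1
    have : (0 : ℝ) < 2 * n + 2 := by positivity
    linarith
  have hcount := count_B n A B hA hB hB0 (wSet S) (hT S hS)
  rw [wSet_card (fun x hx => (hS x hx).1)] at hcount
  refine ⟨by omega, fun hc x hx => ?_⟩
  have h1 := hS x hx
  have h2 := hcount.2 (by omega) (1 - x ^ 2 / 4) (by
    rw [wSet, Finset.mem_insert]; right
    exact Finset.mem_image_of_mem _ hx)
  have h3 := (hzero x h1.1.1 h1.1.2).mp h1.2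
  have hd : HasDerivAt (fun y => π / 2 * (y / 2) * ev ψ (1 - y ^ 2 / 4))
      (π / 2 * (1 / 2) * ev ψ (1 - x ^ 2 / 4) +
        π / 2 * (x / 2) * (ev (dps ψ) (1 - x ^ 2 / 4) * (-(x / 2)))) x := by
    have e1 : HasDerivAt (fun x : ℝ => π / 2 * (x / 2)) (π / 2 * (1 / 2)) x :=
      ((hasDerivAt_id x).div_const 2).const_mul (π / 2)
    exact e1.fun_mul (hasDerivAt_ev_w hψg h1.1.1 h1.1.2.le)
  have heq : (fun y => F y (2 * n + 2)) =ᶠ[nhds x]
      (fun y => π / 2 * (y / 2) * ev ψ (1 - y ^ 2 / 4)) := by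
    filter_upwards [Ioo_mem_nhds h1.1.1 h1.1.2] with y hy
    exact hF y hy.1 hy.2
  refine ⟨_, ?_, hd.congr_of_eventuallyEq heq⟩
  rw [h3, mul_zero, zero_add]
  have hx0 := h1.1.1
  have : π / 2 * (x / 2) ≠ 0 := by positivity
  exact mul_ne_zero this (mul_ne_zero h2 (by linarith))

end Pool.Agent.Helper68_Zeros
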