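import Mathlib
import Pool.Agent.Helper68_Zeros.Upper

/-!
Sign of `F` at `1 + cos(mπ/k)`.
-/

set_option autoImplicit false

namespace Pool.Agent.Helper68_Zeros

open Real Set MeasureTheory

/-- the substitution function -/
noncomputable def ff (x φ : ℝ) : ℝ := arccos (x / 2 - (1 - x / 2) * sin φ)
/-- its derivative -/
noncomputable def ff' (x φ : ℝ) : ℝ :=
  √((1 - x / 2) * (1 - sin φ) / ((1 + x / 2) - (1 - x / 2) * sin φ))

theorem ff_cont (x : ℝ) : Continuous (ff x) := by
  unfold ff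
  exact continuous_arccos.comp (by fun_prop)

theorem den_pos {x s : ℝ} (hx : 0 < x) (hx2 : x < 2) (hs : s ≤ 1) :
    0 < (1 + x / 2) - (1 - x / 2) * s := by nlinarith

theorem ff'_cont {x : ℝ} (hx : 0 < x) (hx2 : x < 2) : Continuous (ff' x) := by
  unfold ff'
  apply Continuous.sqrt
  apply Continuous.div
  · fun_prop
  · fun_prop
  · intro φ
    exact (den_pos hx hx2 (sin_le_one φ)).ne'

theorem ff_hasDerivAt {x : ℝ} (hx : 0 < x) (hx2 : x < 2) {φ : ℝ} (hφ : φ ∈ Ioo (-(π / 2)) (π / 2)) :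
    HasDerivAt (ff x) (ff' x φ) φ := by
  set a : ℝ := 1 - x / 2 with ha
  set b : ℝ := 1 + x / 2 with hb
  have ha0 : 0 < a := by rw [ha]; linarith
  have hba : ∀ s : ℝ, s ≤ 1 → 0 < b - a * s := fun s hs => den_pos hx hx2 hs
  have hc : 0 < cos φ := cos_pos_of_mem_Ioo hφ
  have hs : sin φ ^ 2 + cos φ ^ 2 = 1 := sin_sq_add_cos_sq φ
  have hs1 : sin φ < 1 := by nlinarith [sin_le_one φ]
  have hs2 : -1 < sin φ := by nlinarith [neg_one_le_sin φ]
  have hv1 : x / 2 - a * sin φ ≠ -1 := by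
    have : 0 < b - a * sin φ := hba _ hs1.le
    intro h
    rw [hb] at this
    linarith
  have hv2 : x / 2 - a * sin φ ≠ 1 := by
    intro h
    have : 0 < a * (1 + sin φ) := mul_pos ha0 (by linarith)
    have h2 : a * (1 + sin φ) = 1 - (x / 2 - a * sin φ) := by rw [ha]; ring
    rw [h2, h] at this
    linarith
  have hd1 : HasDerivAt (fun φ => x / 2 - a * sin φ) (-(a * cos φ)) φ :=
    ((hasDerivAt_sin φ).const_mul a).const_sub (x / 2)
  have hd2 := HasDerivAt.comp (h₂ := arccos) φ (hasDerivAt_arccos hv1 hv2) hd1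
  have hval : -(1 / √(1 - (x / 2 - a * sin φ) ^ 2)) * -(a * cos φ) = ff' x φ := by
    have h1 : 1 - (x / 2 - a * sin φ) ^ 2 = a * (1 + sin φ) * (b - a * sin φ) := by
      rw [ha, hb]; ring
    have h2 : 0 < 1 - (x / 2 - a * sin φ) ^ 2 := by
      rw [h1]
      exact mul_pos (mul_pos ha0 (by linarith)) (hba _ hs1.le)
    have h3 : -(1 / √(1 - (x / 2 - a * sin φ) ^ 2)) * -(a * cos φ) =
        a * cos φ / √(1 - (x / 2 - a * sin φ) ^ 2) := by ring
    rw [h3, ff', ← ha, ← hb, div_eq_iff (by positivity)]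
    have h4 : a * cos φ = √((a * cos φ) ^ 2) := (sqrt_sq (by positivity)).symm
    rw [h4, ← sqrt_mul (div_nonneg (mul_nonneg ha0.le (by linarith)) (hba _ hs1.le).le)]
    congr 1
    have h5 := (hba _ hs1.le).ne'
    rw [h1]
    field_simp
    linear_combination hs
  exact hd2.congr_deriv hval

theorem ff_left {x : ℝ} : ff x (-(π / 2)) = 0 := by
  rw [ff, sin_neg, sin_pi_div_two, arccos_eq_zero]
  linarith

theorem ff_right {x : ℝ} : ff x (π / 2) = arccos (x - 1) := by
  rw [ff, sin_pi_div_two]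
  congr 1; ring

theorem subst_int {x : ℝ} (hx : 0 < x) (hx2 : x < 2) {g : ℝ → ℝ} (hg : Continuous g) :
    ∫ φ in (-(π / 2))..(π / 2), g (ff x φ) * ff' x φ = ∫ t in (0 : ℝ)..arccos (x - 1), g t := by
  have hπ : -(π / 2) < π / 2 := by linarith [pi_pos]
  have hsub := intervalIntegral.integral_comp_mul_deriv''' (a := -(π / 2)) (b := π / 2)
    (f := ff x) (f' := ff' x) (g := g) (ff_cont x).continuousOn
    (fun φ hφ => by
      rw [min_eq_left hπ.le, max_eq_right hπ.le] at hφ
      exact (ff_hasDerivAt hx hx2 hφ).hasDerivWithinAt)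
    hg.continuousOn
    (hg.continuousOn.integrableOn_compact (isCompact_uIcc.image (ff_cont x)))
    (((hg.comp (ff_cont x)).mul (ff'_cont hx hx2)).continuousOn.integrableOn_compact
      isCompact_uIcc)
  rw [ff_left, ff_right] at hsub
  exact hsub

theorem ff_symm {x : ℝ} (hx : 0 < x) (hx2 : x < 2) (φ : ℝ) :
    arccos (x - cos (ff x φ)) = ff x (-φ) := by
  have hs1 := sin_le_one φ
  have hs2 := neg_one_le_sin φ
  have hcos : cos (ff x φ) = x / 2 - (1 - x / 2) * sin φ := by
    rw [ff]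
    apply cos_arccos
    · have := den_pos hx hx2 hs1
      linarith
    · nlinarith
  rw [hcos, ff, sin_neg]
  congr 1; ring

/-- the integrated-by-parts form -/
theorem F_eq_cos (k : ℕ) {x : ℝ} (hx : 0 < x) (hx2 : x < 2) :
    F x k = k * ∫ t in (0 : ℝ)..arccos (x - 1), cos (k * t) * arccos (x - cos t) := by
  have hπ : -(π / 2) < π / 2 := by linarith [pi_pos]
  have h1 : F x k = ∫ φ in (-(π / 2))..(π / 2), sin (k * ff x (-φ)) * ff' x φ := by
    have hg : Continuous (fun l => sin (k * arccos (x - cos l))) :=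
      continuous_sin.comp (continuous_const.mul (continuous_arccos.comp (by fun_prop)))
    rw [F, ← subst_int hx hx2 hg]
    apply intervalIntegral.integral_congr
    intro φ _
    simp only []
    rw [ff_symm hx hx2]
  have h2 : ∫ t in (0 : ℝ)..arccos (x - 1), cos (k * t) * arccos (x - cos t) =
      ∫ φ in (-(π / 2))..(π / 2), cos (k * ff x (-φ)) * ff x φ * ff' x (-φ) := by
    have hg : Continuous (fun t => cos (k * t) * arccos (x - cos t)) :=
      (continuous_cos.comp (continuous_const.mul continuous_id)).mul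
        (continuous_arccos.comp (by fun_prop))
    rw [← subst_int hx hx2 hg]
    have h3 := intervalIntegral.integral_comp_neg (a := -(π / 2)) (b := π / 2)
      (fun φ => cos (k * ff x φ) * ff x (-φ) * ff' x φ)
    rw [neg_neg] at h3
    simp only [neg_neg] at h3
    rw [h3]
    apply intervalIntegral.integral_congr
    intro φ _
    simp only []
    rw [ff_symm hx hx2]
  have c1 : Continuous (fun φ => sin (k * ff x (-φ)) * ff' x φ) :=
    (continuous_sin.comp (continuous_const.mul ((ff_cont x).comp continuous_neg))).mul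
      (ff'_cont hx hx2)
  have c2 : Continuous (fun φ => cos (k * ff x (-φ)) * ff x φ * ff' x (-φ)) :=
    ((continuous_cos.comp (continuous_const.mul ((ff_cont x).comp continuous_neg))).mul
      (ff_cont x)).mul ((ff'_cont hx hx2).comp continuous_neg)
  have h4 : ∫ φ in (-(π / 2))..(π / 2), (sin (k * ff x (-φ)) * ff' x φ -
      k * (cos (k * ff x (-φ)) * ff x φ * ff' x (-φ))) = 0 := by
    rw [intervalIntegral.integral_eq_sub_of_hasDerivAt_of_le hπ.le
      (f := fun φ => sin (k * ff x (-φ)) * ff x φ)]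
    · simp only [neg_neg]
      rw [ff_left]
      simp
    · exact ((continuous_sin.comp (continuous_const.mul ((ff_cont x).comp continuous_neg))).mul
        (ff_cont x)).continuousOn
    · intro φ hφ
      have hφ' : -φ ∈ Ioo (-(π / 2)) (π / 2) := ⟨by linarith [hφ.2], by linarith [hφ.1]⟩
      have d1 := ff_hasDerivAt hx hx2 hφ
      have d2 := HasDerivAt.comp (h₂ := ff x) φ (ff_hasDerivAt hx hx2 hφ') (hasDerivAt_neg φ)
      have d3 := HasDerivAt.comp (h₂ := sin) φ (hasDerivAt_sin _) (d2.const_mul (k : ℝ))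
      refine (d3.fun_mul d1).congr_deriv ?_
      simp only [Function.comp]
      ring
    · exact (c1.sub (continuous_const.mul c2)).intervalIntegrable _ _
  have c3 : Continuous (fun φ => (k : ℝ) * (cos (k * ff x (-φ)) * ff x φ * ff' x (-φ))) :=
    continuous_const.mul c2
  rw [h1, h2, ← intervalIntegral.integral_const_mul, ← sub_eq_zero,
    ← intervalIntegral.integral_sub (c1.intervalIntegrable _ _) (c3.intervalIntegrable _ _)]
  exact h4

/-- key inequality -/
theorem key_ineq {x v1 v2 : ℝ} (hx : 0 < x) (hx2 : x < 2) (h1 : x - 1 < v1) (h12 : v1 < v2)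
    (h2 : v2 < 1) : (1 - v2 ^ 2) * (1 - (x - v1) ^ 2) < (1 - v1 ^ 2) * (1 - (x - v2) ^ 2) := by
  have h3 : 0 < 2 - x * (v1 + v2) + 2 * v1 * v2 := by
    have e1 : 0 < (1 - v1) * (1 - v2) := mul_pos (by linarith) (by linarith)
    have e2 : 0 < (v1 - (x - 1)) * (v2 - (x - 1)) := mul_pos (by linarith) (by linarith)
    have e3 : 0 < (1 - v1) * (v2 - (x - 1)) := mul_pos (by linarith) (by linarith)
    have e4 : 0 < (v1 - (x - 1)) * (1 - v2) := mul_pos (by linarith) (by linarith)
    have e5 : (2 - x) * (2 - x * (v1 + v2) + 2 * v1 * v2) =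
        2 * ((v1 - (x - 1)) * (v2 - (x - 1))) + x * ((1 - v1) * (v2 - (x - 1)) +
          (v1 - (x - 1)) * (1 - v2)) + 2 * ((1 - v1) * (1 - v2)) := by ring
    have e6 : 0 < (2 - x) * (2 - x * (v1 + v2) + 2 * v1 * v2) := by rw [e5]; positivity
    exact (pos_iff_pos_of_mul_pos e6).mp (by linarith)
  have h4 : (1 - v1 ^ 2) * (1 - (x - v2) ^ 2) - (1 - v2 ^ 2) * (1 - (x - v1) ^ 2) =
      (v2 - v1) * x * (2 - x * (v1 + v2) + 2 * v1 * v2) := by ring
  have h5 : 0 < (v2 - v1) * x * (2 - x * (v1 + v2) + 2 * v1 * v2) :=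
    mul_pos (mul_pos (by linarith) hx) h3
  linarith

theorem mu_deriv {x : ℝ} (hx : 0 < x) (hx2 : x < 2) {t : ℝ} (ht : t ∈ Ioo 0 (arccos (x - 1))) :
    (x - 1 < cos t ∧ cos t < 1 ∧ 0 < sin t) ∧
    HasDerivAt (fun t => arccos (x - cos t)) (-(sin t / √(1 - (x - cos t) ^ 2))) t := by
  have hπ : arccos (x - 1) < π := by
    rw [arccos_lt_pi]; linarith
  have htπ : t < π := lt_trans ht.2 hπ
  have h1 : 0 < sin t := sin_pos_of_pos_of_lt_pi ht.1 htπ
  have h2 : x - 1 < cos t := by
    have : cos (arccos (x - 1)) < cos t :=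
      cos_lt_cos_of_nonneg_of_le_pi ht.1.le (arccos_le_pi _) ht.2
    rwa [cos_arccos (by linarith) (by linarith)] at this
  have h3 : cos t < 1 := by
    have := sin_sq_add_cos_sq t
    nlinarith [cos_le_one t]
  refine ⟨⟨h2, h3, h1⟩, ?_⟩
  have hd1 : HasDerivAt (fun t => x - cos t) (sin t) t :=
    ((hasDerivAt_cos t).const_sub x).congr_deriv (by ring)
  have hd2 := HasDerivAt.comp (h₂ := arccos) t
    (hasDerivAt_arccos (by linarith : x - cos t ≠ -1) (by linarith : x - cos t ≠ 1)) hd1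
  exact hd2.congr_deriv (by ring)

theorem mu_strictConcave {x : ℝ} (hx : 0 < x) (hx2 : x < 2) :
    StrictConcaveOn ℝ (Icc 0 (arccos (x - 1))) (fun t => arccos (x - cos t)) := by
  apply StrictAntiOn.strictConcaveOn_of_deriv (convex_Icc _ _)
  · exact (continuous_arccos.comp (by fun_prop)).continuousOn
  · rw [interior_Icc]
    intro s hs t ht hst
    obtain ⟨⟨s1, s2, s3⟩, s4⟩ := mu_deriv hx hx2 hs
    obtain ⟨⟨t1, t2, t3⟩, t4⟩ := mu_deriv hx hx2 ht
    rw [s4.deriv, t4.deriv]
    have hlt : cos t < cos s := by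
      apply cos_lt_cos_of_nonneg_of_le_pi hs.1.le _ hst
      exact ht.2.le.trans (arccos_le_pi _)
    have hk := key_ineq hx hx2 t1 hlt s2
    have ps : 0 < 1 - (x - cos s) ^ 2 := by nlinarith
    have pt : 0 < 1 - (x - cos t) ^ 2 := by nlinarith
    have es : 1 - cos s ^ 2 = sin s ^ 2 := by rw [← sin_sq_add_cos_sq s]; ring
    have et : 1 - cos t ^ 2 = sin t ^ 2 := by rw [← sin_sq_add_cos_sq t]; ring
    rw [es, et] at hk
    apply neg_lt_neg
    rw [div_lt_div_iff₀ (by positivity) (by positivity)]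
    apply lt_of_pow_lt_pow_left₀ 2 (by positivity)
    rw [mul_pow, mul_pow, sq_sqrt ps.le, sq_sqrt pt.le]
    exact hk

theorem mu_strictAnti {x : ℝ} (hx : 0 < x) (hx2 : x < 2) :
    StrictAntiOn (fun t => arccos (x - cos t)) (Icc 0 (arccos (x - 1))) := by
  apply strictAntiOn_of_deriv_neg (convex_Icc _ _)
  · exact (continuous_arccos.comp (by fun_prop)).continuousOn
  · rw [interior_Icc]
    intro t ht
    obtain ⟨⟨t1, t2, t3⟩, t4⟩ := mu_deriv hx hx2 ht
    rw [t4.deriv]
    have pt : 0 < 1 - (x - cos t) ^ 2 := by nlinarith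
    have : 0 < sin t / √(1 - (x - cos t) ^ 2) := by positivity
    linarith

/-- four-point inequality from strict concavity -/
theorem four_point {f : ℝ → ℝ} {A B : ℝ} (hf : StrictConcaveOn ℝ (Icc A B) f) {s t δ : ℝ}
    (hA : A ≤ s) (hst : s < t) (hδ : 0 < δ) (hB : t + δ ≤ B) :
    f s + f (t + δ) < f t + f (s + δ) := by
  have hs : s ∈ Icc A B := ⟨hA, by linarith⟩
  have ht : t + δ ∈ Icc A B := ⟨by linarith, hB⟩
  have hne : s ≠ t + δ := by linarith
  have hpos : 0 < t + δ - s := by linarith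
  have p1 : 0 < δ / (t + δ - s) := by positivity
  have p2 : 0 < (t - s) / (t + δ - s) := div_pos (by linarith) hpos
  have p3 : δ / (t + δ - s) + (t - s) / (t + δ - s) = 1 := by field_simp; ring
  have h1 := hf.2 hs ht hne p1 p2 p3
  have h2 := hf.2 hs ht hne p2 p1 (by rw [add_comm]; exact p3)
  simp only [smul_eq_mul] at h1 h2
  have e1 : δ / (t + δ - s) * s + (t - s) / (t + δ - s) * (t + δ) = t := by
    field_simp; ring
  have e2 : (t - s) / (t + δ - s) * s + δ / (t + δ - s) * (t + δ) = s + δ := by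
    field_simp; ring
  rw [e1] at h1
  rw [e2] at h2
  have e3 : δ / (t + δ - s) + (t - s) / (t + δ - s) = 1 := by field_simp; ring
  have e4 : δ / (t + δ - s) * f s + (t - s) / (t + δ - s) * f (t + δ) +
      ((t - s) / (t + δ - s) * f s + δ / (t + δ - s) * f (t + δ)) = f s + f (t + δ) := by
    have : δ / (t + δ - s) * f s + (t - s) / (t + δ - s) * f (t + δ) +
      ((t - s) / (t + δ - s) * f s + δ / (t + δ - s) * f (t + δ)) =
      (δ / (t + δ - s) + (t - s) / (t + δ - s)) * (f s + f (t + δ)) := by ring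
    rw [this, e3, one_mul]
  linarith

/-- `∫_0^{π/k} cos(kt) ψ(t) dt > 0` for strictly decreasing `ψ` -/
theorem cos_int_pos {k : ℕ} (hk : 1 ≤ k) {ψ : ℝ → ℝ} (hψ : Continuous ψ)
    (hanti : StrictAntiOn ψ (Icc 0 (π / k))) :
    0 < ∫ t in (0 : ℝ)..(π / k), cos (k * t) * ψ t := by
  have hk0 : (0 : ℝ) < k := by exact_mod_cast hk
  have hδ : 0 < π / k := by positivity
  have hcos0 : ∫ t in (0 : ℝ)..(π / k), cos (k * t) = 0 := by
    rw [intervalIntegral.integral_comp_mul_left (fun t => cos t) hk0.ne', integral_cos]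
    have : (k : ℝ) * (π / k) = π := by field_simp
    rw [this]; simp
  have hcc : Continuous (fun t : ℝ => cos (k * t)) := by fun_prop
  have h1 : ∫ t in (0 : ℝ)..(π / k), cos (k * t) * ψ t =
      ∫ t in (0 : ℝ)..(π / k), cos (k * t) * (ψ t - ψ (π / k / 2)) := by
    have h2 : ∀ t, cos (k * t) * (ψ t - ψ (π / k / 2)) =
        cos (k * t) * ψ t - cos (k * t) * ψ (π / k / 2) := fun t => by ring
    simp only [h2]
    have c1 : Continuous (fun t : ℝ => cos (k * t) * ψ t) := hcc.mul hψ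
    have c2 : Continuous (fun t : ℝ => cos (k * t) * ψ (π / k / 2)) := hcc.mul continuous_const
    rw [intervalIntegral.integral_sub (c1.intervalIntegrable _ _) (c2.intervalIntegrable _ _),
      intervalIntegral.integral_mul_const, hcos0]
    ring
  rw [h1]
  have hmid : π / k / 2 ∈ Icc 0 (π / k) := ⟨by positivity, by linarith⟩
  apply intervalIntegral.integral_pos hδ
  · exact (hcc.mul (hψ.sub continuous_const)).continuousOn
  · intro t ht
    have ht' : t ∈ Icc 0 (π / k) := ⟨ht.1.le, ht.2⟩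
    have e : (k : ℝ) * (π / k / 2) = π / 2 := by field_simp
    rcases le_total t (π / k / 2) with h | h
    · have h3 : 0 ≤ cos (k * t) := by
        apply cos_nonneg_of_mem_Icc
        constructor
        · have : 0 ≤ (k : ℝ) * t := by positivity [ht.1.le]
          linarith [pi_pos]
        · rw [← e]; exact mul_le_mul_of_nonneg_left h hk0.le
      have h4 : ψ (π / k / 2) ≤ ψ t := hanti.antitoneOn ht' hmid h
      exact mul_nonneg h3 (by linarith)
    · have h3 : cos (k * t) ≤ 0 := by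
        apply cos_nonpos_of_pi_div_two_le_of_le
        · rw [← e]; exact mul_le_mul_of_nonneg_left h hk0.le
        · have : (k : ℝ) * t ≤ k * (π / k) := mul_le_mul_of_nonneg_left ht.2 hk0.le
          have e2 : (k : ℝ) * (π / k) = π := by field_simp
          rw [e2] at this
          linarith [pi_pos]
      have h4 : ψ t ≤ ψ (π / k / 2) := hanti.antitoneOn hmid ht' h
      exact mul_nonneg_of_nonpos_of_nonpos h3 (by linarith)
  · refine ⟨0, ⟨le_rfl, hδ.le⟩, ?_⟩
    rw [mul_zero, cos_zero, one_mul, sub_pos]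
    exact hanti ⟨le_rfl, hδ.le⟩ hmid (by positivity)

/-- alternating sums of increasing positive sequences -/
theorem alt_sum (c : ℕ → ℝ) (m : ℕ) (h0 : 0 < c 0) (hc : ∀ j, j < m → c j < c (j + 1)) :
    0 < (-1) ^ m * ∑ j ∈ Finset.range (m + 1), (-1) ^ j * c j ∧
      (-1) ^ m * ∑ j ∈ Finset.range (m + 1), (-1) ^ j * c j ≤ c m := by
  induction m with
  | zero => simp [h0]
  | succ m ih =>
    have h1 := ih (fun j hj => hc j (by omega))
    have h2 := hc m (by omega)
    rw [Finset.sum_range_succ]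
    have e : (-1 : ℝ) ^ (m + 1) * (∑ j ∈ Finset.range (m + 1), (-1) ^ j * c j +
        (-1) ^ (m + 1) * c (m + 1)) =
        c (m + 1) - (-1) ^ m * ∑ j ∈ Finset.range (m + 1), (-1) ^ j * c j := by
      have e1 : ((-1 : ℝ) ^ (m + 1)) * (-1) ^ (m + 1) = 1 := by
        rw [← mul_pow]; norm_num
      have e2 : (-1 : ℝ) ^ (m + 1) = - (-1) ^ m := by rw [pow_succ]; ring
      calc _ = (-1 : ℝ) ^ (m + 1) * ∑ j ∈ Finset.range (m + 1), (-1) ^ j * c j +
            ((-1 : ℝ) ^ (m + 1) * (-1) ^ (m + 1)) * c (m + 1) := by ring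
        _ = _ := by rw [e1, e2]; ring
    rw [e]
    constructor <;> linarith

/-- the pieces of the integral -/
noncomputable def cc (k : ℕ) (μ : ℝ → ℝ) (j : ℕ) : ℝ :=
  ∫ t in (0 : ℝ)..(π / k), cos (k * t) * μ (j * (π / k) + t)

theorem split_sum {k : ℕ} (hk : 1 ≤ k) {μ : ℝ → ℝ} (hμ : Continuous μ) (n : ℕ) :
    ∫ t in (0 : ℝ)..(n * (π / k)), cos (k * t) * μ t =
      ∑ j ∈ Finset.range n, (-1) ^ j * cc k μ j := by
  have hk0 : (0 : ℝ) < k := by exact_mod_cast hk
  have hgc : Continuous (fun t => cos (k * t) * μ t) :=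
    (continuous_cos.comp (continuous_const.mul continuous_id)).mul hμ
  have h1 := intervalIntegral.sum_integral_adjacent_intervals (μ := volume)
    (f := fun t => cos (k * t) * μ t) (a := fun j : ℕ => (j : ℝ) * (π / k)) (n := n)
    (fun j _ => hgc.intervalIntegrable _ _)
  simp only [Nat.cast_zero, zero_mul] at h1
  rw [← h1]
  apply Finset.sum_congr rfl
  intro j _
  rw [cc, ← intervalIntegral.integral_const_mul]
  have h2 := intervalIntegral.integral_comp_add_left (a := 0) (b := π / k)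
    (fun t => cos (k * t) * μ t) ((j : ℝ) * (π / k))
  have e1 : (j : ℝ) * (π / k) + 0 = j * (π / k) := by ring
  have e2 : (j : ℝ) * (π / k) + π / k = ((j + 1 : ℕ) : ℝ) * (π / k) := by push_cast; ring
  rw [e1, e2] at h2
  rw [← h2]
  apply intervalIntegral.integral_congr
  intro t _
  have e3 : (k : ℝ) * (j * (π / k) + t) = k * t + j * π := by
    field_simp; ring
  simp only []
  rw [e3, cos_add_nat_mul_pi]
  ring

theorem cc_zero_pos {k : ℕ} (hk : 1 ≤ k) {μ : ℝ → ℝ} (hμ : Continuous μ) {β : ℝ}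
    (hβ : π / k ≤ β) (hanti : StrictAntiOn μ (Icc 0 β)) : 0 < cc k μ 0 := by
  have h := cos_int_pos hk hμ (hanti.mono (Icc_subset_Icc_right hβ))
  have e : cc k μ 0 = ∫ t in (0 : ℝ)..(π / k), cos (k * t) * μ t := by
    rw [cc]
    simp only [Nat.cast_zero, zero_mul, zero_add]
  rw [e]; exact h

theorem cc_lt {k : ℕ} (hk : 1 ≤ k) {μ : ℝ → ℝ} (hμ : Continuous μ) {β : ℝ}
    (hconc : StrictConcaveOn ℝ (Icc 0 β) μ) (j : ℕ) (hj : ((j : ℝ) + 2) * (π / k) ≤ β) :
    cc k μ j < cc k μ (j + 1) := by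
  have hk0 : (0 : ℝ) < k := by exact_mod_cast hk
  set δ : ℝ := π / k with hδ
  have hδ0 : 0 < δ := by rw [hδ]; positivity
  have hcos : Continuous (fun t : ℝ => cos (k * t)) := by fun_prop
  have hs1 : Continuous (fun t : ℝ => μ (j * δ + t)) := hμ.comp (by fun_prop)
  have hs2 : Continuous (fun t : ℝ => μ (((j + 1 : ℕ) : ℝ) * δ + t)) := hμ.comp (by fun_prop)
  have c1 : Continuous (fun t : ℝ => cos (k * t) * μ (j * δ + t)) := hcos.mul hs1
  have c2 : Continuous (fun t : ℝ => cos (k * t) * μ (((j + 1 : ℕ) : ℝ) * δ + t)) := hcos.mul hs2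
  have hψ : Continuous (fun t : ℝ => μ (((j + 1 : ℕ) : ℝ) * δ + t) - μ (j * δ + t)) := hs2.sub hs1
  have hanti : StrictAntiOn (fun t : ℝ => μ (((j + 1 : ℕ) : ℝ) * δ + t) - μ (j * δ + t))
      (Icc 0 (π / k)) := by
    intro s hs t ht hst
    rw [← hδ] at hs ht
    have hjs : 0 ≤ (j : ℝ) * δ := by positivity
    have hfp := four_point hconc (s := j * δ + s) (t := j * δ + t) (δ := δ)
      (by linarith [hs.1]) (by linarith) hδ0 (by linarith [ht.2])
    have e1 : ((j + 1 : ℕ) : ℝ) * δ + t = j * δ + t + δ := by push_cast; ring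
    have e2 : ((j + 1 : ℕ) : ℝ) * δ + s = j * δ + s + δ := by push_cast; ring
    simp only []
    rw [e1, e2]
    linarith
  have h := cos_int_pos hk hψ hanti
  have h1 : cc k μ (j + 1) - cc k μ j = ∫ t in (0 : ℝ)..(π / k), cos (k * t) *
      (μ (((j + 1 : ℕ) : ℝ) * δ + t) - μ (j * δ + t)) := by
    rw [cc, cc, ← hδ]
    rw [← intervalIntegral.integral_sub (c2.intervalIntegrable _ _)
      (c1.intervalIntegrable _ _)]
    apply intervalIntegral.integral_congr
    intro t _
    simp only []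
    ring
  linarith

/-- sign of `F` at the special points -/
theorem F_sign {k m : ℕ} (hm : m + 1 < k) :
    0 < (-1) ^ m * F (1 + cos ((m + 1 : ℕ) * (π / k))) k := by
  have hk0 : (0 : ℝ) < k := by exact_mod_cast (by omega : 0 < k)
  have hk1 : 1 ≤ k := by omega
  obtain ⟨β, hβ⟩ : ∃ β : ℝ, β = (m + 1 : ℕ) * (π / k) := ⟨_, rfl⟩
  have hδ0 : 0 < π / k := by positivity
  have hβ0 : 0 < β := by rw [hβ]; positivity
  have hβπ : β < π := by
    have h1 : ((m + 1 : ℕ) : ℝ) < k := by exact_mod_cast hm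
    have h2 : ((m + 1 : ℕ) : ℝ) * (π / k) < k * (π / k) := mul_lt_mul_of_pos_right h1 hδ0
    have h3 : (k : ℝ) * (π / k) = π := by field_simp
    rw [hβ]; linarith
  have hc1 : -1 < cos β := by
    have := cos_lt_cos_of_nonneg_of_le_pi hβ0.le le_rfl hβπ
    rwa [cos_pi] at this
  have hc2 : cos β < 1 := by
    have := cos_lt_cos_of_nonneg_of_le_pi le_rfl hβπ.le hβ0
    rwa [cos_zero] at this
  have hx0 : 0 < 1 + cos β := by linarith
  have hx2 : 1 + cos β < 2 := by linarith
  have harc : arccos (1 + cos β - 1) = β := by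
    rw [add_sub_cancel_left, arccos_cos hβ0.le hβπ.le]
  have hconc := mu_strictConcave hx0 hx2
  have hanti := mu_strictAnti hx0 hx2
  rw [harc] at hconc hanti
  rw [← hβ, F_eq_cos k hx0 hx2, harc]
  have hμc : Continuous (fun t => arccos (1 + cos β - cos t)) :=
    continuous_arccos.comp (by fun_prop)
  have hsplit := split_sum hk1 hμc (m + 1)
  rw [← hβ] at hsplit
  have hδβ : π / k ≤ β := by
    rw [hβ]; push_cast
    have : (0 : ℝ) ≤ (m : ℝ) * (π / k) := by positivity
    linarith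
  have hc0 := cc_zero_pos hk1 hμc hδβ hanti
  have hcj : ∀ j, j < m → cc k (fun t => arccos (1 + cos β - cos t)) j <
      cc k (fun t => arccos (1 + cos β - cos t)) (j + 1) := by
    intro j hj
    apply cc_lt hk1 hμc hconc
    rw [hβ]
    apply mul_le_mul_of_nonneg_right _ hδ0.le
    have : j + 2 ≤ m + 1 := by omega
    exact_mod_cast this
  rw [hsplit]
  have h := (alt_sum _ m hc0 hcj).1
  have h5 := mul_pos hk0 h
  linarith

end Pool.Agent.Helper68_Zeros
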