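import Mathlib
import Pool.Agent.Helper68_Zeros.Lower

/-!
Sign of `F` near `0`, and the construction of `k - 1` zeros.
-/

set_option autoImplicit false

namespace Pool.Agent.Helper68_Zeros

open Real Set MeasureTheory Filter Topology

theorem F_continuous (k : ℕ) : Continuous (fun x => F x k) := by
  have h1 : Continuous (Function.uncurry (fun (x l : ℝ) => sin (k * arccos (x - cos l)))) := by
    apply continuous_sin.comp
    apply continuous_const.mul
    apply continuous_arccos.comp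
    exact continuous_fst.sub (continuous_cos.comp continuous_snd)
  exact intervalIntegral.continuous_parametric_intervalIntegral_of_continuous h1
    (continuous_arccos.comp (by fun_prop))

theorem F_zero_odd (n : ℕ) : 0 < F 0 (2 * n + 1) := by
  have h1 : F 0 (2 * n + 1) = ∫ l in (0 : ℝ)..π, sin (((2 * n + 1 : ℕ) : ℝ) * l) := by
    rw [F]
    have e : arccos (0 - 1) = π := by rw [zero_sub, arccos_neg_one]
    rw [e]
    apply intervalIntegral.integral_congr
    intro l hl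
    rw [uIcc_of_le pi_pos.le] at hl
    simp only []
    rw [zero_sub, arccos_neg, arccos_cos hl.1 hl.2]
    have e2 : ((2 * n + 1 : ℕ) : ℝ) * (π - l) =
        π - ((2 * n + 1 : ℕ) : ℝ) * l + (n : ℕ) * (2 * π) := by
      push_cast; ring
    rw [e2, sin_add_nat_mul_two_pi, sin_pi_sub]
  have hk : ((2 * n + 1 : ℕ) : ℝ) ≠ 0 := by positivity
  rw [h1, intervalIntegral.integral_comp_mul_left (fun t => sin t) hk, integral_sin, mul_zero,
    cos_zero]
  have e3 : ((2 * n + 1 : ℕ) : ℝ) * π = π + (n : ℕ) * (2 * π) := by push_cast; ring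
  rw [e3, cos_add_nat_mul_two_pi, cos_pi, smul_eq_mul]
  positivity

theorem near_odd (n : ℕ) {c : ℝ} (hc : 0 < c) : ∃ x, (0 < x ∧ x < c) ∧ 0 < F x (2 * n + 1) := by
  have h1 : ∀ᶠ x in 𝓝 (0 : ℝ), 0 < F x (2 * n + 1) :=
    (F_continuous (2 * n + 1)).continuousAt.eventually (lt_mem_nhds (F_zero_odd n))
  have h2 : ∀ᶠ x in 𝓝[>] (0 : ℝ), 0 < F x (2 * n + 1) := h1.filter_mono nhdsWithin_le_nhds
  have h3 : ∀ᶠ x in 𝓝[>] (0 : ℝ), x ∈ Ioo 0 c := Ioo_mem_nhdsGT hc
  obtain ⟨x, hx1, hx2⟩ := (h2.and h3).exists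
  exact ⟨x, hx2, hx1⟩

theorem F1_bound {x : ℝ} (hx : 0 < x) (hx2 : x < 2) : |F1 x| ≤ 2 * π := by
  rw [F1, II]
  have h1 := intervalIntegral.norm_integral_le_of_norm_le_const (a := -(π / 2)) (b := π / 2)
    (f := fun φ => ((1 - x / 2) * (1 + x / 2) - (1 - x / 2) ^ 2 * sin φ ^ 2) / √(DD x (sin φ)))
    (C := 2) (fun φ _ => by
      have hD := DD_pos hx (sin_sq_le φ)
      have hs := sin_sq_le φ
      have hs0 := sq_nonneg (sin φ)
      rw [norm_div, Real.norm_eq_abs, Real.norm_eq_abs, abs_of_pos (sqrt_pos.mpr hD),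
        div_le_iff₀ (sqrt_pos.mpr hD)]
      have ha : 0 < 1 - x / 2 := by linarith
      have h2 : 0 ≤ (1 - x / 2) * (1 + x / 2) - (1 - x / 2) ^ 2 * sin φ ^ 2 := by
        have : 0 ≤ (1 - x / 2) ^ 2 * (1 - sin φ ^ 2) := by
          apply mul_nonneg (sq_nonneg _); linarith
        nlinarith [mul_pos ha hx]
      rw [abs_of_nonneg h2]
      have h3 : (1 - x / 2) * (1 + x / 2) - (1 - x / 2) ^ 2 * sin φ ^ 2 ≤ DD x (sin φ) := by
        rw [DD]; nlinarith
      have h4 : √(DD x (sin φ)) ≤ 2 := by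
        rw [sqrt_le_left (by norm_num), DD]
        nlinarith [mul_nonneg (sq_nonneg (1 - x / 2)) hs0]
      have h5 : √(DD x (sin φ)) ^ 2 = DD x (sin φ) := sq_sqrt hD.le
      have h6 : 0 ≤ √(DD x (sin φ)) := sqrt_nonneg _
      nlinarith)
  rw [Real.norm_eq_abs] at h1
  have h2 : |π / 2 - -(π / 2)| = π := by
    rw [sub_neg_eq_add, add_halves, abs_of_pos pi_pos]
  rw [h2] at h1
  exact h1

theorem I0_lower {x : ℝ} (hx : 0 < x) (hx2 : x < 2) : -log √(2 * x) ≤ I0 x := by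
  have hε : 0 < √(2 * x) := by positivity
  have hπ := pi_pos
  have hc : Continuous (fun φ => (1 : ℝ) / √(DD x (sin φ))) :=
    cont_integrand (N := fun _ => 1) (by fun_prop) hx
  have h1 : ∫ φ in (0 : ℝ)..(π / 2), (1 : ℝ) / √(DD x (sin φ)) ≤ I0 x := by
    rw [I0, II, ← intervalIntegral.integral_add_adjacent_intervals
      (hc.intervalIntegrable (-(π / 2)) 0) (hc.intervalIntegrable 0 (π / 2))]
    have : 0 ≤ ∫ φ in (-(π / 2))..0, (1 : ℝ) / √(DD x (sin φ)) := by
      apply intervalIntegral.integral_nonneg (by linarith)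
      intro φ _
      positivity
    linarith
  have h2 : ∫ φ in (0 : ℝ)..(π / 2), (1 : ℝ) / (√(2 * x) + π / 2 - φ) ≤
      ∫ φ in (0 : ℝ)..(π / 2), (1 : ℝ) / √(DD x (sin φ)) := by
    apply intervalIntegral.integral_mono_on (by linarith)
    · apply ContinuousOn.intervalIntegrable
      intro φ hφ
      rw [uIcc_of_le (by linarith)] at hφ
      apply ContinuousAt.continuousWithinAt
      apply ContinuousAt.div (by fun_prop) (by fun_prop)
      have := hφ.2
      linarith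
    · exact hc.intervalIntegrable _ _
    · intro φ hφ
      have hD := DD_pos hx (sin_sq_le φ)
      apply one_div_le_one_div_of_le (sqrt_pos.mpr hD)
      have hcos : cos φ ≤ π / 2 - φ := by
        rw [← sin_pi_div_two_sub]
        exact sin_le (by linarith [hφ.2])
      have hcos0 : 0 ≤ cos φ := cos_nonneg_of_mem_Icc ⟨by linarith [hφ.1], hφ.2⟩
      rw [sqrt_le_left (by linarith [hφ.2])]
      have h5 : √(2 * x) ^ 2 = 2 * x := sq_sqrt (by linarith)
      have h6 : DD x (sin φ) = 2 * x + (1 - x / 2) ^ 2 * cos φ ^ 2 := by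
        have : cos φ ^ 2 = 1 - sin φ ^ 2 := by rw [← sin_sq_add_cos_sq φ]; ring
        rw [DD, this]; ring
      have h7 : (1 - x / 2) ^ 2 * cos φ ^ 2 ≤ (π / 2 - φ) ^ 2 := by
        have h8 : (1 - x / 2) ^ 2 ≤ 1 := by nlinarith
        have h9 : cos φ ^ 2 ≤ (π / 2 - φ) ^ 2 := pow_le_pow_left₀ hcos0 hcos 2
        nlinarith [sq_nonneg (cos φ)]
      rw [h6]
      have h10 : 0 ≤ √(2 * x) * (π / 2 - φ) := mul_nonneg hε.le (by linarith)
      nlinarith
  have h3 : ∫ φ in (0 : ℝ)..(π / 2), (1 : ℝ) / (√(2 * x) + π / 2 - φ) =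
      log ((√(2 * x) + π / 2) / √(2 * x)) := by
    have h4 := intervalIntegral.integral_comp_sub_left (a := 0) (b := π / 2)
      (fun t => (1 : ℝ) / t) (√(2 * x) + π / 2)
    have e1 : √(2 * x) + π / 2 - π / 2 = √(2 * x) := by ring
    rw [h4, e1, sub_zero, integral_one_div_of_pos hε (by positivity)]
  have h4 : -log √(2 * x) ≤ log ((√(2 * x) + π / 2) / √(2 * x)) := by
    rw [← log_inv]
    apply log_le_log (by positivity)
    rw [inv_eq_one_div]
    apply div_le_div_of_nonneg_right _ hε.le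
    linarith [pi_gt_three]
  linarith

theorem I0_tendsto : Tendsto I0 (𝓝[>] 0) atTop := by
  have h1 : Tendsto (fun x : ℝ => √(2 * x)) (𝓝[>] 0) (𝓝[>] 0) := by
    rw [tendsto_nhdsWithin_iff]
    constructor
    · have : Tendsto (fun x : ℝ => √(2 * x)) (𝓝 0) (𝓝 √(2 * 0)) := by
        apply Continuous.tendsto
        fun_prop
      rw [mul_zero, sqrt_zero] at this
      exact this.mono_left nhdsWithin_le_nhds
    · filter_upwards [self_mem_nhdsWithin] with x hx
      have : (0 : ℝ) < x := hx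
      exact sqrt_pos.mpr (by linarith)
  have h2 : Tendsto (fun x : ℝ => -log √(2 * x)) (𝓝[>] 0) atTop :=
    tendsto_neg_atBot_atTop.comp (tendsto_log_nhdsGT_zero.comp h1)
  apply tendsto_atTop_mono' _ _ h2
  filter_upwards [Ioo_mem_nhdsGT (two_pos : (0 : ℝ) < 2)] with x hx
  exact I0_lower hx.1 hx.2

theorem near_even (n : ℕ) {c : ℝ} (hc : 0 < c) (hc2 : c ≤ 2) :
    ∃ x, (0 < x ∧ x < c) ∧ F x (2 * n + 2) < 0 := by
  obtain ⟨A, B, -, -, -, hA1, -, hF⟩ := rep_even n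
  have hw : Tendsto (fun x : ℝ => 1 - x ^ 2 / 4) (𝓝[>] 0) (𝓝 1) := by
    have : Tendsto (fun x : ℝ => 1 - x ^ 2 / 4) (𝓝 0) (𝓝 (1 - 0 ^ 2 / 4)) := by
      apply Continuous.tendsto
      fun_prop
    have e : (1 - 0 ^ 2 / 4 : ℝ) = 1 := by norm_num
    rw [e] at this
    exact this.mono_left nhdsWithin_le_nhds
  have hAt : Tendsto (fun x : ℝ => A.eval (1 - x ^ 2 / 4)) (𝓝[>] 0) (𝓝 (A.eval 1)) :=
    (A.continuous.tendsto 1).comp hw
  have hBt : Tendsto (fun x : ℝ => |B.eval (1 - x ^ 2 / 4)|) (𝓝[>] 0) (𝓝 |B.eval 1|) :=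
    ((B.continuous.tendsto 1).comp hw).abs
  have hneg : A.eval 1 < 0 := by
    rw [hA1]
    have : (0 : ℝ) < 2 * n + 2 := by positivity
    linarith
  have h1 : Tendsto (fun x : ℝ => A.eval (1 - x ^ 2 / 4) * I0 x) (𝓝[>] 0) atBot :=
    hAt.neg_mul_atTop hneg I0_tendsto
  have h2 : ∀ᶠ x in 𝓝[>] (0 : ℝ), A.eval (1 - x ^ 2 / 4) * I0 x <
      -((|B.eval 1| + 1) * (2 * π)) := h1.eventually (eventually_lt_atBot _)
  have h3 : ∀ᶠ x in 𝓝[>] (0 : ℝ), |B.eval (1 - x ^ 2 / 4)| < |B.eval 1| + 1 :=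
    hBt.eventually (gt_mem_nhds (by linarith))
  have h4 : ∀ᶠ x in 𝓝[>] (0 : ℝ), x ∈ Ioo 0 c := Ioo_mem_nhdsGT hc
  obtain ⟨x, ⟨hx1, hx2⟩, hx3⟩ := ((h2.and h3).and h4).exists
  refine ⟨x, hx3, ?_⟩
  rw [hF x hx3.1 (lt_of_lt_of_le hx3.2 hc2)]
  have h5 : B.eval (1 - x ^ 2 / 4) * F1 x ≤ (|B.eval 1| + 1) * (2 * π) := by
    refine (le_abs_self _).trans ?_
    rw [abs_mul]
    exact mul_le_mul hx2.le (F1_bound hx3.1 (lt_of_lt_of_le hx3.2 hc2)) (abs_nonneg _)
      (by positivity)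
  have h6 : A.eval (1 - x ^ 2 / 4) * I0 x + B.eval (1 - x ^ 2 / 4) * F1 x < 0 := by linarith
  have h7 : 0 < x / 2 := by linarith [hx3.1]
  exact mul_neg_of_pos_of_neg h7 h6

/-- zeros from sign changes -/
theorem zeros_of_signs {f : ℝ → ℝ} (hf : Continuous f) (p : ℕ → ℝ) (n : ℕ)
    (hp : ∀ m < n, p (m + 1) < p m) (hs : ∀ m ≤ n, 0 < (-1) ^ m * f (p m)) :
    ∃ S : Finset ℝ, S.card = n ∧ ∀ z ∈ S, (p n < z ∧ z < p 0) ∧ f z = 0 := by
  have hanti : ∀ m ≤ n, p m ≤ p 0 := by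
    intro m
    induction m with
    | zero => intro _; exact le_rfl
    | succ m ih => intro hm; exact (hp m (by omega)).le.trans (ih (by omega))
  induction n with
  | zero => exact ⟨∅, rfl, by simp⟩
  | succ n ih =>
    obtain ⟨S, hS, hS'⟩ := ih (fun m hm => hp m (by omega)) (fun m hm => hs m (by omega))
      (fun m hm => hanti m (by omega))
    have h1 := hs n (by omega)
    have h2 := hs (n + 1) le_rfl
    have h3 := hp n (by omega)
    have hg : Continuous (fun x => (-1) ^ n * f x) := continuous_const.mul hf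
    have h4 : (-1) ^ n * f (p (n + 1)) < 0 := by
      have : (-1 : ℝ) ^ (n + 1) * f (p (n + 1)) = -((-1) ^ n * f (p (n + 1))) := by
        rw [pow_succ]; ring
      linarith
    have h5 := intermediate_value_Ioo h3.le hg.continuousOn
    obtain ⟨z, hz, hz0⟩ := h5 (⟨h4, h1⟩ : (0 : ℝ) ∈ Ioo _ _)
    have hz0' : f z = 0 := by
      rcases mul_eq_zero.mp hz0 with h | h
      · exact absurd h (by positivity)
      · exact h
    have hzS : z ∉ S := fun h => by
      have := (hS' z h).1.1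
      linarith [hz.2]
    refine ⟨insert z S, by rw [Finset.card_insert_of_notMem hzS, hS], ?_⟩
    intro y hy
    rw [Finset.mem_insert] at hy
    rcases hy with rfl | hy
    · exact ⟨⟨hz.1, lt_of_lt_of_le hz.2 (hanti n (by omega))⟩, hz0'⟩
    · exact ⟨⟨h3.trans (hS' y hy).1.1, (hS' y hy).1.2⟩, (hS' y hy).2⟩

/-- the special points, from right to left, followed by `x'` -/
noncomputable def pt (k : ℕ) (x' : ℝ) (m : ℕ) : ℝ :=
  if m + 1 < k then 1 + cos ((m + 1 : ℕ) * (π / k)) else x'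

theorem sp_mem {k m : ℕ} (hm : m + 1 < k) :
    0 < 1 + cos ((m + 1 : ℕ) * (π / k)) ∧ 1 + cos ((m + 1 : ℕ) * (π / k)) < 2 := by
  have hk0 : (0 : ℝ) < k := by exact_mod_cast (by omega : 0 < k)
  have hδ0 : 0 < π / k := by positivity
  have hβ0 : 0 < ((m + 1 : ℕ) : ℝ) * (π / k) := by positivity
  have hβπ : ((m + 1 : ℕ) : ℝ) * (π / k) < π := by
    have h1 : ((m + 1 : ℕ) : ℝ) < k := by exact_mod_cast hm
    have h2 : ((m + 1 : ℕ) : ℝ) * (π / k) < k * (π / k) := mul_lt_mul_of_pos_right h1 hδ0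
    have h3 : (k : ℝ) * (π / k) = π := by field_simp
    linarith
  have hc1 := cos_lt_cos_of_nonneg_of_le_pi hβ0.le le_rfl hβπ
  have hc2 := cos_lt_cos_of_nonneg_of_le_pi le_rfl hβπ.le hβ0
  rw [cos_pi] at hc1
  rw [cos_zero] at hc2
  constructor <;> linarith

theorem sp_anti {k m : ℕ} (hm : m + 2 < k) :
    1 + cos ((m + 2 : ℕ) * (π / k)) < 1 + cos ((m + 1 : ℕ) * (π / k)) := by
  have hk0 : (0 : ℝ) < k := by exact_mod_cast (by omega : 0 < k)
  have hδ0 : 0 < π / k := by positivity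
  have hβ0 : 0 < ((m + 1 : ℕ) : ℝ) * (π / k) := by positivity
  have hβπ : ((m + 2 : ℕ) : ℝ) * (π / k) < π := by
    have h1 : ((m + 2 : ℕ) : ℝ) < k := by exact_mod_cast hm
    have h2 : ((m + 2 : ℕ) : ℝ) * (π / k) < k * (π / k) := mul_lt_mul_of_pos_right h1 hδ0
    have h3 : (k : ℝ) * (π / k) = π := by field_simp
    linarith
  have h1 : ((m + 1 : ℕ) : ℝ) * (π / k) < ((m + 2 : ℕ) : ℝ) * (π / k) := by
    apply mul_lt_mul_of_pos_right _ hδ0
    push_cast; linarith
  have := cos_lt_cos_of_nonneg_of_le_pi hβ0.le hβπ.le h1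
  linarith

/-- `k - 1` zeros from a suitable point near zero -/
theorem zeros_exist {k : ℕ} (hk : 1 ≤ k) {x' : ℝ} (hx0 : 0 < x') (hx2 : x' < 2)
    (hx' : ∀ m, m + 1 < k → x' < 1 + cos ((m + 1 : ℕ) * (π / k)))
    (hs : 0 < (-1) ^ (k - 1) * F x' k) :
    ∃ S : Finset ℝ, S.card = k - 1 ∧ ∀ z ∈ S, (0 < z ∧ z < 2) ∧ F z k = 0 := by
  obtain ⟨S, hS, hS'⟩ := zeros_of_signs (F_continuous k) (pt k x') (k - 1)
    (fun m hm => by
      rw [pt, pt]
      by_cases h : m + 1 + 1 < k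
      · rw [if_pos h, if_pos (by omega)]
        exact sp_anti h
      · rw [if_neg h, if_pos (by omega)]
        exact hx' m (by omega))
    (fun m hm => by
      rw [pt]
      by_cases h : m + 1 < k
      · rw [if_pos h]; exact F_sign h
      · rw [if_neg h]
        have : m = k - 1 := by omega
        rw [this]; exact hs)
  refine ⟨S, hS, fun z hz => ⟨?_, (hS' z hz).2⟩⟩
  have h1 := (hS' z hz).1
  have h2 : pt k x' (k - 1) = x' := by rw [pt, if_neg (by omega)]
  have h3 : pt k x' 0 < 2 := by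
    rw [pt]
    by_cases h : 0 + 1 < k
    · rw [if_pos h]; exact (sp_mem h).2
    · rw [if_neg h]; exact hx2
  rw [h2] at h1
  exact ⟨hx0.trans h1.1, h1.2.trans h3⟩

end Pool.Agent.Helper68_Zeros
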