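import Mathlib
import Pool.Agent.Helper68_Zeros.Near

/-!
The main theorem: exactly `k - 1` zeros in `(0,2)`, all simple.
-/

set_option autoImplicit false

namespace Pool.Agent.Helper68_Zeros

open Real Set

/-- there is a suitable bound below all special points -/
theorem exists_bound {k : ℕ} (hk : 1 ≤ k) : ∃ c : ℝ, 0 < c ∧ c ≤ 2 ∧
    ∀ m, m + 1 < k → c ≤ 1 + cos ((m + 1 : ℕ) * (π / k)) := by
  rcases Nat.lt_or_ge 1 k with h | h
  · obtain ⟨j, rfl⟩ : ∃ j, k = j + 2 := ⟨k - 2, by omega⟩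
    have hj : j + 1 < j + 2 := by omega
    refine ⟨1 + cos ((j + 1 : ℕ) * (π / ((j + 2 : ℕ) : ℝ))), (sp_mem hj).1, (sp_mem hj).2.le, ?_⟩
    intro m hm
    have hk0 : (0 : ℝ) < ((j + 2 : ℕ) : ℝ) := by positivity
    have hδ0 : 0 < π / ((j + 2 : ℕ) : ℝ) := by positivity
    have h1 : ((m + 1 : ℕ) : ℝ) * (π / ((j + 2 : ℕ) : ℝ)) ≤
        ((j + 1 : ℕ) : ℝ) * (π / ((j + 2 : ℕ) : ℝ)) := by
      apply mul_le_mul_of_nonneg_right _ hδ0.le
      have : m + 1 ≤ j + 1 := by omega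
      exact_mod_cast this
    have h2 : ((j + 1 : ℕ) : ℝ) * (π / ((j + 2 : ℕ) : ℝ)) ≤ π := by
      have h3 : ((j + 2 : ℕ) : ℝ) * (π / ((j + 2 : ℕ) : ℝ)) = π := by field_simp
      have h4 : ((j + 1 : ℕ) : ℝ) * (π / ((j + 2 : ℕ) : ℝ)) ≤
          ((j + 2 : ℕ) : ℝ) * (π / ((j + 2 : ℕ) : ℝ)) := by
        apply mul_le_mul_of_nonneg_right _ hδ0.le
        have : j + 1 ≤ j + 2 := by omega
        exact_mod_cast this
      linarith
    have h3 := cos_le_cos_of_nonneg_of_le_pi (by positivity) h2 h1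
    linarith
  · exact ⟨2, two_pos, le_rfl, fun m hm => by omega⟩

/-- upper and lower bound together -/
theorem main (k : ℕ) (hk : 1 ≤ k) :
    (∃ S : Finset ℝ, S.card = k - 1 ∧ ∀ z ∈ S, (0 < z ∧ z < 2) ∧ F z k = 0) ∧
    ∀ S : Finset ℝ, (∀ z ∈ S, (0 < z ∧ z < 2) ∧ F z k = 0) →
      S.card ≤ k - 1 ∧ (S.card = k - 1 → ∀ x ∈ S, ∃ d, d ≠ 0 ∧ HasDerivAt (fun y => F y k) d x) := by
  obtain ⟨c, hc, hc2, hcm⟩ := exists_bound hk
  rcases Nat.even_or_odd k with ⟨n, hn⟩ | ⟨n, hn⟩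
  · obtain ⟨n', rfl⟩ : ∃ n', n = n' + 1 := ⟨n - 1, by omega⟩
    have hk2 : k = 2 * n' + 2 := by omega
    subst hk2
    obtain ⟨x', hx', hF⟩ := near_even n' hc hc2
    have hlow := zeros_exist hk hx'.1 (lt_of_lt_of_le hx'.2 hc2)
      (fun m hm => lt_of_lt_of_le hx'.2 (hcm m hm)) (by
        have e : 2 * n' + 2 - 1 = 2 * n' + 1 := by omega
        rw [e, pow_succ, pow_mul]
        norm_num
        exact hF)
    have e : 2 * n' + 2 - 1 = 2 * n' + 1 := by omega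
    rw [e] at hlow ⊢
    exact ⟨hlow, fun S hS => upper_even n' hlow S hS⟩
  · subst hn
    obtain ⟨x', hx', hF⟩ := near_odd n hc
    have hlow := zeros_exist hk hx'.1 (lt_of_lt_of_le hx'.2 hc2)
      (fun m hm => lt_of_lt_of_le hx'.2 (hcm m hm)) (by
        have e : 2 * n + 1 - 1 = 2 * n := by omega
        rw [e, pow_mul]
        norm_num
        exact hF)
    have e : 2 * n + 1 - 1 = 2 * n := by omega
    rw [e] at hlow ⊢
    exact ⟨hlow, fun S hS => upper_odd n hlow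
      ⟨x', ⟨hx'.1, lt_of_lt_of_le hx'.2 hc2⟩, hF.ne'⟩ S hS⟩

theorem exact_zeros (k : ℕ) (hk : 1 ≤ k) :
    {x : ℝ | 0 < x ∧ x < 2 ∧ F x k = 0}.encard = ((k - 1 : ℕ) : ℕ∞) ∧
    ∀ x : ℝ, 0 < x → x < 2 → F x k = 0 →
      DifferentiableAt ℝ (fun y => F y k) x ∧ deriv (fun y => F y k) x ≠ 0 := by
  classical
  obtain ⟨⟨S, hS, hS'⟩, hup⟩ := main k hk
  have hall : ∀ x : ℝ, 0 < x → x < 2 → F x k = 0 → x ∈ S := by
    intro x hx hx2 hF
    by_contra hxS
    have h1 := (hup (insert x S) (by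
      intro z hz
      rw [Finset.mem_insert] at hz
      rcases hz with rfl | hz
      · exact ⟨⟨hx, hx2⟩, hF⟩
      · exact hS' z hz)).1
    rw [Finset.card_insert_of_notMem hxS, hS] at h1
    omega
  have hset : {x : ℝ | 0 < x ∧ x < 2 ∧ F x k = 0} = ↑S := by
    ext x
    constructor
    · rintro ⟨h1, h2, h3⟩
      exact hall x h1 h2 h3
    · intro hx
      have := hS' x hx
      exact ⟨this.1.1, this.1.2, this.2⟩
  constructor
  · rw [hset, Set.encard_coe_eq_coe_finsetCard, hS]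
  · intro x hx hx2 hF
    obtain ⟨d, hd0, hd⟩ := (hup S hS').2 hS x (hall x hx hx2 hF)
    refine ⟨hd.differentiableAt, ?_⟩
    rw [hd.deriv]
    exact hd0

end Pool.Agent.Helper68_Zeros
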